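import Pool.Agent.P.MP_119182_lc.LP.Iface

/-! From links in cold cells to unpaid uses. -/

set_option autoImplicit false

namespace Pool.Agent.P.MP_119182_lc.LP

open Finset
open scoped Classical
open NU (Run mr)

namespace CUTx

theorem last (Q : ℕ → Prop) (a b : ℕ) (h : a < b) (hQ : Q a) :
    ∃ T, a ≤ T ∧ T < b ∧ Q T ∧ ∀ T', T < T' → T' < b → ¬ Q T' := by
  obtain ⟨T, hT, hmax⟩ := exists_max_image ((range b).filter Q) id
    ⟨a, mem_filter.2 ⟨mem_range.2 h, hQ⟩⟩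
  refine ⟨T, hmax a (mem_filter.2 ⟨mem_range.2 h, hQ⟩), mem_range.1 (mem_filter.1 hT).1,
    (mem_filter.1 hT).2, fun T' h1 h2 h3 => ?_⟩
  exact absurd (hmax T' (mem_filter.2 ⟨mem_range.2 h2, h3⟩)) (not_le.2 h1)

/-- No link with upper node `y` in `[T, t)`. -/
def nb (d : Run) (T t : ℕ) (y : ℤ) : Prop := T ≤ t ∧ ∀ T', T ≤ T' → T' < t → ¬ up d T' y

theorem nb_eq {d : Run} {T t t' : ℕ} {y : ℤ} (h : nb d T t y) (h' : nb d T t' y) (u : up d t y)
    (u' : up d t' y) : t = t' := by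
  rcases lt_trichotomy t t' with e | e | e
  · exact absurd u (h'.2 t h.1 e)
  · exact e
  · exact absurd u' (h.2 t' h'.1 e)

theorem mem_PL {d : Run} {c : ℕ → ℕ → ℤ → Prop} {p : ℕ × ℤ} (h : p ∈ PL d c) :
    up d p.1 p.2 ∧ ∃ j, use d c p.1 p.2 j := by
  obtain ⟨j, hj⟩ := (mem_filter.1 h).2
  exact ⟨hj.1, j, hj⟩

theorem mem_tk {d : Run} {t : ℕ} {y : ℤ} (h : up d t y) : (t, y) ∈ range d.m ×ˢ d.keys :=
  mem_product.2 ⟨mem_range.2 h.1, mem_Ioo.2 ⟨h.2.1.1, h.2.1.2.1⟩⟩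

theorem mem_NP {d : Run} {c : ℕ → ℕ → ℤ → Prop} {t : ℕ} {y : ℤ} (h : up d t y)
    (h' : ¬ ∃ j, use d c t y j) : (t, y) ∈ NP d c := mem_filter.2 ⟨mem_tk h, h, h'⟩

theorem low_eq (hSTEP : S_STEP) {d : Run} (hd : d.OK) {T : ℕ} {y y' u : ℤ} (h1 : d.L < y)
    (h2 : y < d.R) (h : low d T y u) (h' : low d T y' u) : y = y' := by
  have h3 : y ≠ d.x T := by
    rcases h.2 with e | e
    · exact e.1.ne'
    · exact e.1.ne
  exact (hSTEP d hd T h.1.1 y h1 h2 h3).2.2.2.2 u y' h h'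

/-- The last class: a rise before the previous use. -/
def rise (d : Run) (c : ℕ → ℕ → ℤ → Prop) (t : ℕ) (y : ℤ) (T : ℕ) (u : ℤ) : Prop :=
  ∃ s l e, nb d (s + 1) t y ∧ use d c s y l ∧ use d c t y e ∧ T < s ∧
    (∀ T', T < T' → T' ≤ s → A d l T' y) ∧ sm l (d.x T) y ∧ ¬ sm e (d.x T) y ∧ low d T y u

end CUTx

open CUTx in
theorem p_CUT (hSM : S_SM) (hEN : S_EN) (hSTEP : S_STEP) (hGAIN : S_GAIN) (hUSE : S_USE) :
    S_CUT := by
  intro sg K d c hd hc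
  set C0 := (PL d c).filter fun p => nb d 0 p.1 p.2 with hC0
  set C1 := (PL d c).filter fun p => ∃ s, (s, p.2) ∈ NP d c ∧ nb d (s + 1) p.1 p.2 with hC1
  set C2 := (PL d c).filter fun p => ∃ T, T < d.m ∧ d.x T = p.2 ∧ nb d T p.1 p.2 with hC2
  set C3 := (PL d c).filter fun p =>
    ∃ q ∈ NP d c, low d q.1 p.2 q.2 ∧ nb d q.1 p.1 p.2 with hC3
  set C4 := (PL d c).filter fun p =>
    ∃ s, nb d (s + 1) p.1 p.2 ∧ K < #((Ioc s p.1).filter fun T => on d T p.2) with hC4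
  set C6 := (PL d c).filter fun p => ∃ q ∈ NP d c, rise d c p.1 p.2 q.1 q.2 with hC6
  have b0 : #C0 ≤ (d.R - d.L).toNat := by
    have h1 : #C0 ≤ #d.keys := by
      refine card_le_card_of_injOn (fun p => p.2) (fun p hp => ?_) fun p hp q hq e => ?_
      · exact mem_coe.2 (mem_product.1 (mem_tk (mem_PL (mem_filter.1 hp).1).1)).2
      · obtain ⟨p1, p2⟩ := mem_filter.1 (mem_coe.1 hp)
        obtain ⟨q1, q2⟩ := mem_filter.1 (mem_coe.1 hq)
        have e' : p.2 = q.2 := e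
        exact Prod.ext (nb_eq p2 (e' ▸ q2) (mem_PL p1).1 (e' ▸ (mem_PL q1).1)) e'
    have h2 : #d.keys = (d.R - d.L - 1).toNat := Int.card_Ioo _ _
    omega
  have b1 : #C1 ≤ #(NP d c) := by
    refine card_le_card_of_forall_subsingleton
      (fun p q => q.2 = p.2 ∧ nb d (q.1 + 1) p.1 p.2) (fun p hp => ?_) fun q _ p hp p' hp' => ?_
    · obtain ⟨s, h1, h2⟩ := (mem_filter.1 hp).2
      exact ⟨(s, p.2), h1, rfl, h2⟩
    · obtain ⟨p1, p2, p3⟩ := hp
      obtain ⟨q1, q2, q3⟩ := hp'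
      have e' : p.2 = p'.2 := p2.symm.trans q2
      exact Prod.ext (nb_eq p3 (e' ▸ q3) (mem_PL (mem_filter.1 p1).1).1
        (e' ▸ (mem_PL (mem_filter.1 q1).1).1)) e'
  have b2 : #C2 ≤ d.m := by
    refine (card_le_card_of_forall_subsingleton (t := range d.m)
      (fun p T => d.x T = p.2 ∧ nb d T p.1 p.2) (fun p hp => ?_)
      fun q _ p hp p' hp' => ?_).trans (card_range _).le
    · obtain ⟨T, h1, h2⟩ := (mem_filter.1 hp).2
      exact ⟨T, mem_range.2 h1, h2⟩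
    · obtain ⟨p1, p2, p3⟩ := hp
      obtain ⟨q1, q2, q3⟩ := hp'
      have e' : p.2 = p'.2 := p2.symm.trans q2
      exact Prod.ext (nb_eq p3 (e' ▸ q3) (mem_PL (mem_filter.1 p1).1).1
        (e' ▸ (mem_PL (mem_filter.1 q1).1).1)) e'
  have b3 : #C3 ≤ #(NP d c) := by
    refine card_le_card_of_forall_subsingleton
      (fun p q => low d q.1 p.2 q.2 ∧ nb d q.1 p.1 p.2) (fun p hp => (mem_filter.1 hp).2)
      fun q _ p hp p' hp' => ?_
    obtain ⟨p1, p2, p3⟩ := hp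
    obtain ⟨q1, q2, q3⟩ := hp'
    have u := (mem_PL (mem_filter.1 p1).1).1
    have e' : p.2 = p'.2 := low_eq hSTEP hd u.2.1.1 u.2.1.2.1 p2 q2
    exact Prod.ext (nb_eq p3 (e' ▸ q3) u (e' ▸ (mem_PL (mem_filter.1 q1).1).1)) e'
  have b4 : #C4 * K ≤ #(ON d) * 1 := by
    refine card_mul_le_card_mul (fun p q => q.2 = p.2 ∧ nb d q.1 p.1 p.2) (fun p hp => ?_)
      fun q _ => card_le_one.2 fun p hp p' hp' => ?_
    · obtain ⟨p1, s, h1, h2⟩ := mem_filter.1 hp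
      have u := (mem_PL p1).1
      refine h2.le.trans (card_le_card_of_injOn (fun T => (T, p.2)) (fun T hT => ?_)
        fun T _ T' _ e => (Prod.mk.inj e).1)
      obtain ⟨a1, a2⟩ := mem_filter.1 (mem_coe.1 hT)
      obtain ⟨a3, a4⟩ := mem_Ioc.1 a1
      refine mem_coe.2 ((mem_bipartiteAbove _).2 ⟨mem_filter.2 ⟨mem_product.2
        ⟨mem_range.2 (a4.trans_lt u.1), mem_Ioo.2 ⟨a2.1, a2.2.1⟩⟩, a2⟩, rfl, a4, ?_⟩)
      exact fun T' b1 b2 => h1.2 T' (Nat.succ_le_of_lt (a3.trans_le b1)) b2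
    · obtain ⟨p1, p2, p3⟩ := (mem_bipartiteBelow _).1 hp
      obtain ⟨q1, q2, q3⟩ := (mem_bipartiteBelow _).1 hp'
      have e' : p.2 = p'.2 := p2.symm.trans q2
      exact Prod.ext (nb_eq p3 (e' ▸ q3) (mem_PL (mem_filter.1 p1).1).1
        (e' ▸ (mem_PL (mem_filter.1 q1).1).1)) e'
  have b6 : #C6 ≤ #(NP d c) := by
    have aux : ∀ t t' y T u, rise d c t y T u → rise d c t' y T u → ¬ t < t' := by
      rintro t t' y T u ⟨s, l, e, a1, -, a3, a4, -, -, a7, -⟩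
        ⟨s', l', e', c1, c2, -, -, c5, c6, -, -⟩ hlt
      have h1 : t ≤ s' := by
        by_contra hn
        exact c1.2 t (by omega) hlt a3.1
      have h2 : e < l' := by
        by_contra hn
        exact a7 (hSM.1 _ _ _ _ (not_lt.1 hn) c6)
      have h3 := a1.1
      rcases h1.eq_or_lt with h4 | h4
      · subst h4
        have := (hUSE sg d c hd hc _ _ _ c2).1.2.2.1 e a3
        omega
      · exact c5 (t + 1) (by omega) h4 (hSM.1 _ _ _ _ h2.le a3.2.1)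
    refine card_le_card_of_forall_subsingleton (fun p q => rise d c p.1 p.2 q.1 q.2)
      (fun p hp => (mem_filter.1 hp).2) fun q _ p hp p' hp' => ?_
    obtain ⟨p1, p2⟩ := hp
    obtain ⟨-, q2⟩ := hp'
    have u := (mem_PL (mem_filter.1 p1).1).1
    have e' : p.2 = p'.2 := by
      obtain ⟨_, _, _, -, -, -, -, -, -, -, a⟩ := p2
      obtain ⟨_, _, _, -, -, -, -, -, -, -, a'⟩ := q2
      exact low_eq hSTEP hd u.2.1.1 u.2.1.2.1 a a'
    rw [← e'] at q2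
    exact Prod.ext (le_antisymm (not_lt.1 (aux _ _ _ _ _ q2 p2)) (not_lt.1 (aux _ _ _ _ _ p2 q2))) e'
  have hcov : PL d c ⊆ C4 ∪ (C0 ∪ (C1 ∪ (C2 ∪ (C3 ∪ (C6 ∪ BS d c K))))) := by
    rintro ⟨t, y⟩ hp
    obtain ⟨u, e, he⟩ := mem_PL hp
    dsimp only at u he
    simp only [mem_union]
    by_contra hn
    simp only [not_or] at hn
    obtain ⟨n4, n0, n1, n2, n3, n6, n5⟩ := hn
    have hL : d.L < y := u.2.1.1
    have hR : y < d.R := u.2.1.2.1
    have h0 : ∃ s0, s0 < t ∧ up d s0 y := by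
      by_contra h
      exact n0 (mem_filter.2 ⟨hp, Nat.zero_le _, fun T' _ h2 h3 => h ⟨T', h2, h3⟩⟩)
    obtain ⟨s0, h1, h2⟩ := h0
    obtain ⟨s, -, hst, us, hno⟩ := last (fun T => up d T y) s0 t h1 h2
    have hnb : ∀ T, s < T → T ≤ t → nb d T t y := fun T a1 a2 =>
      ⟨a2, fun T' a3 a4 => hno T' (by omega) a4⟩
    have hnb1 := hnb (s + 1) (by omega) hst
    obtain ⟨l, hl⟩ : ∃ l, use d c s y l := by
      by_contra h
      exact n1 (mem_filter.2 ⟨hp, s, mem_NP us h, hnb1⟩)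
    have k2 : ∀ T, s < T → T < t → d.x T ≠ y := fun T a1 a2 a3 =>
      n2 (mem_filter.2 ⟨hp, T, a2.trans u.1, a3, hnb T a1 a2.le⟩)
    have k3 : ∀ T, s < T → T < t → ∀ v, low d T y v → ∃ i, use d c T v i := by
      intro T a1 a2 v a3
      by_contra h
      exact n3 (mem_filter.2 ⟨hp, (T, v), mem_NP a3.1 h, a3, hnb T a1 a2.le⟩)
    have k4 : #((Ioc s t).filter fun T => on d T y) ≤ K := by
      by_contra h
      exact n4 (mem_filter.2 ⟨hp, s, hnb1, not_le.1 h⟩)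
    have hAt : A d e t y := (hUSE sg d c hd hc _ _ _ he).1.2.1
    have hAs : A d l s y := (hUSE sg d c hd hc _ _ _ hl).1.2.1
    have hel : e < l := by
      by_contra h
      have a1 : ¬ A d e (s + 1) y := fun a => a (hSM.1 _ _ _ _ (not_lt.1 h) hl.2.1)
      have a2 : s + 1 < t := lt_of_le_of_ne hst fun a => a1 (a ▸ hAt)
      obtain ⟨T, a3, a4, a5, a6⟩ := last (fun T => ¬ A d e T y) (s + 1) t a2 a1
      have a7 : A d e (T + 1) y := by
        rcases (Nat.succ_le_of_lt a4).eq_or_lt with a | a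
        · exact (show T + 1 = t from a) ▸ hAt
        · exact not_not.1 (a6 (T + 1) (by omega) a)
      rcases ((hGAIN sg d c hd hc T (a4.trans u.1) e y hL hR).2.2.2 a5 a7).2 with a | ⟨v, a, a'⟩
      · exact k2 T a3 a4 a.symm
      · exact a' (k3 T a3 a4 v a)
    have hce : c s e (y / 2 ^ e) := hc.sub s e l y (hc.low _ _ _ he.2.2.2) hel.le hl.2.2.2
    refine n5 (mem_filter.2 ⟨mem_tk u, s, l, e, hst, hno, he, ⟨hl, hel, hce, ?_, ?_⟩, k2, k3, k4⟩)
    · intro t' a1 a2 a3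
      have : t' = t := nb_eq (T := s + 1) ⟨a1, fun T b1 b2 => a3 T b1 b2⟩ hnb1 a2 u
      rw [this]
      exact he.2.1
    · intro T0 a1 _ a3
      by_contra a4
      dsimp only at a3 a4
      have a5 : T0 < s := lt_of_le_of_ne a1 fun a => a4 (a ▸ hAs)
      obtain ⟨T, c1, c2, c3, c4⟩ := last (fun T => ¬ A d l T y) T0 s a5 a4
      have c5 : ∀ T', T < T' → T' ≤ s → A d l T' y := by
        intro T' b1 b2
        rcases b2.eq_or_lt with a | a
        · exact a ▸ hAs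
        · exact not_not.1 (c4 T' b1 a)
      have c6 := ((hEN sg d c hc e y s us.1.le).2.2.2.2.2.2.2 hce).1
      have c7 : ¬ sm e (d.x T) y :=
        (hEN sg d c hc e y T0 (a1.trans us.1.le)).2.1 T c1 (by omega)
      obtain ⟨c8, c9⟩ := (hGAIN sg d c hd hc T (c2.trans us.1) l y hL hR).2.2.2 c3
        (c5 (T + 1) (by omega) c2)
      rcases c9 with a | ⟨v, a, a'⟩
      · exact c7 (by rw [← a]; rfl)
      · exact n6 (mem_filter.2 ⟨hp, (T, v), mem_NP a.1 a', s, l, e, hnb1, hl, he, c2, c5, c8, c7, a⟩)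
  have e0 := card_le_card hcov
  have e1 := card_union_le C4 (C0 ∪ (C1 ∪ (C2 ∪ (C3 ∪ (C6 ∪ BS d c K)))))
  have e2 := card_union_le C0 (C1 ∪ (C2 ∪ (C3 ∪ (C6 ∪ BS d c K))))
  have e3 := card_union_le C1 (C2 ∪ (C3 ∪ (C6 ∪ BS d c K)))
  have e4 := card_union_le C2 (C3 ∪ (C6 ∪ BS d c K))
  have e5 := card_union_le C3 (C6 ∪ BS d c K)
  have e6 := card_union_le C6 (BS d c K)
  have e7 : #(PL d c) ≤ #C4 + ((d.R - d.L).toNat + 2 * d.m + 3 * #(NP d c) + #(BS d c K)) := by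
    omega
  have e8 := Nat.mul_le_mul_left K e7
  rw [mul_add, mul_comm K #C4] at e8
  omega

end Pool.Agent.P.MP_119182_lc.LP
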