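import Pool.Agent.P.MP_119182_lc.LP.Iface

/-! Step MIR: the mirror image of a run with cold cells. -/

set_option autoImplicit false

namespace Pool.Agent.P.MP_119182_lc.LP

open Finset
open scoped Classical
open NU (Run mr)

namespace MIRx

theorem mm (a : ℤ) : mr (mr a) = a := by unfold mr; ring

theorem mlt (a b : ℤ) : mr a < mr b ↔ b < a := by unfold mr; omega

theorem meq (a b : ℤ) : mr a = mr b ↔ a = b := by unfold mr; omega

theorem surj : Function.Surjective mr := fun a => ⟨mr a, mm a⟩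

theorem smc (j : ℕ) (a b : ℤ) : sm j a b ↔ sm j b a := eq_comm

variable (d : Run) (c : ℕ → ℕ → ℤ → Prop)

theorem eL : d.mir.L = mr d.R := rfl
theorem eR : d.mir.R = mr d.L := rfl
theorem em : d.mir.m = d.m := rfl
theorem ex (t : ℕ) : d.mir.x t = mr (d.x t) := rfl
theorem elp (t : ℕ) (y : ℤ) : d.mir.lp t (mr y) = mr (d.rp t y) :=
  congrArg (fun v => mr (d.rp t v)) (mm y)
theorem erp (t : ℕ) (y : ℤ) : d.mir.rp t (mr y) = mr (d.lp t y) :=
  congrArg (fun v => mr (d.lp t v)) (mm y)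

theorem keys (y : ℤ) : mr y ∈ d.mir.keys ↔ y ∈ d.keys := by
  simp only [Run.keys, mem_Ioo, eL, eR, mlt]
  exact and_comm

theorem eon (t : ℕ) (y : ℤ) : on d.mir t (mr y) ↔ on d t y := by
  simp only [on, eL, eR, ex, elp, erp, mlt, ne_eq, meq]
  tauto

theorem eup (t : ℕ) (y : ℤ) : up d.mir t (mr y) ↔ up d t y := by
  simp only [up, em, eon, ex, elp, erp, ne_eq, meq]
  tauto

theorem elow (t : ℕ) (y u : ℤ) : low d.mir t (mr y) (mr u) ↔ low d t y u := by
  simp only [low, eup, ex, elp, erp, mlt, meq]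
  tauto

section

variable (h4 : ∀ (j : ℕ) (a b : ℤ), sm j (mr a) (mr b) ↔ sm j a b)
  (h5 : ∀ (j : ℕ) (a : ℤ), mr a / 2 ^ j = mr (a / 2 ^ j))

include h4 in
theorem eA (j t : ℕ) (y : ℤ) : A d.mir j t (mr y) ↔ A d j t y := by
  simp only [A, elp, erp, h4]
  rw [smc]

include h4 in
theorem een (j : ℕ) (y : ℤ) (t : ℕ) : en d.mir j (mr y) t = en d j y t := by
  simp only [en, em, ex, h4]

include h5 in
theorem emc (t j : ℕ) (y : ℤ) : mc c t j (mr y / 2 ^ j) ↔ c t j (y / 2 ^ j) := by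
  simp only [mc, h5, mm]

include h4 h5 in
theorem euse (t : ℕ) (y : ℤ) (j : ℕ) : use d.mir (mc c) t (mr y) j ↔ use d c t y j := by
  simp only [use, eup, elp, erp, h4, emc c h5, smc _ (d.rp (t + 1) y) (d.lp (t + 1) y)]

include h4 h5 in
theorem ewit (s : ℕ) (y : ℤ) (l e : ℕ) : wit d.mir (mc c) s (mr y) l e ↔ wit d c s y l e := by
  simp only [wit, euse d c h4 h5, eup, elp, erp, h4, emc c h5, een d h4, eA d h4]
  refine and_congr_right fun _ => and_congr_right fun _ => and_congr_right fun _ =>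
    and_congr_left fun _ => forall_congr' fun t => ?_
  rw [smc]

include h4 h5 in
theorem ebs (K s t : ℕ) (y : ℤ) (l e : ℕ) :
    bs d.mir (mc c) K s t (mr y) l e ↔ bs d c K s t y l e := by
  have h1 : ∀ T, (∀ u, low d.mir T (mr y) u → ∃ i, use d.mir (mc c) T u i) ↔
      ∀ u, low d T y u → ∃ i, use d c T u i := by
    intro T
    rw [surj.forall]
    simp only [elow, euse d c h4 h5]
  simp only [bs, h1, euse d c h4 h5, ewit d c h4 h5, eup, eon, ex, ne_eq, meq]

include h4 h5 in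
theorem eLV (j : ℕ) (C : ℤ) (T : ℕ) : (mr C, T) ∈ LV d.mir (mc c) j ↔ (C, T) ∈ LV d c j := by
  simp only [LV, mem_filter, mem_product, mem_image, em]
  refine and_congr (and_congr_left fun _ => ?_) (exists_congr fun t => ?_)
  · rw [surj.exists]
    simp only [keys, h5, meq]
  · rw [surj.exists]
    simp only [mc, mm, h5, meq, een d h4]

include h4 h5 in
theorem ePR (J e : ℕ) (C : ℤ) (l T : ℕ) :
    (mr C, l, T) ∈ PR d.mir (mc c) J e ↔ (C, l, T) ∈ PR d c J e := by
  simp only [PR, mem_filter, mem_product, mem_image, em, Prod.exists, Prod.mk.injEq]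
  refine exists_congr fun s => ?_
  rw [surj.exists]
  simp only [keys, h5, meq, een d h4, ewit d c h4 h5]

include h5 in
theorem cold (sg : ℕ) (h : Cold sg d c) : Cold sg d.mir (mc c) := by
  refine ⟨fun t j C hc => ?_, fun t j C hc => h.low t j _ hc, fun t j j' v h1 h2 hc => ?_,
    fun t j C hc h1 h2 => ?_⟩
  · obtain ⟨a, b⟩ := h.out t j _ hc
    refine ⟨a, fun e => b ?_⟩
    rw [ex, h5] at e
    rw [← e, mm]
  · obtain ⟨v, rfl⟩ := surj v
    rw [emc c h5] at hc ⊢
    exact h.sub t j j' v h1 h2 hc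
  · refine h.stay t j _ hc h1 fun e => h2 ?_
    rw [ex, h5, e, mm]

end

end MIRx

theorem p_MIR (hSM : S_SM) (hUSE : S_USE) (hEMIR : NU.S_EMIR) : S_MIR := by
  intro sg K J d c hd hc
  obtain ⟨-, -, -, h4, h5, -⟩ := hSM
  refine ⟨MIRx.cold d c h5 sg hc, fun j => ?_, fun e => ?_, ?_⟩
  · refine card_nbij' (fun p => (mr p.1, p.2)) (fun p => (mr p.1, p.2)) ?_ ?_ ?_ ?_
    · rintro ⟨C, T⟩ hp
      refine mem_coe.2 ((MIRx.eLV d c h4 h5 j _ _).1 ?_)
      rw [MIRx.mm]
      exact mem_coe.1 hp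
    · rintro ⟨C, T⟩ hp
      exact mem_coe.2 ((MIRx.eLV d c h4 h5 j _ _).2 (mem_coe.1 hp))
    · rintro ⟨C, T⟩ -
      simp only [MIRx.mm]
    · rintro ⟨C, T⟩ -
      simp only [MIRx.mm]
  · refine card_nbij' (fun p => (mr p.1, p.2)) (fun p => (mr p.1, p.2)) ?_ ?_ ?_ ?_
    · rintro ⟨C, l, T⟩ hp
      refine mem_coe.2 ((MIRx.ePR d c h4 h5 J e _ _ _).1 ?_)
      rw [MIRx.mm]
      exact mem_coe.1 hp
    · rintro ⟨C, l, T⟩ hp
      exact mem_coe.2 ((MIRx.ePR d c h4 h5 J e _ _ _).2 (mem_coe.1 hp))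
    · rintro ⟨C, T⟩ -
      simp only [MIRx.mm]
    · rintro ⟨C, T⟩ -
      simp only [MIRx.mm]
  · have hsub : BS d c K ⊆ (BR d c K fun _ _ _ _ _ => True) ∪
        (BR d.mir (mc c) K fun _ _ _ _ _ => True).image fun p => (p.1, mr p.2) := by
      rintro ⟨t, y⟩ hp
      simp only [BS, mem_filter, mem_product] at hp
      obtain ⟨⟨ht, hy⟩, s, l, e, hb⟩ := hp
      have hu : use d c s y l := hb.2.2.2.1.1
      rw [mem_union]
      by_cases hs : sm (l - 1) (d.lp (s + 1) y) y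
      · right
        rw [mem_image]
        refine ⟨(t, mr y), ?_, by simp only [MIRx.mm]⟩
        simp only [BR, mem_filter, mem_product]
        refine ⟨⟨ht, (MIRx.keys d y).2 hy⟩, s, l, e, (MIRx.ebs d c h4 h5 K s t y l e).2 hb,
          ⟨(MIRx.euse d c h4 h5 s y l).2 hu, ?_⟩, trivial⟩
        rw [MIRx.elp, h4, MIRx.smc]
        exact (hUSE sg d c hd hc s y l hu).2.2.2.1 hs
      · left
        simp only [BR, mem_filter, mem_product]
        exact ⟨⟨ht, hy⟩, s, l, e, hb, ⟨hu, hs⟩, trivial⟩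
    exact (card_le_card hsub).trans ((card_union_le _ _).trans
      (Nat.add_le_add_left card_image_le _))

end Pool.Agent.P.MP_119182_lc.LP
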