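import Pool.Agent.P.MP_119182_lc.LP.Iface

/-! Step CASE. -/

set_option autoImplicit false

namespace Pool.Agent.P.MP_119182_lc.LP

open Finset
open scoped Classical
open NU (Run mr)

namespace CASEx

/-- A property that holds at `b` and fails at `n ≥ b` is lost in some step. -/
lemma lose (P : ℕ → Prop) (b n : ℕ) (hbn : b ≤ n) (hb : P b) (hn : ¬ P n) :
    ∃ r, b ≤ r ∧ r < n ∧ P r ∧ ¬ P (r + 1) := by
  induction n, hbn using Nat.le_induction with
  | base => exact absurd hb hn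
  | succ n hbn ih =>
    by_cases h : P n
    · exact ⟨n, hbn, Nat.lt_succ_self n, h, hn⟩
    · obtain ⟨r, h1, h2, h3⟩ := ih h
      exact ⟨r, h1, Nat.lt_succ_of_lt h2, h3⟩

end CASEx

theorem p_CASE (hSM : S_SM) (hEN : S_EN) (hGAIN : S_GAIN) (hUSE : S_USE) (hMARK : S_MARK)
    (hTWO : S_TWO) : S_CASE := by
  intro sg d c hd hc e s y l s' y' l' b hw hw' hyy hee hp hp' hll hbs hcb hb
  obtain ⟨-, h2, -⟩ := hTWO sg d c hd hc e s y l s' y' l' hw hw' hyy hee hp hp'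
  obtain ⟨hlt, -⟩ := h2 hll
  obtain ⟨hu, hel, hcs, -, hlast⟩ := hw
  obtain ⟨hu', hel', hcs', -, hlast'⟩ := hw'
  have hsm : s < d.m := hu.1.1
  have hsm' : s' < d.m := hu'.1.1
  have hbm : b ≤ d.m := hbs.trans hsm.le
  have hsg : sg < e := hc.low _ _ _ hcs
  have hL : d.L < y' := hu'.1.2.1.1
  have hR : y' < d.R := hu'.1.2.1.2.1
  have hye : y' / 2 ^ e = y / 2 ^ e := hyy.symm
  have hyl : y' / 2 ^ l = y / 2 ^ l := (hSM.1 e l y y' hel.le hyy).symm
  have hcbe : c b e (y / 2 ^ e) := hc.sub b e l y hsg hel.le hcb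
  obtain ⟨⟨-, hβm⟩, -, -, -, -, -, -, hls⟩ := hEN sg d c hc l y s hsm.le
  have hsβ : s < en d l y s := (hls hu.2.2.2).1
  obtain ⟨-, -, -, hlb4, -, -, -, hlb8⟩ := hEN sg d c hc l y b hbm
  obtain ⟨-, -, -, heb4, -, heb6, -, heb8⟩ := hEN sg d c hc e y b hbm
  have hle : en d l y s ≤ en d e y b := hb ▸ heb6 l hel.le
  have hebs : en d e y s = en d e y b := heb4 s hbs (hsβ.le.trans hle)
  have hlt2 : en d l y s < en d e y b := by
    have := (hEN sg d c hc e y' s' hsm'.le).2.2.2.2.2.1 l' hel'.le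
    omega
  have hen' : ∀ T, b ≤ T → T ≤ en d l y s → en d e y' T = en d e y s := fun T h1 h2 => by
    rw [(hEN sg d c hc e y T (h2.trans hβm)).2.2.2.2.2.2.1 y' hyy, heb4 T h1 (h2.trans hle), hebs]
  have hA' : ∀ T, b ≤ T → T ≤ en d l y s → A d (l' - 1) T y' := fun T h1 h2 => by
    rcases le_or_gt T s' with h3 | h3
    · have h4 : A d l' T y' := hlast' T h3
        (hye ▸ (heb8 hcbe).2 T h1 (h2.trans_lt hlt2)) ((hen' T h1 h2).trans hee)
      exact fun h5 => h4 (hSM.1 _ _ _ _ (Nat.sub_le _ _) h5)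
    · exact ((hUSE sg d c hd hc s' y' l' hu').2.1 T h3 (h2.trans hlt.le)).2 _ (by omega)
  have hbβ : b ≤ en d l y s := hbs.trans hsβ.le
  by_cases hA : A d l b y'
  · right
    have hn : ¬ A d l (en d l y s) y' := hp y' (mem_Ioo.2 ⟨hL, hR⟩) hye
    obtain ⟨r, h1, h2, h3, h4⟩ := CASEx.lose (fun T => A d l T y') b _ hbβ hA hn
    have hcr : c r l (y' / 2 ^ l) := hyl ▸ (hlb8 hcb).2 r h1 (hb ▸ h2)
    obtain ⟨g, g1, g2, g3⟩ := (hGAIN sg d c hd hc r (h2.trans_le hβm) l y' hL hR).2.2.1 hcr h3 h4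
      (l' - 1) (by omega) (hA' (r + 1) (by omega) h2)
    refine ⟨r, g, h1, h2, by omega, g2, g3, hen' r h1 h2.le, fun hg => ⟨?_, ?_⟩⟩
    · obtain ⟨-, -, -, -, -, k6, k7, -⟩ := hEN sg d c hc g y r (h2.le.trans hβm)
      rw [k7 y' (hSM.1 e g y y' (by omega) hyy)]
      have h5 := hlb4 r h1 (hb ▸ h2.le)
      have h6 := k6 l g2
      omega
    · exact ((hUSE sg d c hd hc s y l hu).2.1 _ hsβ le_rfl).2 g hg
  · exact Or.inl ⟨hlast b hbs hcbe hebs.symm, hA' b le_rfl hbβ, hA⟩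

end Pool.Agent.P.MP_119182_lc.LP
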