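import Pool.Agent.P.MP_119182_lc.LP.Iface

/-! The end of the life of a cell. -/

set_option autoImplicit false

namespace Pool.Agent.P.MP_119182_lc.LP

open Finset
open scoped Classical
open NU (Run mr)

namespace ENx

theorem mem (d : Run) (j : ℕ) (y : ℤ) (t : ℕ) (ht : t ≤ d.m) :
    t ≤ en d j y t ∧ (d.m ≤ en d j y t ∨ sm j (d.x (en d j y t)) y) := by
  have h : ({T | t ≤ T ∧ (d.m ≤ T ∨ sm j (d.x T) y)} : Set ℕ).Nonempty :=
    ⟨d.m, ht, Or.inl le_rfl⟩
  exact Nat.sInf_mem h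

theorem le (d : Run) (j : ℕ) (y : ℤ) (t T : ℕ) (h1 : t ≤ T)
    (h2 : d.m ≤ T ∨ sm j (d.x T) y) : en d j y t ≤ T :=
  Nat.sInf_le (s := {T | t ≤ T ∧ (d.m ≤ T ∨ sm j (d.x T) y)}) ⟨h1, h2⟩

end ENx

theorem p_EN (hSM : S_SM) : S_EN := by
  intro sg d c hc j y t ht
  obtain ⟨h1, h2⟩ := ENx.mem d j y t ht
  have h3 : en d j y t ≤ d.m := ENx.le d j y t d.m ht (Or.inl le_rfl)
  have h4 : ∀ T, t ≤ T → T < en d j y t → ¬ sm j (d.x T) y := by
    intro T hT hT' h
    have := ENx.le d j y t T hT (Or.inr h)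
    omega
  have h5 : ∀ T, t ≤ T → T ≤ d.m → en d j y t ≤ en d j y T := by
    intro T hT hT'
    obtain ⟨a, b⟩ := ENx.mem d j y T hT'
    exact ENx.le d j y t _ (hT.trans a) b
  refine ⟨⟨h1, h3⟩, h4, ?_, ?_, h5, ?_, ?_, ?_⟩
  · rcases h2 with h | h
    · exact Or.inl (le_antisymm h3 h)
    · exact Or.inr h
  · intro T hT hT'
    exact le_antisymm (ENx.le d j y T _ hT' h2) (h5 T hT (hT'.trans h3))
  · intro j' hj
    refine ENx.le d j' y t _ h1 ?_
    rcases h2 with h | h
    · exact Or.inl h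
    · exact Or.inr (hSM.1 j j' _ _ hj h)
  · intro y' hy
    have hs : ∀ a : ℤ, sm j a y' ↔ sm j a y := by
      intro a
      unfold sm at hy ⊢
      rw [hy]
    unfold en
    simp only [hs]
  · intro h
    obtain ⟨o1, o2⟩ := hc.out t j _ h
    refine ⟨?_, ?_⟩
    · rcases h1.lt_or_eq with h' | h'
      · exact h'
      · rw [← h'] at h2
        rcases h2 with h2 | h2
        · omega
        · exact absurd h2 o2
    · intro T hT
      induction T, hT using Nat.le_induction with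
      | base => intro _; exact h
      | succ T hT ih =>
        intro hT'
        exact hc.stay T j _ (ih (by omega)) (by omega) (h4 (T + 1) (by omega) hT')

end Pool.Agent.P.MP_119182_lc.LP
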