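import Pool.Agent.P.MP_119182_lc.LP.Iface

/-! Step FRZ. -/

set_option autoImplicit false

namespace Pool.Agent.P.MP_119182_lc.LP

open Finset
open scoped Classical
open NU (Run mr)

namespace FRZx

theorem nest {L R : ℤ} {lp rp : ℤ → ℤ} (h : NU.Tree L R lp rp) {a b : ℤ} (a1 : L < a) (b2 : b < R)
    (hab : a < b) (h1 : lp b < rp a) : (lp a < b ∧ b < rp a) ∨ (lp b < a ∧ a < rp b) := by
  have ha := h.bnd a a1 (by omega)
  have hb := h.bnd b (by omega) b2
  by_cases h2 : b < rp a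
  · exact Or.inl ⟨by omega, h2⟩
  · refine Or.inr ⟨?_, by omega⟩
    have h3 := h.ancR a a1 (by omega) (by omega)
    by_cases h4 : rp a = b
    · rw [h4] at h3
      omega
    · have h5 := (h.lamL b (rp a) (by omega) b2 h1 (by omega)).1
      omega

theorem frz (d : Run) (h : d.OK) (t T : ℕ) (y : ℤ) (h1 : t ≤ T) (h2 : T ≤ d.m) (y1 : d.L < y)
    (y2 : y < d.R) (h3 : ∀ T', t ≤ T' → T' < T → ¬ (d.lp t y < d.x T' ∧ d.x T' < d.rp t y)) :
    d.lp T y = d.lp t y ∧ d.rp T y = d.rp t y := by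
  induction T, h1 using Nat.le_induction with
  | base => exact ⟨rfl, rfl⟩
  | succ T h1 ih =>
    obtain ⟨e1, e2⟩ := ih (by omega) fun T' a b => h3 T' a (by omega)
    have h4 := h3 T h1 (by omega)
    have h5 := (h.tree t (by omega)).bnd y y1 y2
    have h6 := (h.step T (by omega)).off y y1 y2 (fun e => h4 (by omega)) (by rwa [e1, e2])
    exact ⟨h6.1.trans e1, h6.2.trans e2⟩

theorem now (d : Run) (h : d.OK) (s : ℕ) (y z : ℤ) (hu : up d s y) (z1 : d.lp (s + 1) y < z)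
    (z2 : z < d.rp (s + 1) y) (hz : on d s z) : z = y := by
  obtain ⟨sm', ⟨y1, y2, y3, y4, y5⟩, u1, u2⟩ := hu
  obtain ⟨-, -, -, z4, z5⟩ := hz
  have ht := h.tree s sm'.le
  have hs := h.step s sm'
  have hx := hs.mem
  by_contra hne
  rcases lt_or_gt_of_ne y3 with hy | hy
  · obtain ⟨a1, a2, -, a4, a5, -⟩ := hs.losL y y1 hy y5 u2
    rcases lt_or_gt_of_ne hne with hz | hz
    · have := (ht.lamL y z y1 y2 (by omega) hz).2
      omega
    · have := (ht.lamL (d.rp (s + 1) y) z (by omega) (by omega) (by omega) z2).2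
      omega
  · obtain ⟨a1, a2, -, a4, a5, -⟩ := hs.losR y hy y2 y4 u1
    rcases lt_or_gt_of_ne hne with hz | hz
    · have := (ht.lamR (d.lp (s + 1) y) z (by omega) (by omega) z1 (by omega)).1
      omega
    · have := (ht.lamR y z y1 y2 hz (by omega)).1
      omega

end FRZx

theorem p_FRZ (hSTEP : S_STEP) : S_FRZ := by
  intro d h
  refine ⟨fun t ht a b a1 a2 b1 b2 hne h1 h2 => ?_,
    fun t T y h1 h2 y1 y2 h3 => FRZx.frz d h t T y h1 h2 y1 y2 h3, fun s y hu => ?_⟩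
  · rcases lt_or_gt_of_ne hne with hab | hab
    · exact FRZx.nest (h.tree t ht) a1 b2 hab h2
    · exact (FRZx.nest (h.tree t ht) b1 a2 hab h1).symm
  · have hm : d.m ∈ {T | s < T ∧ (d.m ≤ T ∨
        (d.lp (s + 1) y < d.x T ∧ d.x T < d.rp (s + 1) y))} := ⟨hu.1, Or.inl le_rfl⟩
    have r1 : rho d s y ∈ {T | s < T ∧ (d.m ≤ T ∨
        (d.lp (s + 1) y < d.x T ∧ d.x T < d.rp (s + 1) y))} := Nat.sInf_mem ⟨_, hm⟩
    have r2 : rho d s y ≤ d.m := Nat.sInf_le hm
    have r3 : ∀ T, s < T → T < rho d s y →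
        ¬ (d.lp (s + 1) y < d.x T ∧ d.x T < d.rp (s + 1) y) := fun T a b e =>
      Nat.notMem_of_lt_sInf b ⟨a, Or.inr e⟩
    have y1 := hu.2.1.1
    have y2 := hu.2.1.2.1
    have r4 : ∀ T, s < T → T ≤ rho d s y →
        d.lp T y = d.lp (s + 1) y ∧ d.rp T y = d.rp (s + 1) y := fun T a b =>
      FRZx.frz d h (s + 1) T y a (b.trans r2) y1 y2 fun T' a' b' => r3 T' a' (by omega)
    refine ⟨⟨r1.1, r2⟩, r3, fun e => r1.2.resolve_left (by omega), r4, fun T z a b z1 z2 hz => ?_⟩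
    rcases a.eq_or_lt with a | a
    · subst a
      exact ⟨rfl, FRZx.now d h _ y z hu z1 z2 hz⟩
    · exfalso
      obtain ⟨e1, e2⟩ := r4 T a b.le
      have ht := h.tree T (by omega)
      have hy := ht.bnd y y1 y2
      obtain ⟨-, -, -, z4, z5⟩ := hz
      refine r3 T a b ?_
      rcases lt_trichotomy z y with hz | hz | hz
      · have := ht.lamL y z y1 y2 (by omega) hz
        omega
      · subst hz
        omega
      · have := ht.lamR y z y1 y2 hz (by omega)
        omega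

end Pool.Agent.P.MP_119182_lc.LP
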