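import Pool.Agent.P.MP_119182_lc.LP.Iface

/-! Step GAIN. -/

set_option autoImplicit false

namespace Pool.Agent.P.MP_119182_lc.LP

open Finset
open scoped Classical
open NU (Run mr)

theorem p_GAIN (hSM : S_SM) (hLINK : S_LINK) (hSTEP : S_STEP) : S_GAIN := by
  intro sg d c ok cold t ht j y hL hR
  obtain ⟨mono, btw, -⟩ := hSM
  obtain ⟨-, a1, a2, -⟩ := (ok.tree t ht.le).bnd y hL hR
  obtain ⟨-, b1, b2, -⟩ := (ok.tree (t + 1) ht).bnd y hL hR
  have st := hSTEP d ok t ht y hL hR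
  have ne : ¬ sm j (d.x t) y → y ≠ d.x t := fun h e => h (by rw [← e]; rfl)
  have p1 : ¬ sm j (d.x t) y → on d t y → A d j t y := fun h o s =>
    h ((btw j _ _ _ s o.2.2.2.1.le o.2.2.2.2.le).1.symm.trans (btw j _ _ _ s a1.le a2.le).1)
  have off : y ≠ d.x t → ¬ on d t y → (A d j (t + 1) y ↔ A d j t y) := fun h o => by
    rw [A, A, ((st h).1 o).1, ((st h).1 o).2]
  have p2 : ¬ sm j (d.x t) y → A d j (t + 1) y → A d j t y := fun h a => by
    by_cases o : on d t y
    exacts [p1 h o, (off (ne h) o).1 a]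
  refine ⟨p1, p2, fun hc a na k hk ak => ?_, fun na a => ?_⟩
  · have hx : ¬ sm j (d.x t) y := (cold.out _ _ _ hc).2
    have s : sm j (d.lp (t + 1) y) (d.rp (t + 1) y) := not_not.1 na
    have o : on d t y := by_contra fun o => na ((off (ne hx) o).2 a)
    have s' := btw j _ _ _ s b1.le b2.le
    have ex : ∃ i, sm i (d.lp (t + 1) y) (d.rp (t + 1) y) := ⟨j, s⟩
    have h1 : k < Nat.find ex := lt_of_not_ge fun h => ak (mono _ _ _ _ h (Nat.find_spec ex))
    have h2 : Nat.find ex ≤ j := Nat.find_min' ex s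
    exact ⟨_, h1, h2, ⟨ht, o, fun e => hx (e ▸ s'.1), fun e => hx (e ▸ s'.2.symm)⟩,
      Nat.find_spec ex, fun i hi => Nat.find_min ex hi, cold.sub t _ j y (hk.trans_lt h1) h2 hc⟩
  have hx : sm j (d.x t) y := by_contra fun h => na (p2 h a)
  refine ⟨hx, or_iff_not_imp_left.2 fun h => ?_⟩
  have s : sm j (d.lp t y) (d.rp t y) := not_not.1 na
  have s' := btw j _ _ _ s a1.le a2.le
  have o : on d t y := by_contra fun o => na ((off h o).1 a)
  have nu : ¬ up d t y := fun u => by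
    obtain ⟨-, l2, l3, l4, -⟩ := hLINK d ok t y u
    have o1 := o.2.2.2.1
    have o2 := o.2.2.2.2
    refine a ?_
    rcases lt_or_gt_of_ne h with h' | h'
    · rw [(l4 h').2.1]
      exact (btw j _ _ _ s (by omega) (by omega)).1
    · rw [(l3 h').2.1]
      exact (btw j _ _ _ s (by omega) (by omega)).2
  rcases lt_or_gt_of_ne h with h' | h'
  · obtain ⟨e, e' | ⟨lw, e'⟩⟩ := (st h).2.2.1 o nu h'
    · exact (a (by rw [e, e']; exact s'.1.trans hx.symm)).elim
    refine ⟨_, lw, fun ⟨i, u, q, _, hc⟩ => ?_⟩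
    rcases le_total j i with hi | hi
    · exact (cold.out _ _ _ hc).2 (mono j i _ _ hi (hx.trans s'.1.symm))
    · rw [((hLINK d ok t _ u).2.2.2.1 (a1.trans h')).2.1, ← e',
        (lw.2.resolve_left fun k => k.1.not_gt h').2] at q
      exact a (by rw [e]; exact (mono i j _ _ hi q).trans hx.symm)
  · obtain ⟨e, e' | ⟨lw, e'⟩⟩ := (st h).2.1 o nu h'
    · exact (a (by rw [e, e']; exact hx.trans s'.2)).elim
    refine ⟨_, lw, fun ⟨i, u, q, _, hc⟩ => ?_⟩
    rcases le_total j i with hi | hi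
    · exact (cold.out _ _ _ hc).2 (mono j i _ _ hi (hx.trans s'.2))
    · rw [((hLINK d ok t _ u).2.2.1 (h'.trans a2)).2.1, ← e',
        (lw.2.resolve_right fun k => k.1.not_gt h').2] at q
      exact a (by rw [e]; exact hx.trans (mono i j _ _ hi q))

end Pool.Agent.P.MP_119182_lc.LP
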