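import Pool.Agent.P.MP_119182_lc.LP.Iface

/-! Step INS. -/

set_option autoImplicit false

namespace Pool.Agent.P.MP_119182_lc.LP

open Finset
open scoped Classical
open NU (Run mr)

theorem p_INS (hSM : S_SM) (hEN : S_EN) (hLINK : S_LINK) (hFRZ : S_FRZ) (hUSE : S_USE)
    (hMARCH : S_MARCH) (hSYNC : S_SYNC) : S_INS := by
  intro sg K J d c hd hc hJ
  have _ := hEN
  have _ := hMARCH
  set Y := BR d c K fun s t y l e => lso d s t y l e ∧ d.x t < y ∧ ¬ crs d s t y l e ∧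
    ¬ useR d c t y e ∧ ins d c s t y l e with hY
  have h0 : ∀ p ∈ Y, ∃ s l e, bs d c K s p.1 p.2 l e ∧ useR d c s p.2 l ∧
      lso d s p.1 p.2 l e ∧ d.x p.1 < p.2 ∧ ¬ crs d s p.1 p.2 l e ∧ ¬ useR d c p.1 p.2 e ∧
        ins d c s p.1 p.2 l e := fun p hp => (mem_filter.1 hp).2
  choose! s l e hb hu hl hx hn hr hi using h0
  refine card_le_mul_card_image_of_maps_to (f := fun p =>
    (l p, p.2 / 2 ^ l p, en d (l p) p.2 (s p), rho d (s p) p.2)) (fun p hp => ?_) K fun β _ => ?_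
  · obtain ⟨h1, h2⟩ := mem_product.1 (mem_filter.1 hp).1
    have h3 := (hu p hp).1.1
    have h4 := (hLINK d hd _ _ h3).1
    have h5 : rho d (s p) p.2 ≤ p.1 := not_lt.1 fun h =>
      (((hFRZ d hd).2.2 _ _ h3).2.2.2.2 p.1 p.2 (hb p hp).1.le h h4.1 h4.2
        (hb p hp).2.2.1.1.2.1).1.not_gt (hb p hp).1
    exact mem_image.2 ⟨(s p, p.2, l p), mem_filter.2 ⟨mem_product.2 ⟨mem_range.2 h3.1,
      mem_product.2 ⟨h2, mem_range.2 ((hUSE sg d c hd hc _ _ _ (hu p hp).1).1.2.2.2.2 J hJ)⟩⟩,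
        hu p hp, h5.trans_lt (mem_range.1 h1)⟩, rfl⟩
  set F := Y.filter fun p =>
    (l p, p.2 / 2 ^ l p, en d (l p) p.2 (s p), rho d (s p) p.2) = β with hF
  have key : ∀ p ∈ F, ∀ q ∈ F, l q = l p ∧ same d c (s p) p.2 (s q) q.2 (l p) ∧
      rho d (s p) p.2 = rho d (s q) q.2 := fun p hp q hq => by
    obtain ⟨h1, h2⟩ := mem_filter.1 hp
    obtain ⟨h3, h4⟩ := mem_filter.1 hq
    have h5 := h2.trans h4.symm
    simp only [Prod.mk.injEq] at h5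
    obtain ⟨e1, e2, e3, e4⟩ := h5
    have h6 := hu q h3
    rw [← e1] at h6 e2 e3
    exact ⟨e1.symm, ⟨hu p h1, h6, e2, e3⟩, e4⟩
  have half : ∀ p ∈ F, ∀ q ∈ F, sm (e p - 1) p.2 q.2 := fun p hp q hq =>
    hi p (mem_filter.1 hp).1 _ _ (key p hp q hq).2.1 (key p hp q hq).2.2.symm
  have lt : ∀ p ∈ F, ∀ q ∈ F, p.1 = q.1 → ¬ p.2 < q.2 := fun p hp q hq e1 h => by
    have u1 := (hb p (mem_filter.1 hp).1).2.2.1
    have u2 := (hb q (mem_filter.1 hq).1).2.2.1.1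
    rw [← e1] at u2
    obtain ⟨h1, -, -, -, -, -, h2⟩ := hLINK d hd _ _ u1.1
    refine (hUSE sg d c hd hc _ _ _ u1).2.2.2.1
      (by_contra fun h3 => hr p (mem_filter.1 hp).1 ⟨u1, h3⟩) ?_
    exact (hSM.2.1 _ _ _ _ (half p hp q hq) h1.2.le
      ((h2 _ u2 h).trans (hLINK d hd _ _ u2).1.1.le)).1
  rcases F.eq_empty_or_nonempty with h | h
  · simp [h]
  obtain ⟨q, hq, hm⟩ := exists_max_image F Prod.fst h
  have q1 := (mem_filter.1 hq).1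
  refine (card_le_card_of_injOn Prod.fst (fun p hp => ?_) fun p hp p' hp' e1 =>
    Prod.ext e1 (le_antisymm (not_lt.1 (lt p' hp' p hp e1.symm))
      (not_lt.1 (lt p hp p' hp' e1)))).trans (hb q q1).2.2.2.2.2.2
  have p1 := (mem_filter.1 (mem_coe.1 hp)).1
  rcases (hm p hp).eq_or_lt with h1 | h1
  · rw [h1]
    exact mem_coe.2 (mem_filter.2 ⟨mem_Ioc.2 ⟨(hb q q1).1, le_rfl⟩, (hb q q1).2.2.1.1.2.1⟩)
  · obtain ⟨e1, h2, h3⟩ := key p hp q hq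
    obtain ⟨h4, h5⟩ := hSYNC sg K d c hd hc (s p) p.1 p.2 (l p) (e p) (s q) q.1 q.2 (e q)
      ⟨hb p p1, hu p p1, hl p p1, hn p p1⟩ (e1 ▸ ⟨hb q q1, hu q q1, hl q q1, hn q q1⟩) (hx p p1)
      h2 h3 (hSM.1 _ _ _ _ (Nat.sub_le _ 1) (half p hp q hq))
      (Eq.symm (hSM.1 _ _ _ _ (Nat.sub_le _ 1) (half q hq p hp))) h1
    exact mem_coe.2 (mem_filter.2 ⟨mem_Ioc.2 ⟨h4, h1.le⟩, h5⟩)

end Pool.Agent.P.MP_119182_lc.LP
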