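import Pool.Agent.P.MP_119182_lc.LP.Iface

/-! Step LINK: the shape of one link. -/

set_option autoImplicit false

namespace Pool.Agent.P.MP_119182_lc.LP

open Finset
open scoped Classical
open NU (Run mr)

theorem p_LINK : S_LINK := by
  intro d hd t y hu
  obtain ⟨ht, ⟨hL, hR, hne, hlx, hxr⟩, hl, hr⟩ := hu
  have T := hd.tree t ht.le
  have T' := hd.tree (t + 1) ht
  have St := hd.step t ht
  obtain ⟨xL, xR⟩ := St.mem
  obtain ⟨b1, b2, b3, b4⟩ := T.bnd y hL hR
  obtain ⟨c1, c2, c3, c4⟩ := T'.bnd y hL hR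
  refine ⟨⟨c2, c3⟩, ?_, fun h => ?_, fun h => ?_, fun z h1 h2 => ?_, fun z h1 h2 => ?_,
    fun y' hu' hy => ?_⟩
  · rcases lt_or_gt_of_ne hne with h | h
    · exact Or.inr (St.losL y hL h hxr hr).1
    · exact Or.inl (St.losR y h hR hlx hl).1
  · obtain ⟨a1, a2, a3, a4, a5, a6⟩ := St.losR y h hR hlx hl
    have e1 := T'.ancL y hL hR (by omega)
    have e2 := (St.lowR (d.lp (t + 1) y) a1 (by omega) a3 (by omega)).2.2
    refine ⟨⟨by omega, by omega, by omega, a3, by omega⟩, a5, a4, a6, by rw [e2, a4], ?_⟩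
    rcases b4.eq_or_lt with h4 | h4
    · exact Or.inl h4
    · have e3 := T.ancR y hL hR h4
      have e4 := T.bnd (d.rp t y) (by omega) h4
      exact Or.inr ⟨by omega, h4, by omega, by omega, by omega⟩
  · obtain ⟨a1, a2, a3, a4, a5, a6⟩ := St.losL y hL h hxr hr
    have e1 := T'.ancR y hL hR (by omega)
    have e2 := (St.lowL (d.rp (t + 1) y) (by omega) a1 a3 (by omega)).2.2
    refine ⟨⟨by omega, by omega, by omega, by omega, a3⟩, a5, a4, a6, by rw [e2, a4], ?_⟩
    rcases b1.eq_or_lt with h4 | h4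
    · exact Or.inl h4.symm
    · have e3 := T.ancL y hL hR h4
      have e4 := T.bnd (d.lp t y) h4 (by omega)
      exact Or.inr ⟨h4, by omega, by omega, by omega, by omega⟩
  · rcases lt_or_gt_of_ne hne with h | h
    · obtain ⟨a1, a2, a3, a4, a5, a6⟩ := St.losL y hL h hxr hr
      have e := T.lamL y z hL hR (by omega) h2
      omega
    · obtain ⟨a1, a2, a3, a4, a5, a6⟩ := St.losR y h hR hlx hl
      have e := T.lamR (d.lp (t + 1) y) z (by omega) (by omega) h1 (by omega)
      omega
  · rcases lt_or_gt_of_ne hne with h | h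
    · obtain ⟨a1, a2, a3, a4, a5, a6⟩ := St.losL y hL h hxr hr
      have e := T.lamL (d.rp (t + 1) y) z (by omega) (by omega) (by omega) h2
      omega
    · obtain ⟨a1, a2, a3, a4, a5, a6⟩ := St.losR y h hR hlx hl
      have e := T.lamR y z hL hR h1 (by omega)
      omega
  · obtain ⟨-, ⟨hL', hR', hne', hlx', hxr'⟩, hl', hr'⟩ := hu'
    rcases lt_or_gt_of_ne hne with h | h <;> rcases lt_or_gt_of_ne hne' with h' | h'
    · obtain ⟨a1, a2, a3, a4, a5, a6⟩ := St.losL y hL h hxr hr
      obtain ⟨-, -, -, -, a5', -⟩ := St.losL y' hL' h' hxr' hr'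
      rcases lt_trichotomy y' (d.rp (t + 1) y) with k | k | k
      · have e := T.lamL (d.rp (t + 1) y) y' (by omega) (by omega) (by omega) k
        omega
      · exact absurd (k ▸ a6) hr'
      · have e := T.lamR (d.rp (t + 1) y) y' (by omega) (by omega) k (by omega)
        omega
    · have a1 := (St.losL y hL h hxr hr).1
      have a2 := (St.losR y' h' hR' hlx' hl').1
      omega
    · omega
    · obtain ⟨-, -, -, -, a5', -⟩ := St.losR y h hR hlx hl
      obtain ⟨a1, a2, a3, a4, a5, a6⟩ := St.losR y' h' hR' hlx' hl'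
      rcases lt_trichotomy (d.lp (t + 1) y') y with k | k | k
      · have e := T.lamR (d.lp (t + 1) y') y (by omega) (by omega) k (by omega)
        omega
      · exact absurd (k ▸ a6) hl
      · have e := T.lamL (d.lp (t + 1) y') y (by omega) (by omega) (by omega) k
        omega

end Pool.Agent.P.MP_119182_lc.LP
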