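import Pool.Agent.P.MP_119182_lc.LP.Iface

/-! The bound for the links in cold cells from its steps. -/

set_option autoImplicit false

namespace Pool.Agent.P.MP_119182_lc.LP

open Finset
open scoped Classical
open NU (Run mr)

namespace LPx

lemma cover (hTYP : S_TYP) {sg K : ℕ} {d : Run} {c : ℕ → ℕ → ℤ → Prop} (h : d.OK)
    (hc : Cold sg d c) :
    #(BR d c K fun _ _ _ _ _ => True) ≤ #(BR d c K (top0 d)) + #(BR d c K (top1 d c)) +
      #(BR d c K (crs d)) +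
      #(BR d c K fun s t y l e => lso d s t y l e ∧ d.x t < y ∧ useR d c t y e) +
      #(BR d c K fun s t y l e => lso d s t y l e ∧ d.x t < y ∧ ¬ crs d s t y l e ∧
        ¬ useR d c t y e ∧ ¬ ins d c s t y l e) +
      #(BR d c K fun s t y l e => lso d s t y l e ∧ d.x t < y ∧ ¬ crs d s t y l e ∧
        ¬ useR d c t y e ∧ ins d c s t y l e) := by
  refine le_trans (card_le_card (t := BR d c K (top0 d) ∪ BR d c K (top1 d c) ∪
    BR d c K (crs d) ∪
    (BR d c K fun s t y l e => lso d s t y l e ∧ d.x t < y ∧ useR d c t y e) ∪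
    (BR d c K fun s t y l e => lso d s t y l e ∧ d.x t < y ∧ ¬ crs d s t y l e ∧
        ¬ useR d c t y e ∧ ¬ ins d c s t y l e) ∪
    (BR d c K fun s t y l e => lso d s t y l e ∧ d.x t < y ∧ ¬ crs d s t y l e ∧
        ¬ useR d c t y e ∧ ins d c s t y l e)) ?_) ?_
  · intro p hp
    obtain ⟨hm, s, l, e, h1, h2, -⟩ := mem_filter.1 hp
    have key : ∀ φ : ℕ → ℕ → ℤ → ℕ → ℕ → Prop, φ s p.1 p.2 l e → p ∈ BR d c K φ :=
      fun φ h3 => mem_filter.2 ⟨hm, s, l, e, h1, h2, h3⟩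
    simp only [mem_union]
    rcases hTYP sg K d c h hc s p.1 p.2 l e h1 h2 with h3 | h3 | ⟨h3, h4⟩
    · exact Or.inl (Or.inl (Or.inl (Or.inl (Or.inl (key _ h3)))))
    · exact Or.inl (Or.inl (Or.inl (Or.inl (Or.inr (key _ h3)))))
    · by_cases h5 : crs d s p.1 p.2 l e
      · exact Or.inl (Or.inl (Or.inl (Or.inr (key _ h5))))
      by_cases h6 : useR d c p.1 p.2 e
      · exact Or.inl (Or.inl (Or.inr (key _ ⟨h3, h4, h6⟩)))
      by_cases h7 : ins d c s p.1 p.2 l e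
      · exact Or.inr (key _ ⟨h3, h4, h5, h6, h7⟩)
      · exact Or.inl (Or.inr (key _ ⟨h3, h4, h5, h6, h7⟩))
  · refine (card_union_le _ _).trans (Nat.add_le_add_right ?_ _)
    refine (card_union_le _ _).trans (Nat.add_le_add_right ?_ _)
    refine (card_union_le _ _).trans (Nat.add_le_add_right ?_ _)
    refine (card_union_le _ _).trans (Nat.add_le_add_right ?_ _)
    exact card_union_le _ _

lemma side (hTYP : S_TYP) (hTOP : S_TOP) (hONE : S_ONE) (hSTR : S_STR) (hINS : S_INS)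
    (hRB : S_RB) {sg K J : ℕ} {d : Run} {c : ℕ → ℕ → ℤ → Prop} (h : d.OK) (hc : Cold sg d c)
    (hJ : sm J d.L d.R) :
    #(BR d c K fun _ _ _ _ _ => True) ≤ (1 + 3 * K) * ∑ e ∈ range J, #(PR d c J e) +
      ∑ j ∈ range J, #(LV d c j) + (1 + K) * (d.m + 2 * ∑ j ∈ range J, #(LV d c j)) := by
  have h0 := cover (K := K) hTYP h hc
  obtain ⟨h1, h2, h3⟩ := hTOP sg K J d c h hc hJ
  have h4 := hONE sg K J d c h hc hJ
  have h5 := hSTR sg K J d c h hc hJ
  have h6 := hINS sg K J d c h hc hJ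
  have h7 := Nat.mul_le_mul_left (1 + K) (hRB sg J d c h hc hJ)
  generalize ∑ e ∈ range J, #(PR d c J e) = R at *
  generalize ∑ j ∈ range J, #(LV d c j) = V at *
  generalize #(BL d c J) = B at *
  have e1 : (1 + 3 * K) * R = R + K * R + 2 * K * R := by ring
  have e2 : (1 + K) * B = B + K * B := by ring
  omega

lemma pr_zero {sg J e : ℕ} {d : Run} {c : ℕ → ℕ → ℤ → Prop} (hc : Cold sg d c) (he : e ≤ sg) :
    #(PR d c J e) = 0 := by
  rw [card_eq_zero, PR, image_eq_empty, filter_eq_empty_iff]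
  intro p _ hw
  exact absurd (hc.low _ _ _ hw.2.2.1) (not_lt.2 he)

lemma lv_le {sg j : ℕ} {d : Run} {c : ℕ → ℕ → ℤ → Prop} (hc : Cold sg d c) :
    #(LV d c j) ≤ (j - sg) ^ 4 * #(LV d c j) := by
  rcases le_or_gt j sg with he | he
  · have : #(LV d c j) = 0 := by
      rw [card_eq_zero, LV, filter_eq_empty_iff]
      rintro p _ ⟨t, v, h1, -⟩
      exact absurd (hc.low _ _ _ h1) (not_lt.2 he)
    rw [this]
    exact Nat.zero_le _
  · exact Nat.le_mul_of_pos_left _ (pow_pos (Nat.sub_pos_of_lt he) 4)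

lemma pairs (hFRONT : S_FRONT) (hREC : S_REC) (hSUM : S_SUM) {sg κ J : ℕ} {d : Run}
    {c : ℕ → ℕ → ℤ → Prop} (h : d.OK) (hc : Cold sg d c) (hκ : 1 ≤ κ) :
    κ * ∑ e ∈ range J, #(PR d c J e) ≤
      4 * #(PL d c) + 24 * κ ^ 2 * ∑ e ∈ range J, (e - sg) ^ 4 * #(LV d c e) := by
  refine hSUM sg J κ _ (fun e => #(PR d c J e)) (fun e => #(LV d c e)) hκ
    (fun e he => pr_zero hc he) fun e he _ => ?_
  have hk : 1 ≤ e - sg := Nat.sub_pos_of_lt he
  have hk2 : e - sg ≤ (e - sg) ^ 2 := Nat.le_self_pow two_ne_zero _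
  have h1 := hREC sg J e (κ * (e - sg) ^ 3) (sg + 8 * (e - sg) ^ 2) d c h hc (by omega)
  have h2 := Nat.mul_le_mul_left (κ * (e - sg) ^ 3) (hFRONT sg J e d c h hc)
  have h3 := card_filter_add_card_filter_not (s := PR d c J e) fun q => pass d e q
  have h4 : sg + 8 * (e - sg) ^ 2 - e + κ * (e - sg) ^ 3 + 1 ≤
      8 * (e - sg) ^ 2 + κ * (e - sg) ^ 3 + 1 := by omega
  have h5 := Nat.mul_le_mul_right #(LV d c e) (Nat.mul_le_mul_left (κ * (e - sg) ^ 3) h4)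
  rw [← h3, mul_add, mul_add, ← mul_assoc _ _ #(LV d c e)]
  omega

lemma fin {K P O N m Q R V B S : ℕ} (hK : 1 ≤ K) (h1 : K * P ≤ O + K * (N + 2 * m + 3 * Q + S))
    (h2 : S ≤ 2 * ((1 + 3 * K) * R + V + (1 + K) * (m + 2 * V))) (h3 : V ≤ B)
    (h4 : 64 * K * R ≤ 4 * P + 24 * (64 * K) ^ 2 * B) :
    K * P ≤ 2 * O + 25000 * K ^ 3 * (N + m + Q + B) := by
  have a1 : R ≤ K * R := Nat.le_mul_of_pos_left _ hK
  have a2 : m ≤ K * m := Nat.le_mul_of_pos_left _ hK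
  have a3 : B ≤ K * B := Nat.le_mul_of_pos_left _ hK
  have a4 : K * V ≤ K * B := Nat.mul_le_mul_left _ h3
  have a5 : S ≤ 8 * (K * R) + 4 * (K * m) + 10 * (K * B) := by
    have e : 2 * ((1 + 3 * K) * R + V + (1 + K) * (m + 2 * V)) =
        2 * R + 6 * (K * R) + 6 * V + 2 * m + 2 * (K * m) + 4 * (K * V) := by ring
    omega
  have hK2 : 1 ≤ K ^ 2 := Nat.one_le_pow _ _ hK
  have hK3 : K ≤ K ^ 2 := Nat.le_self_pow two_ne_zero _
  have b1 : N ≤ K ^ 2 * N := Nat.le_mul_of_pos_left _ hK2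
  have b2 : Q ≤ K ^ 2 * Q := Nat.le_mul_of_pos_left _ hK2
  have b3 : K * m ≤ K ^ 2 * m := Nat.mul_le_mul_right _ hK3
  have b4 : K * B ≤ K ^ 2 * B := Nat.mul_le_mul_right _ hK3
  have a6 : 2 * (N + 2 * m + 3 * Q + S) ≤ P + 25000 * (K ^ 2 * (N + m + Q + B)) := by
    have e1 : 64 * K * R = 64 * (K * R) := by ring
    have e2 : 24 * (64 * K) ^ 2 * B = 98304 * (K ^ 2 * B) := by ring
    have e3 : K ^ 2 * (N + m + Q + B) = K ^ 2 * N + K ^ 2 * m + K ^ 2 * Q + K ^ 2 * B := by ring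
    omega
  have a7 := Nat.mul_le_mul_left K a6
  have e4 : K * (2 * (N + 2 * m + 3 * Q + S)) = 2 * (K * (N + 2 * m + 3 * Q + S)) := by ring
  have e5 : K * (P + 25000 * (K ^ 2 * (N + m + Q + B))) =
      K * P + 25000 * K ^ 3 * (N + m + Q + B) := by ring
  omega

end LPx

theorem p_LP (hEMIR : NU.S_EMIR) (hCUT : S_CUT) (hMIR : S_MIR) (hTYP : S_TYP) (hTOP : S_TOP)
    (hONE : S_ONE) (hSTR : S_STR) (hINS : S_INS) (hRB : S_RB) (hFRONT : S_FRONT) (hREC : S_REC)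
    (hSUM : S_SUM) (hSM : S_SM) : S_LP := by
  refine ⟨25000, fun sg K J d c h hc hJ hK => ?_⟩
  obtain ⟨m1, m2, m3, m4⟩ := hMIR sg K J d c h hc
  have hJ' : sm J d.mir.L d.mir.R := (hSM.2.2.2.1 J d.R d.L).2 hJ.symm
  have s1 := LPx.side (K := K) hTYP hTOP hONE hSTR hINS hRB h hc hJ
  have s2 := LPx.side (K := K) hTYP hTOP hONE hSTR hINS hRB ((hEMIR d).2 h) m1 hJ'
  simp only [m2, m3] at s2
  rw [show d.mir.m = d.m from rfl] at s2
  refine LPx.fin hK (hCUT sg K d c h hc) (m4.trans ((Nat.add_le_add s1 s2).trans_eq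
    (two_mul _).symm)) (sum_le_sum fun j _ => LPx.lv_le hc)
    (LPx.pairs hFRONT hREC hSUM h hc (by omega))

end Pool.Agent.P.MP_119182_lc.LP
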