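import Pool.Agent.P.MP_119182_lc.LP.Iface

/-! Step MARCH: uses in one life of one cell move to the right. -/

set_option autoImplicit false

namespace Pool.Agent.P.MP_119182_lc.LP

open Finset
open scoped Classical
open NU (Run mr)

namespace MARCHx

lemma half {j : ℕ} {p y p' y' : ℤ} (h1 : p < y) (h2 : p' < y') (h3 : sm (j + 1) p y)
    (h4 : sm (j + 1) p' y') (h5 : sm (j + 1) y y') (h6 : ¬ sm j p y) (h7 : ¬ sm j p' y') :
    p' < y ∧ p < y' := by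
  have hk : (0 : ℤ) < 2 ^ j := by positivity
  have e : ∀ a : ℤ, a / 2 ^ (j + 1) = a / 2 ^ j / 2 := fun a => by
    rw [pow_succ, Int.ediv_ediv_of_nonneg hk.le]
  have mo : ∀ a b : ℤ, a ≤ b → a / 2 ^ j ≤ b / 2 ^ j := fun a b h => Int.ediv_le_ediv hk h
  simp only [sm, e] at h3 h4 h5 h6 h7
  have a1 := mo _ _ h1.le
  have a2 := mo _ _ h2.le
  refine ⟨not_le.1 fun h => ?_, not_le.1 fun h => ?_⟩
  · have := mo _ _ h
    omega
  · have := mo _ _ h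
    omega

end MARCHx

theorem p_MARCH (hSM : S_SM) (hEN : S_EN) (hLINK : S_LINK) (hFRZ : S_FRZ) (hGAIN : S_GAIN)
    (hUSE : S_USE) : S_MARCH := by
  intro sg d c hd hc s y s' y' l ⟨⟨u, ur⟩, ⟨u', ur'⟩, hyy, hen⟩
  obtain ⟨⟨hl, -, -, er, -⟩, -, U3, -⟩ := hUSE sg d c hd hc s y l u
  obtain ⟨⟨-, hA', -, -, -⟩, -, -, -⟩ := hUSE sg d c hd hc s' y' l u'
  obtain ⟨⟨b1, b2⟩, -, -, -, -, -, L7⟩ := hLINK d hd s y u.1
  obtain ⟨⟨b1', b2'⟩, -, LR', LL', -, -, L7'⟩ := hLINK d hd s' y' u'.1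
  have m1 := (hSM.2.1 l _ _ y u.2.1 b1.le b2.le).1
  have m1' := (hSM.2.1 l _ _ y' u'.2.1 b1'.le b2'.le).1
  obtain ⟨j, rfl⟩ : ∃ j, l = j + 1 := ⟨l - 1, by omega⟩
  rw [Nat.add_sub_cancel] at ur ur'
  obtain ⟨k1, k2⟩ := MARCHx.half b1 b1' m1 m1' hyy ur ur'
  refine ⟨fun e => ?_, fun hs => ?_⟩
  · subst e
    rcases lt_trichotomy y y' with h | h | h
    · have := L7 y' u'.1 h
      omega
    · exact h
    · have := L7' y u.1 h
      omega
  have hm' : s' < d.m := u'.1.1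
  have hm : s < d.m := u.1.1
  have e1 : s' < en d (j + 1) y s := by
    rw [hen]
    exact ((hEN sg d c hc (j + 1) y' s' hm'.le).2.2.2.2.2.2.2 u'.2.2.2).1
  have hno : ∀ z, d.lp (s + 1) y < z → z < d.rp (s + 1) y → ¬ A d (j + 1) s' z :=
    fun z z1 z2 z3 => absurd (U3 s' z hs.le e1.le z1 z2 z3).1 hs.ne'
  have w1 : d.rp (s + 1) y ≤ y' := not_lt.1 fun h => hno y' k2 h hA'
  have hx : ¬ sm (j + 1) (d.x s') (d.lp (s' + 1) y') := fun h =>
    (hc.out _ _ _ u'.2.2.2).2 (Eq.trans h m1')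
  have w2 : d.lp (s' + 1) y' ≤ d.lp (s + 1) y := by
    refine not_lt.1 fun h => ?_
    have key : on d s' (d.lp (s' + 1) y') → False := fun o =>
      hno _ h (k1.trans b2) ((hGAIN sg d c hd hc s' hm' (j + 1) _ o.1 o.2.1).1 hx o)
    rcases lt_or_gt_of_ne u'.1.2.1.2.2.1 with g | g
    · obtain ⟨-, g1, -, -, -, g2⟩ := LL' g
      rw [← g1] at g2
      rcases g2 with g2 | g2
      · have := ((hd.tree (s + 1) hm).bnd y u.1.2.1.1 u.1.2.1.2.1).1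
        omega
      · exact key g2
    · exact key (LR' g).1
  refine ⟨by omega, w1, w2, Nat.sInf_le ⟨by omega, ?_⟩⟩
  obtain ⟨⟨-, r1⟩, -, r2, -⟩ := (hFRZ d hd).2.2 s y u.1
  rcases r1.eq_or_lt with r | r
  · exact Or.inl r.ge
  · have := r2 r
    exact Or.inr ⟨by omega, by omega⟩

end Pool.Agent.P.MP_119182_lc.LP
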