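import Pool.Agent.P.MP_119182_lc.LP.Iface

/-! Step MARK. -/

set_option autoImplicit false

namespace Pool.Agent.P.MP_119182_lc.LP

open Finset
open scoped Classical
open NU (Run mr)

namespace MARKx

lemma mono (k : ℕ) {a b : ℤ} (h : a ≤ b) : a / 2 ^ k ≤ b / 2 ^ k :=
  Int.ediv_le_ediv (by positivity) h

lemma half (k : ℕ) (a : ℤ) : a / 2 ^ (k + 1) = a / 2 ^ k / 2 := by
  rw [pow_succ, Int.ediv_ediv_of_nonneg (by positivity)]

/-- A key with a parent outside the cell is not between the parents of a key with both parents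
inside. -/
lemma outside {d : Run} (hd : d.OK) {l T : ℕ} (hT : T ≤ d.m) {v z : ℤ} (hv : v ∈ d.keys)
    (hz : z ∈ d.keys) (h1 : ¬ A d l T v) (h2 : A d l T z) :
    z ≤ d.lp T v ∨ d.rp T v ≤ z := by
  have tr := hd.tree T hT
  obtain ⟨v1, v2⟩ := mem_Ioo.1 hv
  obtain ⟨z1, z2⟩ := mem_Ioo.1 hz
  by_contra hc
  push Not at hc
  obtain ⟨c1, c2⟩ := hc
  have h3 : d.lp T v / 2 ^ l = d.rp T v / 2 ^ l := not_not.1 h1
  obtain ⟨-, b1, b2, -⟩ := tr.bnd v v1 v2
  obtain ⟨-, b3, b4, -⟩ := tr.bnd z z1 z2
  have key : d.lp T v ≤ d.lp T z ∧ d.rp T z ≤ d.rp T v := by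
    rcases lt_trichotomy z v with h | h | h
    · obtain ⟨a1, a2⟩ := tr.lamL v z v1 v2 c1 h
      exact ⟨a1, by omega⟩
    · rw [h]
      exact ⟨le_rfl, le_rfl⟩
    · obtain ⟨a1, a2⟩ := tr.lamR v z v1 v2 h c2
      exact ⟨by omega, a2⟩
  have m1 := mono l key.1
  have m2 := mono l key.2
  have m3 := mono l (b3.trans b4).le
  exact h2 (show d.lp T z / 2 ^ l = d.rp T z / 2 ^ l by omega)

end MARKx

open MARKx

theorem p_MARK (hSM : S_SM) (hEN : S_EN) (hUSE : S_USE) : S_MARK := by
  intro sg d c hd hc
  refine ⟨fun e g T r r' v w v' w' hu hu' hvv heg hr hT hr' hT' hw hw' h1 h1' ha ha' hiff => ?_,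
    fun e g l T v w v' w' hT heg hgl hv hw hv' hw' hvv h1 h1' ha hn hb ha' hn' hb' hiff => ?_⟩
  · obtain ⟨k, rfl⟩ : ∃ k, g = k + 1 := ⟨g - 1, by omega⟩
    obtain ⟨-, -, u3, -⟩ := hUSE sg d c hd hc r v _ hu
    obtain ⟨-, -, u3', -⟩ := hUSE sg d c hd hc r' v' _ hu'
    obtain ⟨⟨t1, ⟨o1, o2, -⟩, -⟩, s1, s2, -⟩ := hu
    obtain ⟨⟨t1', ⟨o1', o2', -⟩, -⟩, s1', s2', -⟩ := hu'
    obtain ⟨-, b1, b2, -⟩ := (hd.tree (r + 1) t1).bnd v o1 o2
    obtain ⟨-, b1', b2', -⟩ := (hd.tree (r' + 1) t1').bnd v' o1' o2'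
    have n1 : ∀ z, A d (k + 1) T z → z ≤ d.lp (r + 1) v ∨ d.rp (r + 1) v ≤ z := fun z hz => by
      by_contra hh
      push Not at hh
      have := (u3 T z hr.le hT hh.1 hh.2 hz).1
      omega
    have n2 : ∀ z, A d (k + 1) T z → z ≤ d.lp (r' + 1) v' ∨ d.rp (r' + 1) v' ≤ z := fun z hz => by
      by_contra hh
      push Not at hh
      have := (u3' T z hr'.le hT' hh.1 hh.2 hz).1
      omega
    have e1 : v / 2 ^ k = w / 2 ^ k := hSM.1 e k v w (by omega) h1
    have e2 : v' / 2 ^ k = w' / 2 ^ k := hSM.1 e k v' w' (by omega) h1'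
    have e3 : d.lp (r + 1) v / 2 ^ k ≠ d.rp (r + 1) v / 2 ^ k := s2 k (by omega)
    have e4 : d.lp (r' + 1) v' / 2 ^ k ≠ d.rp (r' + 1) v' / 2 ^ k := s2' k (by omega)
    unfold sm at s1 s1' hvv h1 h1' ⊢
    rw [half, half] at s1 s1' hvv
    have m1 := mono k b1.le
    have m2 := mono k b2.le
    have m3 := mono k b1'.le
    have m4 := mono k b2'.le
    by_cases hvw : v < w
    · have hvw' := hiff.1 hvw
      have a1 : d.rp (r + 1) v ≤ w := by have := n1 w ha; omega
      have a2 : d.rp (r' + 1) v' ≤ w' := by have := n2 w' ha'; omega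
      have m5 := mono k a1
      have m6 := mono k a2
      have a3 : v ≤ w' := by
        rcases n1 w' ha' with h | h
        · have := mono k h
          omega
        · omega
      have a4 : v' ≤ w := by
        rcases n2 w ha with h | h
        · have := mono k h
          omega
        · omega
      have := mono e a3
      have := mono e a4
      omega
    · have hvw' : ¬ v' < w' := fun h => hvw (hiff.2 h)
      have a1 : w ≤ d.lp (r + 1) v := by have := n1 w ha; omega
      have a2 : w' ≤ d.lp (r' + 1) v' := by have := n2 w' ha'; omega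
      have m5 := mono k a1
      have m6 := mono k a2
      have a3 : w' ≤ v := by
        rcases n1 w' ha' with h | h
        · omega
        · have := mono k h
          omega
      have a4 : w ≤ v' := by
        rcases n2 w ha with h | h
        · omega
        · have := mono k h
          omega
      have := mono e a3
      have := mono e a4
      omega
  · have tr := hd.tree T hT
    obtain ⟨-, b1, b2, -⟩ := tr.bnd v (mem_Ioo.1 hv).1 (mem_Ioo.1 hv).2
    obtain ⟨-, b1', b2', -⟩ := tr.bnd v' (mem_Ioo.1 hv').1 (mem_Ioo.1 hv').2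
    have n1 := outside hd hT hv hw hn hb
    have n2 := outside hd hT hv hw' hn hb'
    have n3 := outside hd hT hv' hw hn' hb
    have n4 := outside hd hT hv' hw' hn' hb'
    have e1 : v / 2 ^ g = w / 2 ^ g := hSM.1 e g v w heg h1
    have e2 : v' / 2 ^ g = w' / 2 ^ g := hSM.1 e g v' w' heg h1'
    have e3 : d.lp T v / 2 ^ g ≠ d.rp T v / 2 ^ g := ha
    have e4 : d.lp T v' / 2 ^ g ≠ d.rp T v' / 2 ^ g := ha'
    unfold sm at hvv h1 h1' ⊢
    have m1 := mono g b1.le
    have m2 := mono g b2.le
    have m3 := mono g b1'.le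
    have m4 := mono g b2'.le
    by_cases hvw : v < w
    · have hvw' := hiff.1 hvw
      have m5 := mono g (show d.rp T v ≤ w by omega)
      have m6 := mono g (show d.rp T v' ≤ w' by omega)
      have a3 : v ≤ w' := by
        rcases n2 with h | h
        · have := mono g h
          omega
        · omega
      have a4 : v' ≤ w := by
        rcases n3 with h | h
        · have := mono g h
          omega
        · omega
      have := mono e a3
      have := mono e a4
      omega
    · have hvw' : ¬ v' < w' := fun h => hvw (hiff.2 h)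
      have m5 := mono g (show w ≤ d.lp T v by omega)
      have m6 := mono g (show w' ≤ d.lp T v' by omega)
      have a3 : w' ≤ v := by
        rcases n2 with h | h
        · omega
        · have := mono g h
          omega
      have a4 : w ≤ v' := by
        rcases n3 with h | h
        · omega
        · have := mono g h
          omega
      have := mono e a3
      have := mono e a4
      omega

end Pool.Agent.P.MP_119182_lc.LP
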