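import Pool.Agent.P.MP_119182_lc.LP.Iface

/-! Step ONE. -/

set_option autoImplicit false

namespace Pool.Agent.P.MP_119182_lc.LP

open Finset
open scoped Classical
open NU (Run mr)

namespace ONEx

theorem key (hSM : S_SM) (hEN : S_EN) (hLINK : S_LINK) (hFRZ : S_FRZ) (hUSE : S_USE)
    {sg K : ℕ} {d : Run} {c : ℕ → ℕ → ℤ → Prop} (hd : d.OK) (hc : Cold sg d c)
    {s t s' t' l e : ℕ} {y y' : ℤ} (b : bs d c K s t y l e) (u : useR d c s y l)
    (hx : d.x t < y) (r : useR d c t y e) (u' : useR d c s' y' l) (o' : lso d s' t' y' l e)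
    (r' : useR d c t' y' e) (h1 : sm e y y') (h2 : en d l y s = en d l y' s') (ht : t < t') :
    s' < t ∧ on d t y' := by
  obtain ⟨-, S2, S3, -⟩ := hSM
  have a1 : s' < en d l y' s' := ((hEN sg d c hc l y' s' u'.1.1.1.le).2.2.2.2.2.2.2 u'.1.2.2.2).1
  have a2 := (hUSE sg d c hd hc s y l u.1).1.2.2.2.1
  have a3 : rho d s y ≤ t := by
    by_contra k
    have := (((hFRZ d hd).2.2 s y u.1.1).2.2.2.2 t y b.1.le (not_le.1 k)
      (hLINK d hd s y u.1.1).1.1 (hLINK d hd s y u.1.1).1.2 r.1.1.2.1).1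
    exact absurd b.1 (by omega)
  have a4 : s' < t := by omega
  refine ⟨a4, ?_⟩
  obtain ⟨o1, o2⟩ := o' t a4 ht.le
  have tm := r.1.1.1
  have T := hd.tree t tm.le
  obtain ⟨k1, k2, -⟩ := r'.1.1.2.1
  obtain ⟨-, b2, b3, -⟩ := T.bnd y' k1 k2
  obtain ⟨l1, l2⟩ := (hLINK d hd t y r.1.1).1
  obtain ⟨m1, m2⟩ := (hLINK d hd t' y' r'.1.1).1
  rcases lt_trichotomy y y' with h | h | h
  · have a5 : d.lp t y' < y := by
      by_contra k
      exact o1 (S2 e y y' _ h1 (not_lt.1 k) b2.le).2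
    have a6 := (T.lamL y' y k1 k2 a5 h).1
    have a7 := r.1.1.2.1.2.2.2.1
    exact ⟨k1, k2, by omega, by omega, by omega⟩
  · exact h ▸ r.1.1.2.1
  · exfalso
    have e1 := (hUSE sg d c hd hc t y e r.1).1.1
    obtain ⟨j, rfl⟩ : ∃ j, e = j + 1 := ⟨e - 1, by omega⟩
    have a5 : d.lp (t + 1) y < y' := by
      by_contra k
      have q1 : sm (j + 1) (d.lp (t' + 1) y') y :=
        (S2 _ _ _ y' r'.1.2.1 m1.le m2.le).1.trans h1.symm
      rcases S3 j _ _ y' q1 m1.le h.le with q | q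
      · exact r'.2 q
      · exact r.2 (S2 j _ _ _ q (not_lt.1 k) l1.le).2
    have := ((hUSE sg d c hd hc t y _ r.1).2.2.1 t y' le_rfl
      (hEN sg d c hc _ y t tm.le).1.1 a5 (by omega) fun q => o1 (S2 _ _ _ y' q b2.le b3.le).1).2
    omega

end ONEx

theorem p_ONE (hSM : S_SM) (hEN : S_EN) (hLINK : S_LINK) (hFRZ : S_FRZ) (hGAIN : S_GAIN)
    (hUSE : S_USE) (hMARCH : S_MARCH) (hTYP : S_TYP) : S_ONE := by
  intro sg K J d c hd hc hJ
  have H : ∀ p ∈ BR d c K fun s t y l e => lso d s t y l e ∧ d.x t < y ∧ useR d c t y e,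
      ∃ s l e, p.2 ∈ d.keys ∧ bs d c K s p.1 p.2 l e ∧ useR d c s p.2 l ∧ lso d s p.1 p.2 l e ∧
        d.x p.1 < p.2 ∧ useR d c p.1 p.2 e := fun p hp => by
    obtain ⟨h1, s, l, e, h2⟩ := mem_filter.1 hp
    exact ⟨s, l, e, (mem_product.1 h1).2, h2⟩
  choose! s l e H using H
  rw [← card_sigma]
  refine card_le_mul_card_image_of_maps_to
    (f := fun p => (⟨e p, p.2 / 2 ^ e p, l p, en d (l p) p.2 (s p)⟩ : Σ _ : ℕ, ℤ × ℕ × ℕ))
    (fun p hp => ?_) K fun q _ => ?_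
  · obtain ⟨h1, h2, h3, -, -, h4⟩ := H p hp
    refine mem_sigma.2 ⟨mem_range.2 ((hUSE sg d c hd hc _ _ _ h4.1).1.2.2.2.2 J hJ),
      mem_image.2 ⟨(s p, p.2, l p), mem_filter.2 ⟨mem_product.2 ⟨mem_range.2 h3.1.1.1,
        mem_product.2 ⟨h1, mem_range.2 ((hUSE sg d c hd hc _ _ _ h3.1).1.2.2.2.2 J hJ)⟩⟩,
          h2.2.2.2.1⟩, rfl⟩⟩
  · set F := (BR d c K fun s t y l e => lso d s t y l e ∧ d.x t < y ∧ useR d c t y e).filter
      fun p => (⟨e p, p.2 / 2 ^ e p, l p, en d (l p) p.2 (s p)⟩ : Σ _ : ℕ, ℤ × ℕ × ℕ) = q with hF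
    have G : ∀ p ∈ F, ∀ p' ∈ F, e p' = e p ∧ l p' = l p ∧ sm (e p) p.2 p'.2 ∧
        en d (l p) p.2 (s p) = en d (l p) p'.2 (s p') := fun p hp p' hp' => by
      have := (mem_filter.1 hp).2.trans (mem_filter.1 hp').2.symm
      simp only [Sigma.mk.injEq, heq_eq_eq, Prod.mk.injEq] at this
      obtain ⟨a, b, f, g⟩ := this
      exact ⟨a.symm, f.symm, by rw [← a] at b; exact b, by rw [← f] at g; exact g⟩
    have I : ∀ p ∈ F, ∀ p' ∈ F, p.1 = p'.1 → p = p' := fun p hp p' hp' k => by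
      obtain ⟨g1, -, g3, -⟩ := G p hp p' hp'
      have r := (H p (mem_filter.1 hp).1).2.2.2.2.2
      have r' := (H p' (mem_filter.1 hp').1).2.2.2.2.2
      rw [g1, ← k] at r'
      exact Prod.ext k ((hMARCH sg d c hd hc _ _ _ _ _ ⟨r, r', g3,
        ((hEN sg d c hc _ p.2 p.1 r.1.1.1.le).2.2.2.2.2.2.1 _ g3).symm⟩).1 rfl)
    rcases F.eq_empty_or_nonempty with h | h
    · rw [h]; exact Nat.zero_le _
    obtain ⟨p', hp', hm⟩ := exists_max_image F Prod.fst h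
    obtain ⟨-, b', u', o', -, r'⟩ := H p' (mem_filter.1 hp').1
    refine le_trans (card_le_card_of_injOn Prod.fst (fun p hp => ?_)
      fun p hp p' hp' => I p hp p' hp') b'.2.2.2.2.2.2
    have hp : p ∈ F := hp
    rcases (hm p hp).lt_or_eq with k | k
    · obtain ⟨g1, g2, g3, g4⟩ := G p hp p' hp'
      obtain ⟨-, b, u, -, hx, r⟩ := H p (mem_filter.1 hp).1
      rw [g2] at u'
      rw [g1, g2] at o'
      rw [g1] at r'
      obtain ⟨a1, a2⟩ := ONEx.key hSM hEN hLINK hFRZ hUSE hd hc b u hx r u' o' r' g3 g4 k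
      exact mem_coe.2 (mem_filter.2 ⟨mem_Ioc.2 ⟨a1, k.le⟩, a2⟩)
    · rw [I p hp p' hp' k]
      exact mem_coe.2 (mem_filter.2 ⟨mem_Ioc.2 ⟨b'.1, le_rfl⟩, r'.1.1.2.1⟩)

end Pool.Agent.P.MP_119182_lc.LP
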