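import Pool.Agent.P.MP_119182_lc.LP.Iface

/-! The number of blocks. -/

set_option autoImplicit false

namespace Pool.Agent.P.MP_119182_lc.LP

open Finset
open scoped Classical
open NU (Run mr)

namespace RBx

/-- A later use with the same first access that belongs to another life. -/
def nx (d : Run) (c : ℕ → ℕ → ℤ → Prop) (s : ℕ) (y : ℤ) (l t : ℕ) (z : ℤ) (k : ℕ) : Prop :=
  useR d c t z k ∧ rho d t z = rho d s y ∧ s < t ∧
    ¬ (k = l ∧ z / 2 ^ k = y / 2 ^ l ∧ en d k z t = en d l y s)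

/-- Two frozen intervals that meet are nested, and the later one is the outer one. -/
theorem nest (hLINK : S_LINK) (hFRZ : S_FRZ) {d : Run} (hd : d.OK) {s s' T : ℕ} {y y' : ℤ}
    (hu : up d s y) (hu' : up d s' y') (hss : s ≤ s') (h1 : s' < T) (h2 : T ≤ rho d s y)
    (h3 : T ≤ rho d s' y') (o1 : d.lp (s + 1) y < d.rp (s' + 1) y')
    (o2 : d.lp (s' + 1) y' < d.rp (s + 1) y) :
    (s = s' ∧ y = y') ∨ (s < s' ∧ d.lp (s' + 1) y' ≤ d.lp (s + 1) y ∧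
      d.rp (s + 1) y ≤ d.rp (s' + 1) y') := by
  obtain ⟨f1, -, f3⟩ := hFRZ d hd
  obtain ⟨⟨-, r1⟩, -, -, a4, a5⟩ := f3 s y hu
  obtain ⟨-, -, -, b4, b5⟩ := f3 s' y' hu'
  obtain ⟨⟨l1, l2⟩, -⟩ := hLINK d hd s y hu
  obtain ⟨⟨l1', l2'⟩, -⟩ := hLINK d hd s' y' hu'
  obtain ⟨e1, e2⟩ := a4 T (by omega) h2
  obtain ⟨e1', e2'⟩ := b4 T h1 h3
  by_cases hy : y = y'
  · subst hy
    exact Or.inl ⟨(a5 s' y hss (by omega) l1 l2 hu'.2.1).1.symm, rfl⟩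
  have hT : T ≤ d.m := by omega
  obtain ⟨yL, yR, -⟩ := hu.2.1
  obtain ⟨yL', yR', -⟩ := hu'.2.1
  rcases f1 T hT y y' yL yR yL' yR' hy (by omega) (by omega) with ⟨g1, g2⟩ | ⟨g1, g2⟩
  · exact absurd (a5 s' y' hss (by omega) (by omega) (by omega) hu'.2.1).2.symm hy
  · right
    have hlt : s < s' := by
      rcases hss.lt_or_eq with h | h
      · exact h
      · exact absurd (b5 s y h.ge (by omega) (by omega) (by omega) hu.2.1).2 hy
    refine ⟨hlt, ?_⟩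
    rcases lt_or_gt_of_ne hy with h | h
    · have := (hd.tree T hT).lamL y' y yL' yR' g1 h
      omega
    · have := (hd.tree T hT).lamR y' y yL' yR' h g2
      omega

/-- The level of a use is at most the level of any cell over its interval. -/
theorem lev (hSM : S_SM) (hLINK : S_LINK) {d : Run} (hd : d.OK) {c : ℕ → ℕ → ℤ → Prop}
    {s l k : ℕ} {y a b : ℤ} (hu : use d c s y l) (h : sm k a b) (ha : a ≤ d.lp (s + 1) y)
    (hb : d.rp (s + 1) y ≤ b) : l ≤ k := by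
  obtain ⟨⟨l1, l2⟩, -⟩ := hLINK d hd s y hu.1
  by_contra hk
  have h1 := (hSM.2.1 k a b _ h ha (by omega)).2
  exact hu.2.2.1 k (by omega) (hSM.2.1 k _ b _ h1 (by omega) hb).1

/-- Two intervals across the middle of one cell meet. -/
theorem mid (hSM : S_SM) {j : ℕ} {a b a' b' : ℤ} (h : sm (j + 1) a' b) (hn : ¬ sm j a b)
    (hn' : ¬ sm j a' b') (hab : a < b) (hab' : a' < b') : a < b' := by
  by_contra hc
  rcases hSM.2.2.1 j a' b b' h hab'.le (by omega) with g | g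
  · exact hn' g
  · exact hn (hSM.2.1 j b' b a g (by omega) hab.le).2

/-- The upper node lies in the cell of its use. -/
theorem cell (hSM : S_SM) (hLINK : S_LINK) {d : Run} (hd : d.OK) {c : ℕ → ℕ → ℤ → Prop}
    {s l : ℕ} {y z : ℤ} (hu : use d c s y l) (ha : d.lp (s + 1) y ≤ z)
    (hb : z ≤ d.rp (s + 1) y) : z / 2 ^ l = y / 2 ^ l := by
  obtain ⟨⟨l1, l2⟩, -⟩ := hLINK d hd s y hu.1
  have h1 : sm l _ z := (hSM.2.1 l _ _ z hu.2.1 ha hb).1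
  have h2 : sm l _ y := (hSM.2.1 l _ _ y hu.2.1 l1.le l2.le).1
  exact h1.symm.trans h2

/-- Two uses with the same first access. -/
theorem sameRho (hLINK : S_LINK) (hFRZ : S_FRZ) {d : Run} (hd : d.OK) {s s' : ℕ} {y y' : ℤ}
    (hu : up d s y) (hu' : up d s' y') (hss : s ≤ s') (hm : rho d s y < d.m)
    (hr : rho d s' y' = rho d s y) :
    (s = s' ∧ y = y') ∨ (s < s' ∧ d.lp (s' + 1) y' ≤ d.lp (s + 1) y ∧
      d.rp (s + 1) y ≤ d.rp (s' + 1) y') := by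
  obtain ⟨-, -, a3, -⟩ := (hFRZ d hd).2.2 s y hu
  obtain ⟨⟨r1, -⟩, -, b3, -⟩ := (hFRZ d hd).2.2 s' y' hu'
  have g := a3 hm
  have g' := b3 (by omega)
  rw [hr] at g' r1
  exact nest hLINK hFRZ hd hu hu' hss r1 le_rfl hr.ge (by omega) (by omega)

/-- Facts about the next use. -/
theorem nxf (hSM : S_SM) (hLINK : S_LINK) (hFRZ : S_FRZ) {sg : ℕ} {d : Run} (hd : d.OK)
    {c : ℕ → ℕ → ℤ → Prop} (hc : Cold sg d c) {s l t k : ℕ} {y z : ℤ} (hu : use d c s y l)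
    (hm : rho d s y < d.m) (hn : nx d c s y l t z k) :
    d.lp (t + 1) z ≤ d.lp (s + 1) y ∧ d.rp (s + 1) y ≤ d.rp (t + 1) z ∧ l ≤ k ∧
      y / 2 ^ k = z / 2 ^ k ∧ c t l (y / 2 ^ l) := by
  obtain ⟨⟨hz, -⟩, hr, hst, -⟩ := hn
  obtain ⟨⟨l1, l2⟩, -⟩ := hLINK d hd s y hu.1
  rcases sameRho hLINK hFRZ hd hu.1 hz.1 hst.le hm hr with ⟨g, -⟩ | ⟨-, g1, g2⟩
  · omega
  have hlk : l ≤ k := lev hSM hLINK hd hu hz.2.1 g1 g2
  have hyz : y / 2 ^ k = z / 2 ^ k := cell hSM hLINK hd hz (by omega) (by omega)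
  refine ⟨g1, g2, hlk, hyz, hc.sub t l k y (hc.low _ _ _ hu.2.2.2) hlk ?_⟩
  rw [hyz]
  exact hz.2.2.2

/-- No two charges of one life at different first accesses. -/
theorem injLt (hSM : S_SM) (hEN : S_EN) (hLINK : S_LINK) (hFRZ : S_FRZ) (hUSE : S_USE) {sg : ℕ}
    {d : Run} (hd : d.OK) {c : ℕ → ℕ → ℤ → Prop} (hc : Cold sg d c)
    {s1 s2 l t1 t2 k1 k2 : ℕ} {y1 y2 z1 z2 : ℤ} (u1 : use d c s1 y1 l) (u2 : use d c s2 y2 l)
    (m2 : rho d s2 y2 < d.m) (n1 : nx d c s1 y1 l t1 z1 k1) (n2 : nx d c s2 y2 l t2 z2 k2)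
    (hy : y1 / 2 ^ l = y2 / 2 ^ l) (he : en d l y1 t1 = en d l y2 t2) (htag : k1 = l ↔ k2 = l)
    (hlt : rho d s1 y1 < rho d s2 y2) : False := by
  have m1 : rho d s1 y1 < d.m := by omega
  obtain ⟨a1, a2, a3, a4, a5⟩ := nxf hSM hLINK hFRZ hd hc u1 m1 n1
  obtain ⟨b1, b2, b3, b4, b5⟩ := nxf hSM hLINK hFRZ hd hc u2 m2 n2
  obtain ⟨⟨v1, -⟩, r1, st1, q1⟩ := n1
  obtain ⟨⟨v2, -⟩, r2, st2, -⟩ := n2
  obtain ⟨⟨sr1, -⟩, -, x1, -⟩ := (hFRZ d hd).2.2 s1 y1 u1.1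
  obtain ⟨⟨tr1, -⟩, -⟩ := (hFRZ d hd).2.2 t1 z1 v1.1
  obtain ⟨-, x2, -⟩ := (hFRZ d hd).2.2 t2 z2 v2.1
  obtain ⟨x1a, x1b⟩ := x1 m1
  obtain ⟨⟨l1, l1'⟩, -⟩ := hLINK d hd s1 y1 u1.1
  obtain ⟨⟨l2, l2'⟩, -⟩ := hLINK d hd s2 y2 u2.1
  have t1m : t1 ≤ d.m := v1.1.1.le
  have t2m : t2 ≤ d.m := v2.1.1.le
  obtain ⟨-, E2, -, -, -, -, E7, E8⟩ := hEN sg d c hc l y1 t1 t1m
  obtain ⟨-, -, -, F4, -, -, F7, F8⟩ := hEN sg d c hc l y2 t2 t2m
  have hx : sm l (d.x (rho d s1 y1)) y1 := cell hSM hLINK hd u1 x1a.le x1b.le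
  have hE : en d l y1 t1 ≤ rho d s1 y1 := by
    by_contra hcon
    exact E2 _ (by omega) (by omega) hx
  have ht2 : t2 < en d l y2 t2 := (F8 b5).1
  have ht1 : t1 < en d l y1 t1 := (E8 a5).1
  have hl : 1 ≤ l := (hUSE sg d c hd hc s1 y1 l u1).1.1
  obtain ⟨j, rfl⟩ : ∃ j, l = j + 1 := ⟨l - 1, by omega⟩
  have c1 : ¬ sm j _ _ := u1.2.2.1 j (by omega)
  have c2 : ¬ sm j _ _ := u2.2.2.1 j (by omega)
  have p1 := cell hSM hLINK hd u1 le_rfl (by omega)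
  have w1 := cell hSM hLINK hd u1 (z := d.rp (s1 + 1) y1) (by omega) le_rfl
  have p2 := cell hSM hLINK hd u2 le_rfl (by omega)
  have w2 := cell hSM hLINK hd u2 (z := d.rp (s2 + 1) y2) (by omega) le_rfl
  have o1 : d.lp (s1 + 1) y1 < d.rp (s2 + 1) y2 :=
    mid hSM (p2.trans (hy.symm.trans w1.symm)) c1 c2 (by omega) (by omega)
  have o2 : d.lp (s2 + 1) y2 < d.rp (s1 + 1) y1 :=
    mid hSM (p1.trans (hy.trans w2.symm)) c2 c1 (by omega) (by omega)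
  rcases le_total s1 t2 with hle | hle
  · rcases nest hLINK hFRZ hd u1.1 v2.1 hle (T := rho d s1 y1) (by omega) le_rfl (by omega)
      (by omega) (by omega) with ⟨g1, g2⟩ | ⟨-, g1, g2⟩
    · subst g1 g2
      omega
    · exact x2 (rho d s1 y1) (by omega) (by omega) ⟨by omega, by omega⟩
  · rcases nest hLINK hFRZ hd v2.1 u1.1 hle (T := rho d s1 y1) sr1 (by omega) le_rfl
      (by omega) (by omega) with ⟨g1, g2⟩ | ⟨-, g1, g2⟩
    · subst g1 g2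
      omega
    · have hk : k2 ≤ j + 1 := lev hSM hLINK hd v2 u1.2.1 g1 g2
      have hk1 : k1 = j + 1 := htag.2 (by omega)
      subst hk1
      refine q1 ⟨rfl, a4.symm, ?_⟩
      have i1 := E7 z1 a4
      have i2 := F4 s1 hle (by omega)
      have i3 := (hEN sg d c hc (j + 1) y1 s1 u1.1.1.le).2.2.2.2.2.2.1 y2 hy
      omega

/-- No two charges of one life at one first access. -/
theorem injEq (hSM : S_SM) (hEN : S_EN) (hLINK : S_LINK) (hFRZ : S_FRZ) (hUSE : S_USE) {sg : ℕ}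
    {d : Run} (hd : d.OK) {c : ℕ → ℕ → ℤ → Prop} (hc : Cold sg d c)
    {s1 s2 l t1 t2 k1 k2 : ℕ} {y1 y2 z1 z2 : ℤ} (u1 : useR d c s1 y1 l) (u2 : useR d c s2 y2 l)
    (m1 : rho d s1 y1 < d.m) (n1 : nx d c s1 y1 l t1 z1 k1) (n2 : nx d c s2 y2 l t2 z2 k2)
    (hmin : ∀ t z k, nx d c s1 y1 l t z k → t1 ≤ t)
    (hy : y1 / 2 ^ l = y2 / 2 ^ l) (he : en d l y1 t1 = en d l y2 t2) (htag : k1 = l ↔ k2 = l)
    (hr : rho d s2 y2 = rho d s1 y1) (hss : s1 ≤ s2) : en d l y1 s1 = en d l y2 s2 := by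
  by_contra hne
  have m2 : rho d s2 y2 < d.m := by omega
  rcases sameRho hLINK hFRZ hd u1.1.1 u2.1.1 hss m1 hr with ⟨g1, g2⟩ | ⟨hlt, -⟩
  · subst g1 g2
    exact hne rfl
  have hts : t1 ≤ s2 := hmin s2 y2 l ⟨u2, hr, hlt, fun h => hne h.2.2.symm⟩
  obtain ⟨-, -, a3, -, -⟩ := nxf hSM hLINK hFRZ hd hc u1.1 m1 n1
  obtain ⟨-, -, -, b4, b5⟩ := nxf hSM hLINK hFRZ hd hc u2.1 m2 n2
  obtain ⟨⟨v1, -⟩, r1, st1, -⟩ := n1
  obtain ⟨⟨v2, -⟩, r2, st2, q2⟩ := n2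
  by_cases hk : k1 = l
  · have hk2 := htag.1 hk
    subst hk2
    refine q2 ⟨rfl, b4.symm, ?_⟩
    obtain ⟨-, -, -, E4, -, -, E7, -⟩ := hEN sg d c hc k2 y1 t1 v1.1.1.le
    obtain ⟨-, -, -, -, -, -, F7, F8⟩ := hEN sg d c hc k2 y2 t2 v2.1.1.le
    have i0 := (F8 b5).1
    have i1 := F7 z2 b4
    have i2 := E4 s2 hts (by omega)
    have i3 := (hEN sg d c hc k2 y1 s2 u2.1.1.1.le).2.2.2.2.2.2.1 y2 hy
    omega
  · rcases sameRho hLINK hFRZ hd v1.1 u2.1.1 hts (by omega) (by omega) with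
      ⟨g1, g2⟩ | ⟨-, g1, g2⟩
    · subst g1 g2
      exact hk ((hUSE sg d c hd hc _ _ _ u2.1).1.2.2.1 _ v1)
    · have := lev hSM hLINK hd v1 u2.1.2.1 g1 g2
      omega

/-- The block `b` has the member `(s, y)` of level `l`. -/
def mem (d : Run) (c : ℕ → ℕ → ℤ → Prop) (b : ℕ × ℤ × ℕ × ℕ) (s : ℕ) (y : ℤ) (l : ℕ) : Prop :=
  useR d c s y l ∧ rho d s y < d.m ∧ b = (l, y / 2 ^ l, en d l y s, rho d s y)

theorem exMem {d : Run} {c : ℕ → ℕ → ℤ → Prop} {J : ℕ} {b : ℕ × ℤ × ℕ × ℕ}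
    (hb : b ∈ BL d c J) : ∃ s y l, mem d c b s y l := by
  unfold BL at hb
  obtain ⟨p, hp, rfl⟩ := mem_image.1 hb
  obtain ⟨-, h1, h2⟩ := mem_filter.1 hp
  exact ⟨p.1, p.2.1, p.2.2, h1, h2, rfl⟩

end RBx

open RBx in
theorem p_RB (hSM : S_SM) (hEN : S_EN) (hLINK : S_LINK) (hFRZ : S_FRZ) (hUSE : S_USE) : S_RB := by
  intro sg J d c hd hc hJ
  let P : ℕ × ℤ × ℕ × ℕ → Prop := fun b =>
    ∃ s y l, mem d c b s y l ∧ ∀ t z k, ¬ nx d c s y l t z k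
  have h1 : #((BL d c J).filter P) ≤ #(range d.m) := by
    refine card_le_card_of_injOn (fun b => b.2.2.2) ?_ ?_
    · intro b hb
      obtain ⟨s, y, l, ⟨-, hm, rfl⟩, -⟩ := (mem_filter.1 (mem_coe.1 hb)).2
      exact mem_coe.2 (mem_range.2 hm)
    · have key : ∀ s y l s' y' l', useR d c s y l → useR d c s' y' l' → rho d s y < d.m →
          rho d s' y' = rho d s y → s ≤ s' → (∀ t z k, ¬ nx d c s y l t z k) →
          (l, y / 2 ^ l, en d l y s, rho d s y) = (l', y' / 2 ^ l', en d l' y' s', rho d s' y') := by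
        intro s y l s' y' l' u u' hm hr hss hn
        rcases sameRho hLINK hFRZ hd u.1.1 u'.1.1 hss hm hr with ⟨g1, g2⟩ | ⟨hlt, -⟩
        · subst g1 g2
          obtain rfl := (hUSE sg d c hd hc _ _ _ u.1).1.2.2.1 _ u'.1
          rfl
        · by_contra hne
          refine hn s' y' l' ⟨u', hr, hlt, fun h => hne ?_⟩
          rw [h.2.1, h.2.2, hr, h.1]
      intro b hb b' hb' hbb
      obtain ⟨s, y, l, ⟨u, hm, rfl⟩, hn⟩ := (mem_filter.1 (mem_coe.1 hb)).2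
      obtain ⟨s', y', l', ⟨u', hm', rfl⟩, hn'⟩ := (mem_filter.1 (mem_coe.1 hb')).2
      have hr : rho d s y = rho d s' y' := hbb
      rcases le_total s s' with h | h
      · exact key s y l s' y' l' u u' hm hr.symm h hn
      · exact (key s' y' l' s y l u' u hm' hr h hn').symm
  have h2 : #((BL d c J).filter fun b => ¬ P b) ≤
      #((univ : Finset Bool) ×ˢ (range J).sigma fun j => LV d c j) := by
    refine card_le_card_of_forall_subsingleton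
      (fun b q => ∃ s y l t z k, mem d c b s y l ∧ nx d c s y l t z k ∧
        (∀ t' z' k', nx d c s y l t' z' k' → t ≤ t') ∧ (q.1 = true ↔ k = l) ∧ q.2.1 = l ∧
        q.2.2.1 = y / 2 ^ l ∧ q.2.2.2 = en d l y t) ?_ ?_
    · intro b hb
      obtain ⟨hb1, hb2⟩ := mem_filter.1 hb
      obtain ⟨s, y, l, hm⟩ := exMem hb1
      have hex : ∃ t, ∃ z k, nx d c s y l t z k := by
        by_contra hcon
        exact hb2 ⟨s, y, l, hm, fun t z k h => hcon ⟨t, z, k, h⟩⟩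
      obtain ⟨z, k, hn⟩ := Nat.find_spec hex
      refine ⟨(decide (k = l), ⟨l, (y / 2 ^ l, en d l y (Nat.find hex))⟩), ?_, s, y, l,
        Nat.find hex, z, k, hm, hn, fun t' z' k' h => Nat.find_min' hex ⟨z', k', h⟩,
        decide_eq_true_iff, rfl, rfl, rfl⟩
      obtain ⟨u, hr, -⟩ := hm
      have hcold := (nxf hSM hLINK hFRZ hd hc u.1 hr hn).2.2.2.2
      have hle := (hEN sg d c hc l y _ hn.1.1.1.1.le).1.2
      obtain ⟨yL, yR, -⟩ := u.1.1.2.1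
      refine mem_product.2 ⟨mem_univ _, mem_sigma.2 ⟨mem_range.2
        ((hUSE sg d c hd hc _ _ _ u.1).1.2.2.2.2 J hJ), ?_⟩⟩
      unfold LV
      refine mem_filter.2 ⟨mem_product.2 ⟨mem_image.2 ⟨y, mem_Ioo.2 ⟨yL, yR⟩, rfl⟩,
        mem_range.2 (Nat.lt_succ_of_le hle)⟩, Nat.find hex, y, hcold, rfl, rfl⟩
    · intro q _ b hb b' hb'
      obtain ⟨-, s1, y1, l, t1, z1, k1, ⟨u1, m1, rfl⟩, n1, min1, g1, ql, qy, qe⟩ := hb
      obtain ⟨-, s2, y2, l', t2, z2, k2, ⟨u2, m2, rfl⟩, n2, min2, g2, ql', qy', qe'⟩ := hb'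
      obtain rfl : l = l' := ql.symm.trans ql'
      have hy : y1 / 2 ^ l = y2 / 2 ^ l := qy.symm.trans qy'
      have he : en d l y1 t1 = en d l y2 t2 := qe.symm.trans qe'
      have htag : k1 = l ↔ k2 = l := g1.symm.trans g2
      rcases lt_trichotomy (rho d s1 y1) (rho d s2 y2) with h | h | h
      · exact (injLt hSM hEN hLINK hFRZ hUSE hd hc u1.1 u2.1 m2 n1 n2 hy he htag h).elim
      · have : en d l y1 s1 = en d l y2 s2 := by
          rcases le_total s1 s2 with hs | hs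
          · exact injEq hSM hEN hLINK hFRZ hUSE hd hc u1 u2 m1 n1 n2 min1 hy he htag h.symm hs
          · exact (injEq hSM hEN hLINK hFRZ hUSE hd hc u2 u1 m2 n2 n1 min2 hy.symm he.symm
              htag.symm h hs).symm
        rw [hy, this, h]
      · exact (injLt hSM hEN hLINK hFRZ hUSE hd hc u2.1 u1.1 m1 n2 n1 hy.symm he.symm htag.symm
          h).elim
  rw [card_range] at h1
  rw [card_product, card_univ, Fintype.card_bool, card_sigma] at h2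
  have h3 := card_filter_add_card_filter_not (s := BL d c J) P
  omega

end Pool.Agent.P.MP_119182_lc.LP
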