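import Pool.Agent.P.MP_119182_lc.LP.Iface

/-! Elementary facts on dyadic cells. -/

set_option autoImplicit false

namespace Pool.Agent.P.MP_119182_lc.LP

open Finset
open scoped Classical
open NU (Run mr)

namespace SMx

lemma succ (j : ℕ) (a : ℤ) : a / 2 ^ (j + 1) = a / 2 ^ j / 2 := by
  rw [pow_succ, Int.ediv_ediv_of_nonneg (by positivity)]

lemma mono (j : ℕ) {a b : ℤ} (h : a ≤ b) : a / 2 ^ j ≤ b / 2 ^ j :=
  Int.ediv_le_ediv (by positivity) h

lemma mir (j : ℕ) (a : ℤ) : mr a / 2 ^ j = mr (a / 2 ^ j) := by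
  induction j with
  | zero => simp
  | succ j ih =>
    rw [succ, succ, ih]
    unfold mr
    omega

end SMx

theorem p_SM : S_SM := by
  refine ⟨fun i j a b h e => ?_, fun j a b z e h1 h2 => ?_, fun j a b z e h1 h2 => ?_,
    fun j a b => ?_, SMx.mir, fun j a b a' b' e1 e2 e3 h => ?_⟩
  · induction j, h using Nat.le_induction with
    | base => exact e
    | succ j _ ih =>
      unfold sm at ih ⊢
      rw [SMx.succ, SMx.succ, ih]
  · have k1 := SMx.mono j h1
    have k2 := SMx.mono j h2
    unfold sm at e ⊢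
    omega
  · have k1 := SMx.mono j h1
    have k2 := SMx.mono j h2
    unfold sm at e ⊢
    rw [SMx.succ, SMx.succ] at e
    omega
  · unfold sm
    rw [SMx.mir, SMx.mir]
    unfold mr
    omega
  · have k1 := SMx.mono j h.le
    by_contra hn
    have k2 := SMx.mono j (not_lt.1 hn)
    unfold sm at e1 e2 e3
    omega

end Pool.Agent.P.MP_119182_lc.LP
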