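import Pool.Agent.P.MP_119182_lc.LP.Iface

/-! One access: how the parents of a key change. -/

set_option autoImplicit false

namespace Pool.Agent.P.MP_119182_lc.LP

open Finset
open scoped Classical
open NU (Run mr)

theorem p_STEP (hLINK : S_LINK) : S_STEP := by
  intro d hd t ht y hL hR hx
  have T0 := hd.tree t ht.le
  have T1 := hd.tree (t + 1) ht
  have St := hd.step t ht
  have b0 := T0.bnd y hL hR
  have b1 := T1.bnd y hL hR
  refine ⟨fun h => ?_, fun h hu hlt => ?_, fun h hu hlt => ?_, fun u u' h h' => ?_,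
    fun u y' h h' => ?_⟩
  · exact St.off y hL hR hx fun h2 => h ⟨hL, hR, hx, h2.1, h2.2⟩
  · refine ⟨?_, ?_⟩
    · by_contra h2
      exact hu ⟨ht, h, h2, by omega⟩
    · by_cases h2 : d.rp (t + 1) y = d.rp t y
      · exact Or.inl h2
      obtain ⟨g1, g2, g3⟩ := St.lowR y hlt hR h.2.2.2.1 h2
      have hL' : d.L < d.rp t y := by omega
      have c0 := T0.bnd _ hL' g1
      have c1 := T1.bnd _ hL' g1
      have c2 := T0.ancR y hL hR g1
      have c3 := h.2.2.2.1
      exact Or.inr ⟨⟨⟨ht, ⟨hL', g1, by omega, by omega, by omega⟩, by omega, by omega⟩,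
        Or.inl ⟨hlt, g2⟩⟩, g3⟩
  · refine ⟨?_, ?_⟩
    · by_contra h2
      exact hu ⟨ht, h, by omega, h2⟩
    · by_cases h2 : d.lp (t + 1) y = d.lp t y
      · exact Or.inl h2
      obtain ⟨g1, g2, g3⟩ := St.lowL y hL hlt h.2.2.2.2 h2
      have hR' : d.lp t y < d.R := by omega
      have c0 := T0.bnd _ g1 hR'
      have c1 := T1.bnd _ g1 hR'
      have c2 := T0.ancL y hL hR g1
      have c3 := h.2.2.2.2
      exact Or.inr ⟨⟨⟨ht, ⟨g1, hR', by omega, by omega, by omega⟩, by omega, by omega⟩,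
        Or.inr ⟨hlt, g2⟩⟩, g3⟩
  · have key : ∀ w, low d t y w → (d.x t < y → d.rp t y = w) ∧ (y < d.x t → d.lp t y = w) := by
      intro w hw
      obtain ⟨a1, -, a3, a4, -⟩ := hLINK d hd t w hw.1
      rcases hw.2 with ⟨e1, e2⟩ | ⟨e1, e2⟩
      · refine ⟨fun _ => ?_, fun e3 => by omega⟩
        have := (a3 (by omega)).2.2.1
        rwa [e2] at this
      · refine ⟨fun e3 => by omega, fun _ => ?_⟩
        have := (a4 (by omega)).2.2.1
        rwa [e2] at this
    have k1 := key u h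
    have k2 := key u' h'
    rcases lt_or_gt_of_ne hx with e | e
    · exact (k1.2 e).symm.trans (k2.2 e)
    · exact (k1.1 e).symm.trans (k2.1 e)
  · have a1 := (hLINK d hd t u h.1).1
    rcases h.2 with ⟨e1, e2⟩ | ⟨e1, e2⟩ <;> rcases h'.2 with ⟨e3, e4⟩ | ⟨e3, e4⟩ <;> omega

end Pool.Agent.P.MP_119182_lc.LP
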