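import Pool.Agent.P.MP_119182_lc.LP.Iface

/-! Second use in the left half, the block is not inside that half. -/

set_option autoImplicit false

namespace Pool.Agent.P.MP_119182_lc.LP

open Finset
open scoped Classical
open NU (Run mr)

namespace STRx

variable {sg K : ℕ} {d : Run} {c : ℕ → ℕ → ℤ → Prop}

/-- The data attached to one counted pair. -/
structure Q (d : Run) (c : ℕ → ℕ → ℤ → Prop) (K s t : ℕ) (y : ℤ) (l e s0 : ℕ) (y0 : ℤ) : Prop where
  cl : cl d c K s t y l e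
  lt : d.x t < y
  lf : ¬ useR d c t y e
  sa : same d c s y s0 y0 l
  rh : rho d s0 y0 = rho d s y
  ou : ¬ sm (e - 1) y y0

theorem half (hSM : S_SM) (hLINK : S_LINK) (hUSE : S_USE) (ok : d.OK) (co : Cold sg d c)
    {t e : ℕ} {y : ℤ} (h : use d c t y e) (h' : ¬ useR d c t y e) :
    1 ≤ e ∧ y < d.rp (t + 1) y ∧ sm e y (d.rp (t + 1) y) ∧ ¬ sm (e - 1) y (d.rp (t + 1) y) := by
  obtain ⟨u1, -, -, u4⟩ := hUSE sg d c ok co t y e h
  obtain ⟨l1, -⟩ := hLINK d ok t y h.1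
  exact ⟨u1.1, l1.2, (hSM.2.1 e _ _ y h.2.1 l1.1.le l1.2.le).2,
    u4.1 (not_not.1 fun k => h' ⟨h, k⟩)⟩

theorem same_symm {s s' l : ℕ} {y y' : ℤ} (h : same d c s y s' y' l) : same d c s' y' s y l :=
  ⟨h.2.1, h.1, Eq.symm h.2.2.1, h.2.2.2.symm⟩

theorem same_trans {s s' s'' l : ℕ} {y y' y'' : ℤ} (h : same d c s y s' y' l)
    (h' : same d c s' y' s'' y'' l) : same d c s y s'' y'' l :=
  ⟨h.1, h'.2.1, Eq.trans h.2.2.1 h'.2.2.1, h.2.2.2.trans h'.2.2.2⟩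

theorem anti (hMARCH : S_MARCH) (ok : d.OK) (co : Cold sg d c) {s s' l : ℕ} {y y' : ℤ}
    (h : same d c s y s' y' l) (hy : y < y') : rho d s' y' ≤ rho d s y := by
  obtain ⟨m1, m2⟩ := hMARCH sg d c ok co _ _ _ _ _ h
  obtain ⟨-, m3⟩ := hMARCH sg d c ok co _ _ _ _ _ (same_symm h)
  rcases lt_trichotomy s s' with e | e | e
  · exact (m2 e).2.2.2
  · exact absurd (m1 e) hy.ne
  · exact absurd (m3 e).1 (not_lt.2 hy.le)

theorem pair (hSM : S_SM) (hLINK : S_LINK) (hUSE : S_USE) (hMARCH : S_MARCH) (ok : d.OK)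
    (co : Cold sg d c) {s t s' t' l e s0 s1 : ℕ} {y y' y0 y1 : ℤ} (h : Q d c K s t y l e s0 y0)
    (h' : Q d c K s' t' y' l e s1 y1) (h1 : same d c s y s' y' l) (h2 : sm e y y')
    (h3 : y0 < y ↔ y1 < y') (hy : y < y') : rho d s y = rho d s' y' ∧ t ≠ t' := by
  obtain ⟨a1, a2, a3, a4⟩ := half hSM hLINK hUSE ok co h.cl.1.2.2.1 h.lf
  obtain ⟨-, b2, b3, b4⟩ := half hSM hLINK hUSE ok co h'.cl.1.2.2.1 h'.lf
  have h4 : sm (e - 1) y y' := by
    refine (hSM.2.2.1 (e - 1) y (d.rp (t' + 1) y') y' ?_ hy.le b2.le).resolve_right b4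
    rw [Nat.sub_add_cancel a1]
    exact Eq.trans h2 b3
  refine ⟨le_antisymm ?_ (anti hMARCH ok co h1 hy), ?_⟩
  · by_cases k : y1 < y'
    · have k1 : y1 < y := by
        by_contra k2
        exact h'.ou (Eq.symm (hSM.2.1 _ _ _ y1 h4 (not_lt.1 k2) k.le).2)
      rw [← h'.rh]
      exact anti hMARCH ok co (same_symm (same_trans h1 h'.sa)) k1
    · have k1 : y' < y0 := by
        by_contra k2
        exact h.ou (hSM.2.1 _ _ _ y0 h4 (not_lt.1 fun k3 => k (h3.1 k3)) (not_lt.1 k2)).1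
      rw [← h.rh]
      exact anti hMARCH ok co (same_trans (same_symm h1) h.sa) k1
  · rintro rfl
    have k1 := (hLINK d ok t y h.cl.1.2.2.1.1).2.2.2.2.2.2 y' h'.cl.1.2.2.1.1 hy
    have k2 := (hLINK d ok t y' h'.cl.1.2.2.1.1).1.1
    exact a4 (hSM.2.1 _ _ _ _ h4 a2.le (k1.trans k2.le)).1

end STRx

open STRx in
theorem p_STR (hSM : S_SM) (hEN : S_EN) (hLINK : S_LINK) (hUSE : S_USE) (hMARCH : S_MARCH)
    (hSYNC : S_SYNC) : S_STR := by
  intro sg K J d c ok co hJ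
  set B := BR d c K fun s t y l e => lso d s t y l e ∧ d.x t < y ∧ ¬ crs d s t y l e ∧
    ¬ useR d c t y e ∧ ¬ ins d c s t y l e with hB
  have hQ : ∀ p ∈ B, ∃ s l e s0 y0, Q d c K s p.1 p.2 l e s0 y0 := by
    intro p hp
    obtain ⟨-, s, l, e, h1, h2, h3, h4, h5, h6, h7⟩ := mem_filter.1 hp
    unfold ins at h7
    push Not at h7
    obtain ⟨s0, y0, k1, k2, k3⟩ := h7
    exact ⟨s, l, e, s0, y0, ⟨h1, h2, h3, h5⟩, h4, h6, k1, k2, k3⟩
  choose! s l e s0 y0 hQ using hQ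
  have hT : #((univ : Finset Bool) ×ˢ (range J).biUnion fun e =>
      (PR d c J e).image fun q => (e, q)) ≤ 2 * ∑ e ∈ range J, #(PR d c J e) := by
    rw [card_product, card_univ, Fintype.card_bool]
    exact Nat.mul_le_mul_left _ (card_biUnion_le.trans (sum_le_sum fun _ _ => card_image_le))
  refine le_trans (card_le_mul_card_image_of_maps_to
    (f := fun p : ℕ × ℤ => (decide (y0 p < p.2), e p, p.2 / 2 ^ e p, l p, en d (l p) p.2 (s p)))
    (fun p hp => ?_) K fun b _ => ?_) ((Nat.mul_le_mul_left K hT).trans_eq (by ring))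
  · have w := (hQ p hp).cl.1.2.2.2.1
    have lJ := (hUSE sg d c ok co _ _ _ w.1).1.2.2.2.2 J hJ
    refine mem_product.2 ⟨mem_univ _, mem_biUnion.2 ⟨e p, mem_range.2 (w.2.1.trans lJ),
      mem_image.2 ⟨_, mem_image.2 ⟨(s p, p.2, l p), mem_filter.2 ⟨mem_product.2
        ⟨mem_range.2 w.1.1.1, mem_product.2 ⟨mem_Ioo.2 ⟨w.1.1.2.1.1, w.1.1.2.1.2.1⟩,
          mem_range.2 lJ⟩⟩, w⟩, rfl⟩, rfl⟩⟩⟩
  · set F := B.filter fun p : ℕ × ℤ =>
      (decide (y0 p < p.2), e p, p.2 / 2 ^ e p, l p, en d (l p) p.2 (s p)) = b with hF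
    rcases F.eq_empty_or_nonempty with k | k
    · rw [k]
      exact Nat.zero_le _
    have key : ∀ p ∈ F, ∀ p' ∈ F, same d c (s p) p.2 (s p') p'.2 (l p) ∧ sm (e p) p.2 p'.2 ∧
        Q d c K (s p') p'.1 p'.2 (l p) (e p) (s0 p') (y0 p') ∧ (y0 p < p.2 ↔ y0 p' < p'.2) := by
      intro p hp p' hp'
      obtain ⟨a1, a2⟩ := mem_filter.1 hp
      obtain ⟨b1, b2⟩ := mem_filter.1 hp'
      have k := a2.trans b2.symm
      simp only [Prod.mk.injEq, decide_eq_decide] at k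
      obtain ⟨k1, k2, k3, k4, k5⟩ := k
      have q := hQ p a1
      have q' := hQ p' b1
      rw [← k2] at k3
      rw [← k4] at k5
      rw [← k2, ← k4] at q'
      exact ⟨⟨q.cl.2.1, q'.cl.2.1, hSM.1 _ _ _ _ q.cl.1.2.2.2.1.2.1.le k3, k5⟩, k3, q', k1⟩
    have key2 : ∀ p ∈ F, ∀ p' ∈ F, rho d (s p) p.2 = rho d (s p') p'.2 ∧
        (p.1 = p'.1 → p = p') := by
      intro p hp p' hp'
      obtain ⟨a1, a2, a3, a4⟩ := key p hp p' hp'
      have q := (key p hp p hp).2.2.1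
      rcases lt_trichotomy p.2 p'.2 with k | k | k
      · obtain ⟨r1, r2⟩ := pair hSM hLINK hUSE hMARCH ok co q a3 a1 a2 a4 k
        exact ⟨r1, fun e => absurd e r2⟩
      · have k1 : s p = s p' := by
          rcases lt_trichotomy (s p) (s p') with e | e | e
          · exact absurd ((hMARCH sg d c ok co _ _ _ _ _ a1).2 e).1 k.not_lt
          · exact e
          · exact absurd ((hMARCH sg d c ok co _ _ _ _ _ (same_symm a1)).2 e).1 k.not_gt
        exact ⟨by rw [k1, k], fun e => Prod.ext e k⟩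
      · obtain ⟨r1, r2⟩ := pair hSM hLINK hUSE hMARCH ok co a3 q (same_symm a1) (Eq.symm a2)
          a4.symm k
        exact ⟨r1.symm, fun e => absurd e.symm r2⟩
    obtain ⟨p0, hp0, hmax⟩ := exists_max_image F Prod.fst k
    have q0 := (key p0 hp0 p0 hp0).2.2.1
    refine le_trans (card_le_card_of_injOn Prod.fst (fun p hp => ?_)
      fun p hp p' hp' e => (key2 p hp p' hp').2 e) q0.cl.1.2.2.2.2.2.2
    have hp' : p ∈ F := hp
    refine mem_coe.2 (mem_filter.2 ?_)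
    rcases (hmax p hp').eq_or_lt with k | k
    · rw [k]
      exact ⟨mem_Ioc.2 ⟨q0.cl.1.1, le_rfl⟩, q0.cl.1.2.2.1.1.2.1⟩
    · obtain ⟨a1, a2, a3, -⟩ := key p hp' p0 hp0
      have q := (key p hp' p hp').2.2.1
      obtain ⟨r1, r2⟩ := hSYNC sg K d c ok co _ _ _ _ _ _ _ _ _ q.cl a3.cl q.lt a1
        (key2 p hp' p0 hp0).1 a2 a2 k
      exact ⟨mem_Ioc.2 ⟨r1, k.le⟩, r2⟩

end Pool.Agent.P.MP_119182_lc.LP
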