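import Pool.Agent.P.MP_119182_lc.LP.Iface

/-! Two clean uses of one block keep the same left parent. -/

set_option autoImplicit false

namespace Pool.Agent.P.MP_119182_lc.LP

open Finset
open scoped Classical
open NU (Run mr)

namespace SYNCx

/-- What is known about a key at one step. -/
structure H (d : Run) (c : ℕ → ℕ → ℤ → Prop) (T : ℕ) (z : ℤ) (e : ℕ) : Prop where
  l : d.L < z
  r : z < d.R
  nu : ¬ up d T z
  ne : d.x T ≠ z
  lo : ∀ u, low d T z u → ∃ i, use d c T u i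
  a0 : ¬ sm e (d.lp T z) z
  a1 : ¬ sm e (d.lp (T + 1) z) z
  b1 : sm e z (d.rp (T + 1) z)

theorem step (hSM : S_SM) (hLINK : S_LINK) (hSTEP : S_STEP) {sg : ℕ} {d : Run}
    {c : ℕ → ℕ → ℤ → Prop} (hd : d.OK) (hc : Cold sg d c) {T : ℕ} (hT : T < d.m) {z v : ℤ}
    {ez ev : ℕ} (hz : H d c T z ez) (hv : H d c T v ev) (hzv : z < v) (hs : sm ev z v)
    (ha : d.lp T z = d.lp T v) : d.lp (T + 1) z = d.lp (T + 1) v := by
  have tr := hd.tree T hT.le
  have bz := tr.bnd z hz.l hz.r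
  have bv := tr.bnd v hv.l hv.r
  have sz := hSTEP d hd T hT z hz.l hz.r hz.ne.symm
  have sv := hSTEP d hd T hT v hv.l hv.r hv.ne.symm
  have nz := hz.ne
  have nv := hv.ne
  rcases le_or_gt (d.x T) (d.lp T z) with h1 | h1
  · rw [(sz.1 fun h => absurd h.2.2.2.1 (by omega)).1,
      (sv.1 fun h => absurd h.2.2.2.1 (by omega)).1, ha]
  rcases lt_or_gt_of_ne nz with h2 | h2
  · rw [(sz.2.1 ⟨hz.l, hz.r, nz.symm, h1, by omega⟩ hz.nu h2).1,
      (sv.2.1 ⟨hv.l, hv.r, nv.symm, by omega, by omega⟩ hv.nu (by omega)).1]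
  rcases lt_or_gt_of_ne nv with h3 | h3
  · have e1 := (sv.2.1 ⟨hv.l, hv.r, nv.symm, by omega, by omega⟩ hv.nu h3).1
    refine absurd ?_ hv.a1
    rw [e1]
    exact (hSM.2.1 ev z v (d.x T) hs h2.le h3.le).2
  have r1 := (tr.lamL v z hv.l hv.r (by omega) hzv).2
  rw [(sz.1 fun h => absurd h.2.2.2.2 (by omega)).1, ha]
  by_cases ho : on d T v
  · obtain ⟨e1, e2 | ⟨e2, -⟩⟩ := sv.2.2.1 ho hv.nu h3
    · exact e2.symm
    · exfalso
      obtain ⟨i, hu, hi, -, hci⟩ := hv.lo _ e2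
      have e3 : d.rp (T + 1) (d.lp T v) = v := by
        rcases e2.2 with h | h
        · omega
        · exact h.2
      have lk := (hLINK d hd T _ hu).1
      have s1 : sm i (d.lp T v) v := by
        have := (hSM.2.1 i _ _ (d.lp T v) hi lk.1.le lk.2.le).2
        rwa [e3] at this
      have hi2 : ev ≤ i := by
        by_contra h
        exact hv.a0 (hSM.1 i ev _ _ (by omega) s1)
      have s2 : sm i v (d.x T) := by
        have := hSM.1 ev i _ _ hi2 hv.b1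
        rwa [e1] at this
      exact (hc.out T i _ hci).2 (Eq.trans (Eq.symm s2) (Eq.symm s1))
  · exact (sv.1 ho).1.symm

theorem mk {K : ℕ} {d : Run} {c : ℕ → ℕ → ℤ → Prop} {s t : ℕ} {y : ℤ} {l e : ℕ}
    (h : cl d c K s t y l e) {T : ℕ} (h1 : s < T) (h2 : T < t) : H d c T y e := by
  obtain ⟨⟨-, b2, b3, -, b5, b6, -⟩, -, h3, -⟩ := h
  exact ⟨b3.1.2.1.1, b3.1.2.1.2.1, b2 T h1 h2, b5 T h1 h2, b6 T h1 h2, (h3 T h1 h2.le).1,
    (h3 (T + 1) (by omega) h2).1, (h3 (T + 1) (by omega) h2).2⟩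

end SYNCx

theorem p_SYNC (hSM : S_SM) (hLINK : S_LINK) (hSTEP : S_STEP) (hFRZ : S_FRZ) (hUSE : S_USE)
    (hMARCH : S_MARCH) : S_SYNC := by
  intro sg K d c hd hc s t y l e s' t' y' e' h1 h2 hx _ hr he he' htt
  have ut : up d t y := h1.1.2.2.1.1
  have us : up d s y := h1.2.1.1.1
  have us' : up d s' y' := h2.2.1.1.1
  have hst : s < t := h1.1.1
  have htm : t < d.m := ut.1
  obtain ⟨⟨f1, -⟩, -, f3, f4, f5⟩ := (hFRZ d hd).2.2 s y us
  obtain ⟨⟨g1, -⟩, -, g3, g4, -⟩ := (hFRZ d hd).2.2 s' y' us'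
  have lk := (hLINK d hd s y us).1
  have hrt : rho d s y ≤ t := by
    by_contra h
    have := (f5 t y hst.le (by omega) lk.1 lk.2 ut.2.1).1
    omega
  have hm : rho d s y < d.m := by omega
  have yl := us.2.1.1
  have yr := us.2.1.2.1
  have yl' := us'.2.1.1
  have yr' := us'.2.1.2.1
  rw [← hr] at g1 g3 g4
  have n' : d.x (rho d s y) ≠ y' := h2.1.2.2.2.2.1 _ g1 (by omega)
  have x' : d.x (rho d s y) < y' := by
    refine lt_of_le_of_ne (not_lt.1 fun h => h2.2.2.2 ⟨?_, ?_⟩) n'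
    · rw [← hr]; exact hm
    · rw [← hr]; exact h
  have o' : on d (rho d s y) y' := by
    refine ⟨yl', yr', n'.symm, ?_, ?_⟩
    · rw [(g4 _ g1 le_rfl).1]; exact (g3 hm).1
    · rw [(g4 _ g1 le_rfl).2]; exact (g3 hm).2
  refine ⟨by omega, ?_⟩
  rcases hrt.eq_or_lt with h | h
  · rw [← h]; exact o'
  have n0 : d.x (rho d s y) ≠ y := h1.1.2.2.2.2.1 _ f1 h
  have x0 : d.x (rho d s y) < y :=
    lt_of_le_of_ne (not_lt.1 fun h => h1.2.2.2 ⟨hm, h⟩) n0
  have o0 : on d (rho d s y) y := by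
    refine ⟨yl, yr, n0.symm, ?_, ?_⟩
    · rw [(f4 _ f1 le_rfl).1]; exact (f3 hm).1
    · rw [(f4 _ f1 le_rfl).2]; exact (f3 hm).2
  have key : ∀ T, rho d s y + 1 ≤ T → T ≤ t → d.lp T y = d.lp T y' := by
    intro T hT
    induction T, hT using Nat.le_induction with
    | base =>
      intro _
      rw [((hSTEP d hd _ hm y yl yr n0.symm).2.1 o0 (h1.1.2.1 _ f1 h) x0).1,
        ((hSTEP d hd _ hm y' yl' yr' n'.symm).2.1 o' (h2.1.2.1 _ g1 (by omega)) x').1]
    | succ T hT ih =>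
      intro hTt
      have a := SYNCx.mk h1 (T := T) (by omega) (by omega)
      have b := SYNCx.mk h2 (T := T) (by omega) (by omega)
      have i := ih (by omega)
      rcases lt_trichotomy y y' with q | q | q
      · exact SYNCx.step hSM hLINK hSTEP hd hc (by omega) a b q he' i
      · rw [q]
      · exact (SYNCx.step hSM hLINK hSTEP hd hc (by omega) b a q (Eq.symm he) i.symm).symm
  have e1 := key t h le_rfl
  have n1 : d.x t ≠ y' := h2.1.2.2.2.2.1 _ (by omega) htt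
  have b' := (hd.tree t htm.le).bnd y' yl' yr'
  have lx := ut.2.1.2.2.2.1
  refine ⟨yl', yr', n1.symm, by omega, ?_⟩
  rcases lt_or_gt_of_ne n1 with q | q
  · omega
  · exact absurd (hSM.2.1 e y' y (d.x t) (Eq.symm he) q.le hx.le).2
      (hc.out t e _ h1.1.2.2.1.2.2.2).2

end Pool.Agent.P.MP_119182_lc.LP
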