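import Pool.Agent.P.MP_119182_lc.LP.Iface

/-! Step TOP. -/

set_option autoImplicit false

namespace Pool.Agent.P.MP_119182_lc.LP

open Finset
open scoped Classical
open NU (Run mr)

namespace TOPx

theorem time_eq {d : Run} {c : ℕ → ℕ → ℤ → Prop} {K s s' t t' T l l' e e' : ℕ} {y : ℤ}
    (h : bs d c K s t y l e) (h' : bs d c K s' t' y l' e') (a : s < T) (b : T ≤ t) (a' : s' < T)
    (b' : T ≤ t') : t = t' := by
  rcases lt_trichotomy t t' with k | k | k
  · exact absurd h.2.2.1.1 (h'.2.1 t (by omega) k)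
  · exact k
  · exact absurd h'.2.2.1.1 (h.2.1 t' (by omega) k)

theorem rho_lt {d : Run} {s : ℕ} {y : ℤ} (h : rho d s y < d.m) :
    d.x (rho d s y) < d.rp (s + 1) y := by
  have h1 : rho d s y ∈
      {T | s < T ∧ (d.m ≤ T ∨ (d.lp (s + 1) y < d.x T ∧ d.x T < d.rp (s + 1) y))} :=
    Nat.sInf_mem ⟨s + 1 + d.m, by omega, Or.inl (by omega)⟩
  rcases h1.2 with k | k
  · omega
  · exact k.2

end TOPx

open TOPx

theorem p_TOP (hSM : S_SM) (hEN : S_EN) (hLINK : S_LINK) (hUSE : S_USE) (hMARCH : S_MARCH) :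
    S_TOP := by
  intro sg K J d c hd hc hJ
  have _ := hEN
  have mem : ∀ φ, ∀ p ∈ BR d c K φ, p.1 < d.m ∧ p.2 ∈ d.keys ∧
      ∃ s l e, bs d c K s p.1 p.2 l e ∧ useR d c s p.2 l ∧ φ s p.1 p.2 l e := fun φ p hp =>
    ⟨mem_range.1 (mem_product.1 (mem_filter.1 hp).1).1, (mem_product.1 (mem_filter.1 hp).1).2,
      (mem_filter.1 hp).2⟩
  have lJ : ∀ s y l, useR d c s y l → l < J := fun s y l h =>
    (hUSE sg d c hd hc _ _ _ h.1).1.2.2.2.2 J hJ
  have inj : ∀ (p q : ℕ × ℤ) (s s' l e e' : ℕ), bs d c K s p.1 p.2 l e → bs d c K s' q.1 q.2 l e' →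
      same d c s p.2 s' q.2 l → ¬ d.rp (s + 1) p.2 ≤ q.2 ∨ ¬ p.2 < q.2 →
      ¬ d.rp (s' + 1) q.2 ≤ p.2 ∨ ¬ q.2 < p.2 → p = q := by
    intro p q s s' l e e' b b' hs k k'
    rcases lt_trichotomy s s' with h | h | h
    · have := (hMARCH sg d c hd hc _ _ _ _ _ hs).2 h
      exact (k.elim (fun a => a this.2.1) fun a => a this.1).elim
    · have e1 := (hMARCH sg d c hd hc _ _ _ _ _ hs).1 h
      subst h
      rw [← e1] at b'
      exact Prod.ext (time_eq (T := s + 1) b b' (by omega) b.1 (by omega) b'.1) e1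
    · have := (hMARCH sg d c hd hc _ _ _ _ _
        (⟨hs.2.1, hs.1, hs.2.2.1.symm, hs.2.2.2.symm⟩ : same d c s' q.2 s p.2 l)).2 h
      exact (k'.elim (fun a => a this.2.1) fun a => a this.1).elim
  refine ⟨?_, ?_, ?_⟩
  · have h0 := fun p hp => (mem (top0 d) p hp).2.2
    choose! s l e hb hu ht using h0
    rw [← card_sigma]
    refine card_le_card_of_injOn
      (fun p => ⟨e p, (p.2 / 2 ^ e p, l p, en d (l p) p.2 (s p))⟩) (fun p hp => ?_)
      fun p hp q hq h => ?_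
    · have hp := mem_coe.1 hp
      have a := lJ _ _ _ (hu p hp)
      have w := (hb p hp).2.2.2.1
      refine mem_coe.2 (mem_sigma.2 ⟨mem_range.2 (w.2.1.trans a), ?_⟩)
      exact mem_image.2 ⟨(s p, p.2, l p), mem_filter.2 ⟨mem_product.2 ⟨mem_range.2 w.1.1.1,
        mem_product.2 ⟨(mem _ p hp).2.1, mem_range.2 a⟩⟩, w⟩, rfl⟩
    · have hp := mem_coe.1 hp
      have hq := mem_coe.1 hq
      simp only [Sigma.mk.injEq, heq_eq_eq, Prod.mk.injEq] at h
      obtain ⟨e1, e2, e3, e4⟩ := h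
      have b := hb q hq
      have u := hu q hq
      have t := ht q hq
      rw [← e3] at b u e4
      rw [← e1] at b t e2
      have e5 : sm (e p) p.2 q.2 := e2
      have r1 := (hLINK d hd _ _ (hu p hp).1.1).1.2
      have r2 := (hLINK d hd _ _ u.1.1).1.2
      refine inj p q _ _ _ _ _ (hb p hp) b
        ⟨hu p hp, u, hSM.1 _ _ _ _ (hb p hp).2.2.2.1.2.1.le e5, e4⟩ (Or.inl fun k => ?_)
        (Or.inl fun k => ?_)
      · exact ht p hp (hSM.2.1 _ _ _ _ e5 r1.le k).1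
      · exact t (hSM.2.1 _ _ _ _ e5.symm r2.le k).1
  · have h0 := fun p hp => (mem (top1 d c) p hp).2.2
    unfold top1 at h0
    choose! s l e hb hu T T' h1 h2 h3 h4 h5 h6 using h0
    rw [← card_sigma]
    refine card_le_card_of_injOn (fun p => ⟨e p, (p.2 / 2 ^ e p, T p)⟩) (fun p hp => ?_)
      fun p hp q hq h => ?_
    · have hp := mem_coe.1 hp
      have a := lJ _ _ _ (hu p hp)
      have b := (mem _ p hp).1
      have b2 := h2 p hp
      refine mem_coe.2 (mem_sigma.2 ⟨mem_range.2 ((hb p hp).2.2.2.1.2.1.trans a), ?_⟩)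
      exact mem_filter.2 ⟨mem_product.2 ⟨mem_image.2 ⟨p.2, (mem _ p hp).2.1, rfl⟩,
        mem_range.2 (by show T p < d.m + 1; omega)⟩, T' p, p.2, h3 p hp, rfl, h4 p hp⟩
    · have hp := mem_coe.1 hp
      have hq := mem_coe.1 hq
      simp only [Sigma.mk.injEq, heq_eq_eq, Prod.mk.injEq] at h
      obtain ⟨e1, e2, e3⟩ := h
      have tr := hd.tree (T p) ((h2 p hp).trans (mem _ p hp).1.le)
      have key : ∀ (j : ℕ) (a b : ℤ), a ∈ d.keys → b ∈ d.keys → sm j a b →
          ¬ sm j a (d.rp (T p) a) → ¬ sm j (d.lp (T p) b) b → ¬ a < b := by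
        intro j a b ha hb' hs k1 k2 k
        obtain ⟨a1, a2⟩ := mem_Ioo.1 ha
        obtain ⟨b1, b2⟩ := mem_Ioo.1 hb'
        have l1 : d.lp (T p) b < a := not_le.1 fun g =>
          k2 (hSM.2.1 _ _ _ _ hs g (tr.bnd b b1 b2).2.1.le).2
        exact k1 (hSM.2.1 _ _ _ _ hs (tr.bnd a a1 a2).2.2.1.le (tr.lamL b a b1 b2 l1 k).2).1
      have q5 := h5 q hq
      have q6 := h6 q hq
      rw [← e1] at e2
      rw [← e1, ← e3] at q5 q6
      have e5 : sm (e p) p.2 q.2 := e2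
      have e6 : p.2 = q.2 := le_antisymm
        (not_lt.1 (key _ _ _ (mem _ q hq).2.1 (mem _ p hp).2.1 e5.symm q6 (h5 p hp)))
        (not_lt.1 (key _ _ _ (mem _ p hp).2.1 (mem _ q hq).2.1 e5 (h6 p hp) q5))
      have b := hb q hq
      rw [← e6] at b
      exact Prod.ext (time_eq (T := T p) (hb p hp) b (h1 p hp) (h2 p hp) (e3 ▸ h1 q hq)
        (e3 ▸ h2 q hq)) e6
  · have h0 := fun p hp => (mem (crs d) p hp).2.2
    choose! s l e hb hu ht using h0
    refine card_le_card_of_injOn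
      (fun p => (l p, p.2 / 2 ^ l p, en d (l p) p.2 (s p), rho d (s p) p.2)) (fun p hp => ?_)
      fun p hp q hq h => ?_
    · have hp := mem_coe.1 hp
      exact mem_coe.2 (mem_image.2 ⟨(s p, p.2, l p), mem_filter.2 ⟨mem_product.2
        ⟨mem_range.2 (hu p hp).1.1.1, mem_product.2 ⟨(mem _ p hp).2.1,
          mem_range.2 (lJ _ _ _ (hu p hp))⟩⟩, hu p hp, (ht p hp).1⟩, rfl⟩)
    · have hp := mem_coe.1 hp
      have hq := mem_coe.1 hq
      simp only [Prod.mk.injEq] at h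
      obtain ⟨e1, e2, e3, e4⟩ := h
      have b := hb q hq
      have u := hu q hq
      rw [← e1] at b u e2 e3
      have r1 := rho_lt (ht p hp).1
      have r2 := rho_lt (ht q hq).1
      have r3 := (ht p hp).2
      have r4 := (ht q hq).2
      rw [← e4] at r2 r4
      exact inj p q _ _ _ _ _ (hb p hp) b ⟨hu p hp, u, e2, e3⟩ (Or.inl fun k => by omega)
        (Or.inl fun k => by omega)

end Pool.Agent.P.MP_119182_lc.LP
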