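import Pool.Agent.P.MP_119182_lc.LP.Iface

/-! Two passed pairs in one life of the small cell. -/

set_option autoImplicit false

namespace Pool.Agent.P.MP_119182_lc.LP

open Finset
open scoped Classical
open NU (Run mr)

namespace TWOx

variable {sg : ℕ} {d : Run} {c : ℕ → ℕ → ℤ → Prop}

theorem lt_m {s l e : ℕ} {y : ℤ} (h : wit d c s y l e) : s < d.m := h.1.1.1

theorem mem_keys {s l e : ℕ} {y : ℤ} (h : wit d c s y l e) : y ∈ d.keys :=
  Finset.mem_Ioo.mpr ⟨h.1.1.2.1.1, h.1.1.2.1.2.1⟩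

/-- a state between the two witnesses is in the same life of the small cell -/
theorem mid (hEN : S_EN) (hc : Cold sg d c) {e s l s' l' T : ℕ} {y y' : ℤ}
    (w : wit d c s y l e) (w' : wit d c s' y' l' e) (hs : sm e y y')
    (he : en d e y s = en d e y' s') (h1 : s ≤ T) (h2 : T ≤ s') : A d l' T y' := by
  have a := hEN sg d c hc e y s (lt_m w).le
  have a' := hEN sg d c hc e y' s' (lt_m w').le
  have b : s' < en d e y' s' := (a'.2.2.2.2.2.2.2 w'.2.2.1).1
  have hT : T < en d e y s := by omega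
  have aT := hEN sg d c hc e y T (by have := lt_m w'; omega)
  have hy : y / 2 ^ e = y' / 2 ^ e := hs
  refine w'.2.2.2.2 T h2 ?_ ?_
  · rw [← hy]
    exact (a.2.2.2.2.2.2.2 w.2.2.1).2 T h1 hT
  · rw [aT.2.2.2.2.2.2.1 y' hs, a.2.2.2.1 T h1 hT.le, he]

theorem key (hSM : S_SM) (hEN : S_EN) (hc : Cold sg d c) {e s l s' l' : ℕ} {y y' : ℤ}
    (w : wit d c s y l e) (w' : wit d c s' y' l' e) (hs : sm e y y')
    (he : en d e y s = en d e y' s') (hp : pass d e (y / 2 ^ e, l, en d l y s))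
    (hl : l ≤ l') : s' < en d l y s := by
  by_contra hn
  have a := hEN sg d c hc l y s (lt_m w).le
  have b := mid hEN hc w w' hs he a.1.1 (not_lt.mp hn)
  have hy : y / 2 ^ e = y' / 2 ^ e := hs
  have p : ¬ A d l (en d l y s) y' := hp y' (mem_keys w') hy.symm
  exact b (hSM.1 l l' _ _ hl (not_not.mp p))

theorem same_y (hSM : S_SM) (hEN : S_EN) (hc : Cold sg d c) {e s l s' l' : ℕ} {y : ℤ}
    (w : wit d c s y l e) (w' : wit d c s' y l' e) (he : en d e y s = en d e y s') :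
    ¬ s < s' := by
  intro hs
  have ex : ∃ t, s < t ∧ up d t y := ⟨s', hs, w'.1.1⟩
  have t1 := Nat.find_spec ex
  have t2 : Nat.find ex ≤ s' := Nat.find_min' ex ⟨hs, w'.1.1⟩
  have t3 := w.2.2.2.1 (Nat.find ex) t1.1 t1.2 fun T a b u => Nat.find_min ex b ⟨a, u⟩
  rcases t2.eq_or_lt with t4 | t4
  · rw [t4] at t3
    exact w'.1.2.2.1 e w'.2.1 t3
  · exact mid hEN hc w w' rfl he (T := Nat.find ex + 1) (by omega) t4
      (hSM.1 e l' _ _ w'.2.1.le t3)

end TWOx

open TWOx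

theorem p_TWO (hSM : S_SM) (hEN : S_EN) (hGAIN : S_GAIN) (hUSE : S_USE) : S_TWO := by
  intro sg d c hd hc e s y l s' y' l' w w' hs he hp hp'
  have hs' : sm e y' y := Eq.symm hs
  refine ⟨fun hl => ?_, fun hl => ⟨?_, fun hy => ?_⟩, fun g g1 g2 => ?_⟩
  · subst hl
    have k1 := key hSM hEN hc w w' hs he hp le_rfl
    have k2 := key hSM hEN hc w' w hs' he.symm hp' le_rfl
    have hsl : sm l y y' := hSM.1 e l _ _ w.2.1.le hs
    have a := hEN sg d c hc l y s (lt_m w).le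
    have a' := hEN sg d c hc l y' s' (lt_m w').le
    rcases le_total s s' with h | h
    · rw [← a.2.2.2.1 s' h k1.le]
      exact ((hEN sg d c hc l y s' (lt_m w').le).2.2.2.2.2.2.1 y' hsl).symm
    · rw [← a'.2.2.2.1 s h k2.le]
      exact (a.2.2.2.2.2.2.1 y' hsl).symm
  · by_contra hn
    have k2 := key hSM hEN hc w' w hs' he.symm hp' hl.le
    have u := (hUSE sg d c hd hc s y l w.1).2.1 _ k2 (not_lt.mp hn)
    have hy : y / 2 ^ e = y' / 2 ^ e := hs
    exact hp' y (mem_keys w) hy (u.2 l' hl)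
  · subst hy
    have k1 := same_y hSM hEN hc w w' he
    have k2 := same_y hSM hEN hc w' w he.symm
    have k3 : s = s' := by omega
    subst k3
    have := (hUSE sg d c hd hc s y l w.1).1.2.2.1 l' w'.1
    omega
  · have hsg : sg < e := hc.low _ _ _ w.2.2.1
    have cg : c s g (y / 2 ^ g) := hc.sub s g l y (by omega) g2.le w.1.2.2.2
    refine ⟨w.1, g2, cg, fun t t1 t2 t3 => hSM.1 e g _ _ g1 (w.2.2.2.1 t t1 t2 t3),
      fun T T1 T2 T3 => w.2.2.2.2 T T1 (hc.sub T e g y hsg g1 T2) ?_⟩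
    have hm := lt_m w
    have a := hEN sg d c hc e y T (by omega)
    have b := ((hEN sg d c hc g y s hm.le).2.2.2.2.2.2.2 cg).1
    have b' := a.2.2.2.2.2.1 g g1
    exact (a.2.2.2.1 s T1 (by omega)).symm

end Pool.Agent.P.MP_119182_lc.LP
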