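import Pool.Agent.P.MP_119182_lc.LP.Iface

set_option autoImplicit false

namespace Pool.Agent.P.MP_119182_lc.LP

open Finset
open scoped Classical
open NU (Run mr)

theorem p_USE (hSM : S_SM) (hEN : S_EN) (hLINK : S_LINK) (hFRZ : S_FRZ) (hGAIN : S_GAIN) :
    S_USE := by
  intro sg d c hd hc s y l hu
  obtain ⟨hup, hsm, hmin, hcold⟩ := hu
  obtain ⟨sm1, sm2, sm3, -⟩ := hSM
  have hs : s < d.m := hup.1
  have hon := hup.2.1
  have hL : d.L < y := hon.1
  have hR : y < d.R := hon.2.1
  obtain ⟨⟨hp, hw⟩, -, -, -, k5, k6, -⟩ := hLINK d hd s y hup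
  obtain ⟨⟨r1, r2⟩, -, r3, r4, -⟩ := (hFRZ d hd).2.2 s y hup
  obtain ⟨⟨-, e1⟩, e2, -⟩ := hEN sg d c hc l y s hs.le
  have hx : ¬ sm l (d.x s) y := (hc.out s l _ hcold).2
  have hl : 1 ≤ l := by
    have := hc.low s l _ hcold
    omega
  have inn : ∀ a b, d.lp (s + 1) y ≤ a → a ≤ d.rp (s + 1) y → d.lp (s + 1) y ≤ b →
      b ≤ d.rp (s + 1) y → sm l a b := fun a b a1 a2 b1 b2 =>
    (sm2 l _ _ a hsm a1 a2).1.symm.trans (sm2 l _ _ b hsm b1 b2).1
  have hb := (hd.tree (s + 1) hs).bnd y hL hR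
  have her : en d l y s ≤ rho d s y := by
    rcases r2.eq_or_lt with e | e
    · rw [e]
      exact e1
    · by_contra k
      have j := r3 e
      exact e2 _ r1.le (not_le.1 k) (inn _ _ j.1.le j.2.le hp.le hw.le)
  have two : ∀ T, s < T → T ≤ en d l y s → ¬ A d l T y ∧ ∀ i < l, A d i T y := by
    intro T h1 h2
    obtain ⟨a, b⟩ := r4 T h1 (h2.trans her)
    unfold A
    rw [a, b]
    exact ⟨not_not.2 hsm, hmin⟩
  refine ⟨⟨hl, (hGAIN sg d c hd hc s hs l y hL hR).1 hx hon, fun l' h' => ?_, her,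
    fun J hJ => ?_⟩, two, fun T z h1 h2 z1 z2 hA => ?_, fun k1 k2 => ?_, fun k => ?_⟩
  · rcases lt_trichotomy l' l with k | k | k
    · exact absurd h'.2.1 (hmin l' k)
    · exact k
    · exact absurd hsm (h'.2.2.1 l k)
  · by_contra k
    have j := sm1 J l _ _ (not_lt.1 k) hJ
    have m := (hd.step s hs).mem
    exact hx ((sm2 l _ _ _ j m.1.le m.2.le).1.symm.trans (sm2 l _ _ _ j hL.le hR.le).1)
  · have hT : T ≤ d.m := h2.trans e1
    have hz := (hd.tree T hT).bnd z (by omega) (by omega)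
    have fin : d.lp (s + 1) y ≤ d.lp T z → d.rp T z ≤ d.rp (s + 1) y → False := fun a b =>
      hA (inn _ _ a (by omega) (by omega) b)
    rcases h1.eq_or_lt with e | e
    · subst e
      refine ⟨rfl, ?_⟩
      rcases lt_trichotomy z y with k | k | k
      · have := k5 z z1 k
        exact (fin this.1 (by omega)).elim
      · exact k
      · have := k6 z k z2
        exact (fin (by omega) this.2).elim
    · exfalso
      obtain ⟨a, b⟩ := r4 T e (h2.trans her)
      rcases lt_trichotomy z y with k | k | k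
      · have := (hd.tree T hT).lamL y z hL hR (by omega) k
        exact fin (by omega) (by omega)
      · exact (two T e h2).1 (k ▸ hA)
      · have := (hd.tree T hT).lamR y z hL hR k (by omega)
        exact fin (by omega) (by omega)
  · exact hmin (l - 1) (by omega) (k1.trans k2)
  · have j := sm3 (l - 1) _ _ y (by rwa [Nat.sub_add_cancel hl]) hp.le hw.le
    exact j.resolve_right k

end Pool.Agent.P.MP_119182_lc.LP
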