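import Pool.Agent.P.MP_119182_lc.NU.EIface

/-! Links inside cold dyadic cells: definitions and the steps of the bound. -/

set_option autoImplicit false

namespace Pool.Agent.P.MP_119182_lc.LP

open Finset
open scoped Classical
open NU (Run mr)

/-- The points `a`, `b` lie in one cell of level `j`. -/
def sm (j : ℕ) (a b : ℤ) : Prop := a / 2 ^ j = b / 2 ^ j

/-- Cold cells: `c t j C` says that the cell with index `C` of level `j` is cold at time `t`.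
Only cells of level above `sg` are cold. -/
structure Cold (sg : ℕ) (d : Run) (c : ℕ → ℕ → ℤ → Prop) : Prop where
  out : ∀ t j C, c t j C → t < d.m ∧ d.x t / 2 ^ j ≠ C
  low : ∀ t j C, c t j C → sg < j
  sub : ∀ t j j' v, sg < j → j ≤ j' → c t j' (v / 2 ^ j') → c t j (v / 2 ^ j)
  stay : ∀ t j C, c t j C → t + 1 < d.m → d.x (t + 1) / 2 ^ j ≠ C → c (t + 1) j C

/-- The mirrored cold cells. -/
def mc (c : ℕ → ℕ → ℤ → Prop) (t j : ℕ) (C : ℤ) : Prop := c t j (mr C)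

section
variable (d : Run) (c : ℕ → ℕ → ℤ → Prop)

/-- The key `y` is a proper ancestor of the key of access `t`. -/
def on (t : ℕ) (y : ℤ) : Prop :=
  d.L < y ∧ y < d.R ∧ y ≠ d.x t ∧ d.lp t y < d.x t ∧ d.x t < d.rp t y

/-- The key `y` is the upper node of a link (of either side) at time `t`. -/
def up (t : ℕ) (y : ℤ) : Prop :=
  t < d.m ∧ on d t y ∧ d.lp (t + 1) y ≠ d.x t ∧ d.rp (t + 1) y ≠ d.x t

/-- The key `y` is the lower node of the link with upper node `u`. -/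
def low (t : ℕ) (y u : ℤ) : Prop :=
  up d t u ∧ ((d.x t < y ∧ d.lp (t + 1) u = y) ∨ (y < d.x t ∧ d.rp (t + 1) u = y))

/-- A parent of `y` lies outside the cell of level `j` of `y`. -/
def A (j t : ℕ) (y : ℤ) : Prop := ¬ sm j (d.lp t y) (d.rp t y)

/-- The first time from `t` on with an access in the cell of level `j` of `y` (or the end). -/
noncomputable def en (j : ℕ) (y : ℤ) (t : ℕ) : ℕ :=
  sInf {T | t ≤ T ∧ (d.m ≤ T ∨ sm j (d.x T) y)}

/-- The link with upper node `y` at time `t` has a cold least cell, of level `j`. -/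
def use (t : ℕ) (y : ℤ) (j : ℕ) : Prop :=
  up d t y ∧ sm j (d.lp (t + 1) y) (d.rp (t + 1) y) ∧
    (∀ i < j, ¬ sm i (d.lp (t + 1) y) (d.rp (t + 1) y)) ∧ c t j (y / 2 ^ j)

/-- A use whose upper node lies in the right half of the cell. -/
def useR (t : ℕ) (y : ℤ) (j : ℕ) : Prop := use d c t y j ∧ ¬ sm (j - 1) (d.lp (t + 1) y) y

/-- The first access after time `s` between the new parents of `y`. -/
noncomputable def rho (s : ℕ) (y : ℤ) : ℕ :=
  sInf {T | s < T ∧ (d.m ≤ T ∨ (d.lp (s + 1) y < d.x T ∧ d.x T < d.rp (s + 1) y))}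

/-- A witness for the life of the cell of level `l` and the life of the cell of level `e`. -/
def wit (s : ℕ) (y : ℤ) (l e : ℕ) : Prop :=
  use d c s y l ∧ e < l ∧ c s e (y / 2 ^ e) ∧
    (∀ t, s < t → up d t y → (∀ T, s < T → T < t → ¬ up d T y) →
      sm e (d.lp (t + 1) y) (d.rp (t + 1) y)) ∧
    ∀ T ≤ s, c T e (y / 2 ^ e) → en d e y T = en d e y s → A d l T y

/-- The lives of level `j`: index of the cell and end. -/
noncomputable def LV (j : ℕ) : Finset (ℤ × ℕ) :=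
  (d.keys.image (fun v => v / 2 ^ j) ×ˢ range (d.m + 1)).filter fun p =>
    ∃ t v, c t j p.1 ∧ v / 2 ^ j = p.1 ∧ en d j v t = p.2

/-- The pairs of level `e`: index of the small cell, level and end of the large life. -/
noncomputable def PR (J e : ℕ) : Finset (ℤ × ℕ × ℕ) :=
  ((range d.m ×ˢ d.keys ×ˢ range J).filter fun p => wit d c p.1 p.2.1 p.2.2 e).image fun p =>
    (p.2.1 / 2 ^ e, p.2.2, en d p.2.2 p.2.1 p.1)

/-- At the end of the large life no key of the small cell has a parent outside the large cell. -/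
def pass (e : ℕ) (q : ℤ × ℕ × ℕ) : Prop :=
  ∀ z ∈ d.keys, z / 2 ^ e = q.1 → ¬ A d q.2.1 q.2.2 z

/-- All pairs (time, ancestor). -/
noncomputable def ON : Finset (ℕ × ℤ) := (range d.m ×ˢ d.keys).filter fun p => on d p.1 p.2

/-- The links in cold cells. -/
noncomputable def PL : Finset (ℕ × ℤ) :=
  (range d.m ×ˢ d.keys).filter fun p => ∃ j, use d c p.1 p.2 j

/-- The other links. -/
noncomputable def NP : Finset (ℕ × ℤ) :=
  (range d.m ×ˢ d.keys).filter fun p => up d p.1 p.2 ∧ ¬ ∃ j, use d c p.1 p.2 j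

/-- An unpaid use at time `t` and level `e`, after the use at time `s` and level `l`. -/
def bs (K s t : ℕ) (y : ℤ) (l e : ℕ) : Prop :=
  s < t ∧ (∀ T, s < T → T < t → ¬ up d T y) ∧ use d c t y e ∧ wit d c s y l e ∧
    (∀ T, s < T → T < t → d.x T ≠ y) ∧
    (∀ T, s < T → T < t → ∀ u, low d T y u → ∃ i, use d c T u i) ∧
    #((Ioc s t).filter fun T => on d T y) ≤ K

/-- The unpaid uses. -/
noncomputable def BS (K : ℕ) : Finset (ℕ × ℤ) :=
  (range d.m ×ˢ d.keys).filter fun p => ∃ s l e, bs d c K s p.1 p.2 l e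

/-- The unpaid uses that satisfy a further condition `φ s t y l e` and whose earlier use is in
the right half. -/
noncomputable def BR (K : ℕ) (φ : ℕ → ℕ → ℤ → ℕ → ℕ → Prop) : Finset (ℕ × ℤ) :=
  (range d.m ×ˢ d.keys).filter fun p =>
    ∃ s l e, bs d c K s p.1 p.2 l e ∧ useR d c s p.2 l ∧ φ s p.1 p.2 l e

/-- Both parents are outside the small cell right after the first use. -/
def top0 (s _t : ℕ) (y : ℤ) (_l e : ℕ) : Prop := ¬ sm e y (d.rp (s + 1) y)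

/-- Both parents are outside the small cell at the end of one of its lives. -/
def top1 (s t : ℕ) (y : ℤ) (_l e : ℕ) : Prop :=
  ∃ T T', s < T ∧ T ≤ t ∧ c T' e (y / 2 ^ e) ∧ en d e y T' = T ∧
    ¬ sm e (d.lp T y) y ∧ ¬ sm e y (d.rp T y)

/-- Only the left parent is outside the small cell, all the time. -/
def lso (s t : ℕ) (y : ℤ) (_l e : ℕ) : Prop :=
  ∀ T, s < T → T ≤ t → ¬ sm e (d.lp T y) y ∧ sm e y (d.rp T y)

/-- The first access between the parents is on the right. -/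
def crs (s _t : ℕ) (y : ℤ) (_l _e : ℕ) : Prop := rho d s y < d.m ∧ y < d.x (rho d s y)

/-- A clean unpaid use. -/
def cl (K s t : ℕ) (y : ℤ) (l e : ℕ) : Prop :=
  bs d c K s t y l e ∧ useR d c s y l ∧ lso d s t y l e ∧ ¬ crs d s t y l e

/-- Two uses in the same life of the same cell. -/
def same (s : ℕ) (y : ℤ) (s' : ℕ) (y' : ℤ) (l : ℕ) : Prop :=
  useR d c s y l ∧ useR d c s' y' l ∧ sm l y y' ∧ en d l y s = en d l y' s'

/-- The whole block of the first use lies in the half of the small cell that holds `y`. -/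
def ins (s _t : ℕ) (y : ℤ) (l e : ℕ) : Prop :=
  ∀ s' y', same d c s y s' y' l → rho d s' y' = rho d s y → sm (e - 1) y y'

/-- The blocks: level, cell, end of the life, first access. -/
noncomputable def BL (J : ℕ) : Finset (ℕ × ℤ × ℕ × ℕ) :=
  ((range d.m ×ˢ d.keys ×ˢ range J).filter fun p =>
    useR d c p.1 p.2.1 p.2.2 ∧ rho d p.1 p.2.1 < d.m).image fun p =>
      (p.2.2, p.2.1 / 2 ^ p.2.2, en d p.2.2 p.2.1 p.1, rho d p.1 p.2.1)

end

/-! ### Elementary facts -/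

-- deps:
def S_SM : Prop :=
  (∀ (i j : ℕ) (a b : ℤ), i ≤ j → sm i a b → sm j a b) ∧
  (∀ (j : ℕ) (a b z : ℤ), sm j a b → a ≤ z → z ≤ b → sm j a z ∧ sm j z b) ∧
  (∀ (j : ℕ) (a b z : ℤ), sm (j + 1) a b → a ≤ z → z ≤ b → sm j a z ∨ sm j z b) ∧
  (∀ (j : ℕ) (a b : ℤ), sm j (mr a) (mr b) ↔ sm j a b) ∧
  (∀ (j : ℕ) (a : ℤ), mr a / 2 ^ j = mr (a / 2 ^ j)) ∧
  (∀ (j : ℕ) (a b a' b' : ℤ), sm j a a' → sm j b b' → ¬ sm j a b → a < b → a' < b')

-- deps: SM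
def S_EN : Prop :=
  ∀ (sg : ℕ) (d : Run) (c : ℕ → ℕ → ℤ → Prop), Cold sg d c → ∀ (j : ℕ) (y : ℤ) (t : ℕ), t ≤ d.m →
    (t ≤ en d j y t ∧ en d j y t ≤ d.m) ∧
    (∀ T, t ≤ T → T < en d j y t → ¬ sm j (d.x T) y) ∧
    (en d j y t = d.m ∨ sm j (d.x (en d j y t)) y) ∧
    (∀ T, t ≤ T → T ≤ en d j y t → en d j y T = en d j y t) ∧
    (∀ T, t ≤ T → T ≤ d.m → en d j y t ≤ en d j y T) ∧
    (∀ j', j ≤ j' → en d j' y t ≤ en d j y t) ∧
    (∀ y', sm j y y' → en d j y' t = en d j y t) ∧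
    (c t j (y / 2 ^ j) → t < en d j y t ∧
      ∀ T, t ≤ T → T < en d j y t → c T j (y / 2 ^ j))

-- deps:
def S_LINK : Prop :=
  ∀ d : Run, d.OK → ∀ t y, up d t y →
    (d.lp (t + 1) y < y ∧ y < d.rp (t + 1) y) ∧
    (d.x t < d.lp (t + 1) y ∨ d.rp (t + 1) y < d.x t) ∧
    (d.x t < y → on d t (d.lp (t + 1) y) ∧ d.rp (t + 1) y = d.rp t y ∧
      d.rp t (d.lp (t + 1) y) = y ∧ d.lp (t + 1) (d.lp (t + 1) y) = d.x t ∧
      d.rp (t + 1) (d.lp (t + 1) y) = d.rp t y ∧ (d.rp t y = d.R ∨ on d t (d.rp t y))) ∧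
    (y < d.x t → on d t (d.rp (t + 1) y) ∧ d.lp (t + 1) y = d.lp t y ∧
      d.lp t (d.rp (t + 1) y) = y ∧ d.rp (t + 1) (d.rp (t + 1) y) = d.x t ∧
      d.lp (t + 1) (d.rp (t + 1) y) = d.lp t y ∧ (d.lp t y = d.L ∨ on d t (d.lp t y))) ∧
    (∀ z, d.lp (t + 1) y < z → z < y → d.lp (t + 1) y ≤ d.lp t z ∧ d.rp t z ≤ y) ∧
    (∀ z, y < z → z < d.rp (t + 1) y → y ≤ d.lp t z ∧ d.rp t z ≤ d.rp (t + 1) y) ∧
    (∀ y', up d t y' → y < y' → d.rp (t + 1) y ≤ d.lp (t + 1) y')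

-- deps: LINK
def S_STEP : Prop :=
  ∀ d : Run, d.OK → ∀ t < d.m, ∀ y, d.L < y → y < d.R → y ≠ d.x t →
    (¬ on d t y → d.lp (t + 1) y = d.lp t y ∧ d.rp (t + 1) y = d.rp t y) ∧
    (on d t y → ¬ up d t y → d.x t < y → d.lp (t + 1) y = d.x t ∧
      (d.rp (t + 1) y = d.rp t y ∨ (low d t y (d.rp t y) ∧ d.rp (t + 1) y = d.rp t (d.rp t y)))) ∧
    (on d t y → ¬ up d t y → y < d.x t → d.rp (t + 1) y = d.x t ∧
      (d.lp (t + 1) y = d.lp t y ∨ (low d t y (d.lp t y) ∧ d.lp (t + 1) y = d.lp t (d.lp t y)))) ∧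
    (∀ u u', low d t y u → low d t y u' → u = u') ∧ (∀ u y', low d t y u → low d t y' u → y = y')

-- deps: STEP
def S_FRZ : Prop :=
  ∀ d : Run, d.OK →
    (∀ t ≤ d.m, ∀ a b, d.L < a → a < d.R → d.L < b → b < d.R → a ≠ b → d.lp t a < d.rp t b →
      d.lp t b < d.rp t a → (d.lp t a < b ∧ b < d.rp t a) ∨ (d.lp t b < a ∧ a < d.rp t b)) ∧
    (∀ t T y, t ≤ T → T ≤ d.m → d.L < y → y < d.R →
      (∀ T', t ≤ T' → T' < T → ¬ (d.lp t y < d.x T' ∧ d.x T' < d.rp t y)) →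
      d.lp T y = d.lp t y ∧ d.rp T y = d.rp t y) ∧
    ∀ s y, up d s y → (s < rho d s y ∧ rho d s y ≤ d.m) ∧
      (∀ T, s < T → T < rho d s y → ¬ (d.lp (s + 1) y < d.x T ∧ d.x T < d.rp (s + 1) y)) ∧
      (rho d s y < d.m → d.lp (s + 1) y < d.x (rho d s y) ∧ d.x (rho d s y) < d.rp (s + 1) y) ∧
      (∀ T, s < T → T ≤ rho d s y → d.lp T y = d.lp (s + 1) y ∧ d.rp T y = d.rp (s + 1) y) ∧
      ∀ T z, s ≤ T → T < rho d s y → d.lp (s + 1) y < z → z < d.rp (s + 1) y → on d T z →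
        T = s ∧ z = y

-- deps: SM LINK STEP
def S_GAIN : Prop :=
  ∀ (sg : ℕ) (d : Run) (c : ℕ → ℕ → ℤ → Prop), d.OK → Cold sg d c → ∀ t < d.m, ∀ (j : ℕ) (y : ℤ), d.L < y →
    y < d.R →
    (¬ sm j (d.x t) y → on d t y → A d j t y) ∧
    (¬ sm j (d.x t) y → A d j (t + 1) y → A d j t y) ∧
    (c t j (y / 2 ^ j) → A d j t y → ¬ A d j (t + 1) y → ∀ k, sg ≤ k → A d k (t + 1) y →
      ∃ i, k < i ∧ i ≤ j ∧ use d c t y i) ∧
    (¬ A d j t y → A d j (t + 1) y → sm j (d.x t) y ∧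
      (y = d.x t ∨ ∃ u, low d t y u ∧ ¬ ∃ i, use d c t u i))

-- deps: SM EN LINK FRZ GAIN
/-- After a use the node is frozen; it was the node next to the middle of its cell. -/
def S_USE : Prop :=
  ∀ (sg : ℕ) (d : Run) (c : ℕ → ℕ → ℤ → Prop), d.OK → Cold sg d c → ∀ s y l, use d c s y l →
    (1 ≤ l ∧ A d l s y ∧ (∀ l', use d c s y l' → l' = l) ∧ en d l y s ≤ rho d s y ∧
      ∀ J, sm J d.L d.R → l < J) ∧
    (∀ T, s < T → T ≤ en d l y s → ¬ A d l T y ∧ ∀ i < l, A d i T y) ∧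
    (∀ T z, s ≤ T → T ≤ en d l y s → d.lp (s + 1) y < z → z < d.rp (s + 1) y → A d l T z →
      T = s ∧ z = y) ∧
    (sm (l - 1) (d.lp (s + 1) y) y ↔ ¬ sm (l - 1) y (d.rp (s + 1) y))

-- deps: SM EN LINK FRZ GAIN USE
def S_MARCH : Prop :=
  ∀ (sg : ℕ) (d : Run) (c : ℕ → ℕ → ℤ → Prop), d.OK → Cold sg d c → ∀ s y s' y' l, same d c s y s' y' l →
    (s = s' → y = y') ∧
    (s < s' → y < y' ∧ d.rp (s + 1) y ≤ y' ∧ d.lp (s' + 1) y' ≤ d.lp (s + 1) y ∧
      rho d s' y' ≤ rho d s y)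

/-! ### From uses to pairs -/

-- deps: SM EN STEP GAIN USE
def S_CUT : Prop :=
  ∀ (sg K : ℕ) (d : Run) (c : ℕ → ℕ → ℤ → Prop), d.OK → Cold sg d c →
    K * #(PL d c) ≤ #(ON d) + K * ((d.R - d.L).toNat + 2 * d.m + 3 * #(NP d c) + #(BS d c K))

-- deps: SM USE EMIR
def S_MIR : Prop :=
  ∀ (sg K J : ℕ) (d : Run) (c : ℕ → ℕ → ℤ → Prop), d.OK → Cold sg d c →
    Cold sg d.mir (mc c) ∧ (∀ j, #(LV d.mir (mc c) j) = #(LV d c j)) ∧
    (∀ e, #(PR d.mir (mc c) J e) = #(PR d c J e)) ∧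
    #(BS d c K) ≤ #(BR d c K fun _ _ _ _ _ => True) + #(BR d.mir (mc c) K fun _ _ _ _ _ => True)

-- deps: SM EN LINK STEP GAIN USE
def S_TYP : Prop :=
  ∀ (sg K : ℕ) (d : Run) (c : ℕ → ℕ → ℤ → Prop), d.OK → Cold sg d c → ∀ s t y l e,
    bs d c K s t y l e → useR d c s y l →
    top0 d s t y l e ∨ top1 d c s t y l e ∨ (lso d s t y l e ∧ d.x t < y)

-- deps: SM EN LINK USE MARCH
def S_TOP : Prop :=
  ∀ (sg K J : ℕ) (d : Run) (c : ℕ → ℕ → ℤ → Prop), d.OK → Cold sg d c → sm J d.L d.R →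
    #(BR d c K (top0 d)) ≤ ∑ e ∈ range J, #(PR d c J e) ∧
    #(BR d c K (top1 d c)) ≤ ∑ j ∈ range J, #(LV d c j) ∧
    #(BR d c K (crs d)) ≤ #(BL d c J)

-- deps: SM LINK STEP FRZ USE MARCH
def S_SYNC : Prop :=
  ∀ (sg K : ℕ) (d : Run) (c : ℕ → ℕ → ℤ → Prop), d.OK → Cold sg d c → ∀ s t y l e s' t' y' e',
    cl d c K s t y l e → cl d c K s' t' y' l e' → d.x t < y → same d c s y s' y' l →
    rho d s y = rho d s' y' → sm e y y' → sm e' y y' → t < t' → s' < t ∧ on d t y'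

-- deps: SM EN LINK FRZ GAIN USE MARCH TYP
/-- Second use in the right half of the small cell. -/
def S_ONE : Prop :=
  ∀ (sg K J : ℕ) (d : Run) (c : ℕ → ℕ → ℤ → Prop), d.OK → Cold sg d c → sm J d.L d.R →
    #(BR d c K fun s t y l e => lso d s t y l e ∧ d.x t < y ∧ useR d c t y e) ≤
      K * ∑ e ∈ range J, #(PR d c J e)

-- deps: SM EN LINK USE MARCH SYNC
/-- Second use in the left half, the block is not inside that half. -/
def S_STR : Prop :=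
  ∀ (sg K J : ℕ) (d : Run) (c : ℕ → ℕ → ℤ → Prop), d.OK → Cold sg d c → sm J d.L d.R →
    #(BR d c K fun s t y l e => lso d s t y l e ∧ d.x t < y ∧ ¬ crs d s t y l e ∧
      ¬ useR d c t y e ∧ ¬ ins d c s t y l e) ≤ 2 * K * ∑ e ∈ range J, #(PR d c J e)

-- deps: SM EN LINK FRZ USE MARCH SYNC
/-- Second use in the left half, the block is inside that half. -/
def S_INS : Prop :=
  ∀ (sg K J : ℕ) (d : Run) (c : ℕ → ℕ → ℤ → Prop), d.OK → Cold sg d c → sm J d.L d.R →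
    #(BR d c K fun s t y l e => lso d s t y l e ∧ d.x t < y ∧ ¬ crs d s t y l e ∧
      ¬ useR d c t y e ∧ ins d c s t y l e) ≤ K * #(BL d c J)

-- deps: SM EN LINK FRZ USE
def S_RB : Prop :=
  ∀ (sg J : ℕ) (d : Run) (c : ℕ → ℕ → ℤ → Prop), d.OK → Cold sg d c → sm J d.L d.R →
    #(BL d c J) ≤ d.m + 2 * ∑ j ∈ range J, #(LV d c j)

/-! ### Pairs -/

-- deps: SM EN USE
/-- Two small cells that both hold the key next to the middle of a large cell, or both hold the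
same end of a block, are equal. -/
def S_MARK : Prop :=
  ∀ (sg : ℕ) (d : Run) (c : ℕ → ℕ → ℤ → Prop), d.OK → Cold sg d c →
    (∀ (e g T r r' : ℕ) (v w v' w' : ℤ), use d c r v g → use d c r' v' g → sm g v v' → e < g →
      r < T → T ≤ en d g v r → r' < T → T ≤ en d g v' r' → w ∈ d.keys → w' ∈ d.keys →
      sm e v w → sm e v' w' → A d g T w → A d g T w' → (v < w ↔ v' < w') → sm e v v') ∧
    ∀ (e g l T : ℕ) (v w v' w' : ℤ), T ≤ d.m → e ≤ g → g ≤ l → v ∈ d.keys → w ∈ d.keys →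
      v' ∈ d.keys → w' ∈ d.keys → sm g v v' → sm e v w → sm e v' w' → A d g T v → ¬ A d l T v →
      A d l T w → A d g T v' → ¬ A d l T v' → A d l T w' → (v < w ↔ v' < w') → sm e v v'

-- deps: SM EN USE MARK
def S_FRONT : Prop :=
  ∀ (sg J e : ℕ) (d : Run) (c : ℕ → ℕ → ℤ → Prop), d.OK → Cold sg d c →
    #((PR d c J e).filter fun q => ¬ pass d e q) ≤ 2 * ∑ l ∈ Ioo e J, #(LV d c l)

-- deps: SM EN GAIN USE
/-- Two passed pairs in one life of the small cell. -/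
def S_TWO : Prop :=
  ∀ (sg : ℕ) (d : Run) (c : ℕ → ℕ → ℤ → Prop), d.OK → Cold sg d c → ∀ e s y l s' y' l',
    wit d c s y l e → wit d c s' y' l' e → sm e y y' → en d e y s = en d e y' s' →
    pass d e (y / 2 ^ e, l, en d l y s) → pass d e (y' / 2 ^ e, l', en d l' y' s') →
    (l = l' → en d l y s = en d l y' s') ∧
    (l' < l → en d l y s < en d l' y' s' ∧ y ≠ y') ∧
    ∀ g, e ≤ g → g < l → wit d c s y l g

-- deps: SM EN GAIN USE MARK TWO
/-- The three cases for a pair `(s, y, l)` and a lower pair `(s', y', l')`; `b` is the first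
state of the large life. -/
def S_CASE : Prop :=
  ∀ (sg : ℕ) (d : Run) (c : ℕ → ℕ → ℤ → Prop), d.OK → Cold sg d c → ∀ e s y l s' y' l' b,
    wit d c s y l e → wit d c s' y' l' e → sm e y y' → en d e y s = en d e y' s' →
    pass d e (y / 2 ^ e, l, en d l y s) → pass d e (y' / 2 ^ e, l', en d l' y' s') → l' < l →
    b ≤ s → c b l (y / 2 ^ l) → en d l y b = en d l y s →
    (A d l b y ∧ A d (l' - 1) b y' ∧ ¬ A d l b y') ∨
    ∃ r g, b ≤ r ∧ r < en d l y s ∧ l' ≤ g ∧ g ≤ l ∧ use d c r y' g ∧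
      en d e y' r = en d e y s ∧ (g < l → en d l y s ≤ en d g y' r ∧ A d g (en d l y s) y)

-- deps: SM EN USE MARK TWO CASE
def S_REC : Prop :=
  ∀ (sg J e M φ : ℕ) (d : Run) (c : ℕ → ℕ → ℤ → Prop), d.OK → Cold sg d c → e < φ →
    M * #((PR d c J e).filter fun q => pass d e q) ≤
      M * (φ - e + M + 1) * #(LV d c e) + #(PL d c) + 4 * M * ∑ g ∈ Ico φ J, #(PR d c J g)

-- deps:
def S_SUM : Prop :=
  ∀ (sg J κ P : ℕ) (r v : ℕ → ℕ), 1 ≤ κ → (∀ e ≤ sg, r e = 0) →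
    (∀ e, sg < e → e < J → κ * (e - sg) ^ 3 * r e ≤
      κ * (e - sg) ^ 3 *
          ((8 * (e - sg) ^ 2 + κ * (e - sg) ^ 3 + 1) * v e + 2 * ∑ l ∈ Ioo e J, v l) +
        P + 4 * (κ * (e - sg) ^ 3) * ∑ g ∈ Ico (sg + 8 * (e - sg) ^ 2) J, r g) →
    κ * ∑ e ∈ range J, r e ≤ 4 * P + 24 * κ ^ 2 * ∑ e ∈ range J, (e - sg) ^ 4 * v e

-- deps: EMIR CUT MIR TYP TOP ONE STR INS RB FRONT REC SUM SM
def S_LP : Prop :=
  ∃ C : ℕ, ∀ (sg K J : ℕ) (d : Run) (c : ℕ → ℕ → ℤ → Prop), d.OK → Cold sg d c → sm J d.L d.R → 1 ≤ K →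
    K * #(PL d c) ≤ 2 * #(ON d) + C * K ^ 3 * ((d.R - d.L).toNat + d.m + #(NP d c) +
      ∑ j ∈ range J, (j - sg) ^ 4 * #(LV d c j))

end Pool.Agent.P.MP_119182_lc.LP
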