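import Pool.Agent.P.MP_119182_lc.LP.Iface

/-! Step SUM. -/

set_option autoImplicit false

namespace Pool.Agent.P.MP_119182_lc.LP

open Finset
open scoped Classical
open NU (Run mr)

namespace SUMx

lemma tri (sg J : ℕ) : ∑ e ∈ range (J + 1), (e - sg) ≤ (J - sg) ^ 2 := by
  induction J with
  | zero => simp
  | succ J ih =>
    rw [sum_range_succ]
    rcases le_or_gt (J + 1) sg with h | h
    · have h1 : J + 1 - sg = 0 := by omega
      have h2 : J - sg = 0 := by omega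
      rw [h2] at ih
      rw [h1]
      simpa using ih
    · have h1 : J + 1 - sg = J - sg + 1 := by omega
      rw [h1]
      nlinarith

lemma swap (J : ℕ) (a b w : ℕ → ℕ) (s : ℕ → Finset ℕ) (hs : ∀ e, s e ⊆ range J)
    (h : ∀ l, ∑ e ∈ range J, (if l ∈ s e then a e else 0) ≤ b l) :
    ∑ e ∈ range J, a e * ∑ l ∈ s e, w l ≤ ∑ l ∈ range J, b l * w l := by
  have h1 : ∀ e, a e * ∑ l ∈ s e, w l =
      ∑ l ∈ range J, (if l ∈ s e then a e else 0) * w l := fun e => by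
    simp only [ite_mul, zero_mul]
    rw [← sum_filter, filter_mem_eq_inter, inter_eq_right.2 (hs e), mul_sum]
  simp only [h1]
  rw [sum_comm]
  refine sum_le_sum fun l _ => ?_
  rw [← sum_mul]
  exact Nat.mul_le_mul_right _ (h l)

lemma partA (sg J : ℕ) (v : ℕ → ℕ) :
    ∑ e ∈ range J, (e - sg) * ∑ l ∈ Ioo e J, v l ≤ ∑ l ∈ range J, (l - sg) ^ 4 * v l := by
  refine swap J (fun e => e - sg) (fun l => (l - sg) ^ 4) v (fun e => Ioo e J)
    (fun e l hl => mem_range.2 (mem_Ioo.1 hl).2) fun l => ?_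
  rw [← sum_filter]
  calc _ ≤ ∑ e ∈ range (l + 1), (e - sg) := sum_le_sum_of_subset fun e he => by
        have := (mem_Ioo.1 (mem_filter.1 he).2).1
        exact mem_range.2 (by omega)
    _ ≤ (l - sg) ^ 2 := tri sg l
    _ ≤ ((l - sg) ^ 2) ^ 2 := Nat.le_self_pow (by norm_num) _
    _ = _ := by ring

lemma partC (sg J : ℕ) (r : ℕ → ℕ) :
    ∑ e ∈ range J, (8 * (e - sg)) * ∑ g ∈ Ico (sg + 8 * (e - sg) ^ 2) J, r g ≤
      ∑ g ∈ range J, (g - sg) * r g := by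
  refine swap J (fun e => 8 * (e - sg)) (fun g => g - sg) r
    (fun e => Ico (sg + 8 * (e - sg) ^ 2) J) (fun e l hl => mem_range.2 (mem_Ico.1 hl).2) fun g => ?_
  have key : ∀ N, ∑ e ∈ range N,
      (if g ∈ Ico (sg + 8 * (e - sg) ^ 2) J then 8 * (e - sg) else 0) ≤ g - sg := fun N => by
    induction N with
    | zero => simp
    | succ N ih =>
      by_cases h : g ∈ Ico (sg + 8 * (N - sg) ^ 2) J
      · have h1 := (mem_Ico.1 h).1
        calc _ ≤ ∑ e ∈ range (N + 1), 8 * (e - sg) := sum_le_sum fun e _ => by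
              split_ifs
              · exact le_rfl
              · exact Nat.zero_le _
          _ = 8 * ∑ e ∈ range (N + 1), (e - sg) := (mul_sum _ _ _).symm
          _ ≤ 8 * (N - sg) ^ 2 := Nat.mul_le_mul_left _ (tri sg N)
          _ ≤ _ := by omega
      · rw [sum_range_succ, if_neg h, add_zero]
        exact ih
  exact key J

lemma partB (sg J : ℕ) : ∑ e ∈ range J, (((e - sg : ℕ) : ℝ) ^ 2)⁻¹ ≤ 2 := by
  have key : ∀ N : ℕ, ∑ e ∈ range (N + 1), (((e - sg : ℕ) : ℝ) ^ 2)⁻¹ ≤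
      2 - 2 / (2 * ((N - sg : ℕ) : ℝ) + 1) := fun N => by
    induction N with
    | zero => simp
    | succ N ih =>
      rw [sum_range_succ]
      rcases le_or_gt (N + 1) sg with h | h
      · have h1 : N + 1 - sg = 0 := by omega
        have h2 : N - sg = 0 := by omega
        rw [h2] at ih
        rw [h1]
        simpa using ih
      · have h1 : N + 1 - sg = N - sg + 1 := by omega
        rw [h1]
        push_cast
        have h0 : (0 : ℝ) ≤ ((N - sg : ℕ) : ℝ) := Nat.cast_nonneg _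
        generalize ((N - sg : ℕ) : ℝ) = a at ih h0 ⊢
        have h3 : ((a + 1) ^ 2)⁻¹ ≤ 2 / (2 * a + 1) - 2 / (2 * (a + 1) + 1) := by
          rw [div_sub_div _ _ (by positivity) (by positivity), inv_eq_one_div,
            div_le_div_iff₀ (by positivity) (by positivity)]
          nlinarith
        linarith
  have h1 := key J
  rw [sum_range_succ] at h1
  have h2 : (0 : ℝ) ≤ (((J - sg : ℕ) : ℝ) ^ 2)⁻¹ := by positivity
  have h3 : (0 : ℝ) ≤ 2 / (2 * ((J - sg : ℕ) : ℝ) + 1) := by positivity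
  linarith

lemma one (κ k P r v X Y : ℕ) (hκ : 1 ≤ κ) (hk : 1 ≤ k)
    (h : κ * k ^ 3 * r ≤ κ * k ^ 3 * ((8 * k ^ 2 + κ * k ^ 3 + 1) * v + 2 * X) + P +
      4 * (κ * k ^ 3) * Y) :
    (2 * κ : ℝ) * (k * r : ℕ) ≤ 20 * κ ^ 2 * (k ^ 4 * v : ℕ) + 4 * κ * (k * X : ℕ) +
      2 * P * ((k : ℝ) ^ 2)⁻¹ + κ * (8 * k * Y : ℕ) := by
  have h1 : 8 * k ^ 2 + κ * k ^ 3 + 1 ≤ 10 * (κ * k ^ 3) := by
    have a1 : k ^ 2 ≤ k ^ 3 := Nat.pow_le_pow_right hk (by norm_num)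
    have a2 : k ^ 3 ≤ κ * k ^ 3 := Nat.le_mul_of_pos_left _ hκ
    have a3 : 1 ≤ k ^ 3 := Nat.one_le_pow _ _ hk
    omega
  have h2 : κ * k ^ 3 * r ≤ κ * k ^ 3 * (10 * (κ * k ^ 3) * v + 2 * X) + P +
      4 * (κ * k ^ 3) * Y := h.trans (by gcongr)
  have h3 : ((κ : ℝ) * k ^ 3 * r ≤ κ * k ^ 3 * (10 * (κ * k ^ 3) * v + 2 * X) + P +
      4 * (κ * k ^ 3) * Y) := by exact_mod_cast h2
  have hk0 : (0 : ℝ) < (k : ℝ) ^ 2 := by positivity
  push_cast
  refine le_of_mul_le_mul_right ?_ hk0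
  rw [add_mul, add_mul, mul_assoc (2 * (P : ℝ)), inv_mul_cancel₀ hk0.ne']
  nlinarith

end SUMx

theorem p_SUM : S_SUM := by
  intro sg J κ P r v hκ h0 h
  have h1 : ∀ e ∈ range J, (2 * κ : ℝ) * ((e - sg) * r e : ℕ) ≤
      20 * κ ^ 2 * ((e - sg) ^ 4 * v e : ℕ) + 4 * κ * ((e - sg) * ∑ l ∈ Ioo e J, v l : ℕ) +
        2 * P * (((e - sg : ℕ) : ℝ) ^ 2)⁻¹ +
          κ * (8 * (e - sg) * ∑ g ∈ Ico (sg + 8 * (e - sg) ^ 2) J, r g : ℕ) := fun e he => by
    rcases le_or_gt e sg with hle | hlt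
    · have h2 : e - sg = 0 := by omega
      rw [h2]
      simp
    · exact SUMx.one κ (e - sg) P (r e) (v e) _ _ hκ (by omega) (h e hlt (mem_range.1 he))
  have h2 := sum_le_sum h1
  simp only [sum_add_distrib, ← mul_sum, ← Nat.cast_sum] at h2
  have hA := SUMx.partA sg J v
  have hB := SUMx.partB sg J
  have hC := SUMx.partC sg J r
  have hD : ∑ e ∈ range J, r e ≤ ∑ e ∈ range J, (e - sg) * r e := sum_le_sum fun e _ => by
    rcases le_or_gt e sg with hle | hlt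
    · rw [h0 e hle]
      exact Nat.zero_le _
    · exact Nat.le_mul_of_pos_left _ (by omega)
  generalize ∑ e ∈ range J, (e - sg) * r e = S at h2 hC hD
  generalize ∑ e ∈ range J, (e - sg) ^ 4 * v e = B at h2 hA ⊢
  generalize ∑ e ∈ range J, (e - sg) * ∑ l ∈ Ioo e J, v l = X at h2 hA
  generalize ∑ e ∈ range J, 8 * (e - sg) * ∑ g ∈ Ico (sg + 8 * (e - sg) ^ 2) J, r g = Y at h2 hC
  generalize ∑ e ∈ range J, (((e - sg : ℕ) : ℝ) ^ 2)⁻¹ = Z at h2 hB
  generalize ∑ e ∈ range J, r e = R at hD ⊢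
  have a1 : (X : ℝ) ≤ B := by exact_mod_cast hA
  have a2 : (Y : ℝ) ≤ S := by exact_mod_cast hC
  have a3 : (R : ℝ) ≤ S := by exact_mod_cast hD
  have a4 : (1 : ℝ) ≤ κ := by exact_mod_cast hκ
  have a5 : (0 : ℝ) ≤ P := Nat.cast_nonneg _
  have a6 : (0 : ℝ) ≤ B := Nat.cast_nonneg _
  have b1 : (κ : ℝ) * X ≤ κ * B := by gcongr
  have b2 : (κ : ℝ) * Y ≤ κ * S := by gcongr
  have b3 : (κ : ℝ) * R ≤ κ * S := by gcongr
  have b4 : (P : ℝ) * Z ≤ P * 2 := by gcongr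
  have b5 : (κ : ℝ) * B ≤ κ ^ 2 * B := by
    rw [pow_two, mul_assoc]
    exact le_mul_of_one_le_left (by positivity) a4
  have b6 : (κ : ℝ) * R ≤ 4 * P + 24 * κ ^ 2 * B := by linarith
  exact_mod_cast b6

end Pool.Agent.P.MP_119182_lc.LP
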