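import Pool.Agent.P.MP_119182_lc.LP.Iface

/-! The types of unpaid uses. -/

set_option autoImplicit false

namespace Pool.Agent.P.MP_119182_lc.LP

open Finset
open scoped Classical
open NU (Run mr)

namespace TYPx

theorem btw (hSM : S_SM) {j : ℕ} {a b z : ℤ} (h : sm j a b) (h1 : a ≤ z) (h2 : z ≤ b) :
    sm j a z ∧ sm j z b := hSM.2.1 j a b z h h1 h2

/-- Both parents stay outside the cell while the accesses avoid it and there is no link at `y`. -/
theorem stay (hSM : S_SM) (hSTEP : S_STEP) (d : Run) (hd : d.OK) (e T : ℕ) (y : ℤ) (hT : T < d.m)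
    (hL : d.L < y) (hR : y < d.R) (hx : ¬ sm e (d.x T) y) (hup : ¬ up d T y)
    (h1 : ¬ sm e (d.lp T y) y) (h2 : ¬ sm e y (d.rp T y)) :
    ¬ sm e (d.lp (T + 1) y) y ∧ ¬ sm e y (d.rp (T + 1) y) := by
  have hne : y ≠ d.x T := by
    intro h
    apply hx
    rw [← h]
    rfl
  obtain ⟨s1, s2, s3, -, -⟩ := hSTEP d hd T hT y hL hR hne
  have tr := hd.tree T hT.le
  have b := tr.bnd y hL hR
  by_cases hon : on d T y
  · rcases lt_or_gt_of_ne hne with hlt | hlt
    · obtain ⟨e1, e2⟩ := s3 hon hup hlt
      refine ⟨?_, ?_⟩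
      · rcases e2 with e2 | ⟨hl, e2⟩
        · rw [e2]; exact h1
        · rw [e2]
          intro h
          have hu := hl.1.2.1
          have b2 := tr.bnd _ hu.1 hu.2.1
          exact h1 (btw hSM h b2.2.1.le b.2.1.le).2
      · rw [e1]
        intro h
        exact hx h.symm
    · obtain ⟨e1, e2⟩ := s2 hon hup hlt
      refine ⟨?_, ?_⟩
      · rw [e1]; exact hx
      · rcases e2 with e2 | ⟨hl, e2⟩
        · rw [e2]; exact h2
        · rw [e2]
          intro h
          have hu := hl.1.2.1
          have b2 := tr.bnd _ hu.1 hu.2.1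
          exact h2 (btw hSM h b.2.2.1.le b2.2.2.1.le).1
  · obtain ⟨e1, e2⟩ := s1 hon
    rw [e1, e2]
    exact ⟨h1, h2⟩

end TYPx

theorem p_TYP (hSM : S_SM) (hEN : S_EN) (hLINK : S_LINK) (hSTEP : S_STEP) (hGAIN : S_GAIN)
    (hUSE : S_USE) : S_TYP := by
  intro sg K d c hd hc s t y l e hbs huR
  obtain ⟨hst, hnup, hut, hwit, hx, hlow, -⟩ := hbs
  have hupt : up d t y := hut.1
  have htm : t < d.m := hupt.1
  have hL : d.L < y := hupt.2.1.1
  have hR : y < d.R := hupt.2.1.2.1
  have hel : e < l := hwit.2.1
  have hsg : sg < e := hc.low _ _ _ hwit.2.2.1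
  obtain ⟨⟨k1, k2⟩, -, kR, kL, -⟩ := hLINK d hd t y hupt
  have hin := TYPx.btw hSM hut.2.1 k1.le k2.le
  have hAt : A d e t y := (hUSE sg d c hd hc t y e hut).1.2.1
  -- a parent is outside the small cell at all states between the two uses
  have hA : ∀ T, s < T → T ≤ t → A d e T y := by
    intro T hsT hTt
    by_contra hn
    have : ∀ k, T + k ≤ t → ¬ A d e (T + k) y := by
      intro k
      induction k with
      | zero => intro _; exact hn
      | succ k ih =>
        intro hk hA1
        have hk1 : T + k < t := by omega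
        obtain ⟨-, h⟩ := (hGAIN sg d c hd hc (T + k) (by omega) e y hL hR).2.2.2 (ih hk1.le) hA1
        rcases h with h | ⟨u, hu, hnu⟩
        · exact hx (T + k) (by omega) hk1 h.symm
        · exact hnu (hlow (T + k) (by omega) hk1 u hu)
    have h := this (t - T) (by omega)
    rw [show T + (t - T) = t by omega] at h
    exact h hAt
  by_cases h0 : top0 d s t y l e
  · exact Or.inl h0
  by_cases h1 : top1 d c s t y l e
  · exact Or.inr (Or.inl h1)
  refine Or.inr (Or.inr ?_)
  have hstart : ¬ sm e (d.lp (s + 1) y) y ∧ sm e y (d.rp (s + 1) y) := by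
    refine ⟨fun h => huR.2 (hSM.1 e (l - 1) _ _ (by omega) h), ?_⟩
    by_contra h
    exact h0 h
  have hstep : ∀ T, s < T → T < t → (¬ sm e (d.lp T y) y ∧ sm e y (d.rp T y)) →
      (¬ sm e (d.lp (T + 1) y) y ∧ sm e y (d.rp (T + 1) y)) := by
    intro T hsT hTt hP
    have hTm : T < d.m := by omega
    have hne : y ≠ d.x T := fun h => hx T hsT hTt h.symm
    have hup := hnup T hsT hTt
    obtain ⟨s1, s2, s3, -, -⟩ := hSTEP d hd T hTm y hL hR hne
    have tr := hd.tree T hTm.le
    have b := tr.bnd y hL hR
    have hA1 : A d e (T + 1) y := hA (T + 1) (by omega) (by omega)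
    by_cases hon : on d T y
    · rcases lt_or_gt_of_ne hne with hlt | hlt
      · obtain ⟨e1, e2⟩ := s3 hon hup hlt
        refine ⟨?_, ?_⟩
        · rcases e2 with e2 | ⟨hl, e2⟩
          · rw [e2]; exact hP.1
          · rw [e2]
            intro h
            have hu := hl.1.2.1
            have b2 := tr.bnd _ hu.1 hu.2.1
            exact hP.1 (TYPx.btw hSM h b2.2.1.le b.2.1.le).2
        · rw [e1]
          exact (TYPx.btw hSM hP.2 hlt.le hon.2.2.2.2.le).1
      · obtain ⟨e1, e2⟩ := s2 hon hup hlt
        by_cases hr : sm e y (d.rp (T + 1) y)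
        · refine ⟨fun h => hA1 ?_, hr⟩
          exact Eq.trans h hr
        exfalso
        rcases e2 with e2 | ⟨hl, e2⟩
        · rw [e2] at hr
          exact hr hP.2
        obtain ⟨i, hi⟩ := hlow T hsT hTt _ hl
        have hlp : d.lp (T + 1) (d.rp T y) = y := by
          rcases hl.2 with h | h
          · exact h.2
          · exact absurd h.1 (not_lt.2 hlt.le)
        have hrp : d.rp (T + 1) (d.rp T y) = d.rp T (d.rp T y) :=
          ((hLINK d hd T _ hl.1).2.2.1 (hlt.trans b.2.2.1)).2.1
        have hsi : sm i y (d.rp (T + 1) y) := by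
          have h := hi.2.1
          rw [hlp, hrp, ← e2] at h
          exact h
        have hei : e ≤ i := by
          by_contra h
          exact hr (hSM.1 i e _ _ (by omega) hsi)
        have hcold : c T e (y / 2 ^ e) := by
          have h := hc.sub T e i _ hsg hei hi.2.2.2
          have h2 : y / 2 ^ e = d.rp T y / 2 ^ e := hP.2
          rw [h2]
          exact h
        have hxo : ¬ sm e (d.x T) y := (hc.out _ _ _ hcold).2
        obtain ⟨⟨-, n2⟩, n3, -, -, -, -, -, n8⟩ := hEN sg d c hc e y T hTm.le
        have hTE : T < en d e y T := (n8 hcold).1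
        have hout : ∀ k, T + 1 + k ≤ t → T + 1 + k ≤ en d e y T →
            ¬ sm e (d.lp (T + 1 + k) y) y ∧ ¬ sm e y (d.rp (T + 1 + k) y) := by
          intro k
          induction k with
          | zero =>
            intro _ _
            refine ⟨?_, hr⟩
            rw [Nat.add_zero, e1]
            exact hxo
          | succ k ih =>
            intro hk1 hk2
            obtain ⟨i1, i2⟩ := ih (by omega) (by omega)
            exact TYPx.stay hSM hSTEP d hd e (T + 1 + k) y (by omega) hL hR
              (n3 _ (by omega) (by omega)) (hnup _ (by omega) (by omega)) i1 i2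
        by_cases hE : en d e y T ≤ t
        · have h := hout (en d e y T - (T + 1)) (by omega) (by omega)
          rw [show T + 1 + (en d e y T - (T + 1)) = en d e y T by omega] at h
          exact h1 ⟨en d e y T, T, by omega, hE, hcold, rfl, h.1, h.2⟩
        · have h := hout (t - (T + 1)) (by omega) (by omega)
          rw [show T + 1 + (t - (T + 1)) = t by omega] at h
          rcases lt_or_gt_of_ne hupt.2.1.2.2.1 with hy | hy
          · have h3 := (kL hy).2.1
            rw [h3] at hin
            exact h.1 hin.1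
          · have h3 := (kR hy).2.1
            rw [h3] at hin
            exact h.2 hin.2
    · obtain ⟨e1, e2⟩ := s1 hon
      rw [e1, e2]
      exact hP
  have hall : ∀ k, s + 1 + k ≤ t →
      ¬ sm e (d.lp (s + 1 + k) y) y ∧ sm e y (d.rp (s + 1 + k) y) := by
    intro k
    induction k with
    | zero => intro _; exact hstart
    | succ k ih =>
      intro hk
      exact hstep (s + 1 + k) (by omega) (by omega) (ih (by omega))
  have hlso : lso d s t y l e := by
    intro T hsT hTt
    have h := hall (T - (s + 1)) (by omega)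
    rw [show s + 1 + (T - (s + 1)) = T by omega] at h
    exact h
  refine ⟨hlso, ?_⟩
  rcases lt_or_gt_of_ne hupt.2.1.2.2.1 with hy | hy
  · exfalso
    have h3 := (kL hy).2.1
    rw [h3] at hin
    exact (hlso t hst le_rfl).1 hin.1
  · exact hy

end Pool.Agent.P.MP_119182_lc.LP
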